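import Pool.Agent.Work.MP_10f4af_ag.UN.B3

/-!
# Jets at independent points, vertices of polygons

Plan.  `jets`: `genf` with `γ = A`, `g = Subtype.val`, `N = I ⊕ J`, the functionals `eval (v i)` and
`u ↦ ∑ t, eval (v (ι j)) (pderiv t u) * δ j t` (as in the proof of `low`).  Independence: there are
linear forms `w i` with `eval (v i') (w i) = if i = i' then 1 else 0`
(`LinearMap.exists_leftInverse_of_injective` for `Fintype.linearCombination`, a functional `φ` gives
the linear form `∑ s, C (φ (Pi.single s 1)) * X s`, `LinearMap.pi_apply_eq_sum_univ`), and linear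
forms `η j` which vanish at `v (ι j)` and are `1` at `δ j`
(`Submodule.exists_dual_forall_eq_zero..`, or the first remark for the independent pair).  The map
`u ↦ ∑ t, eval y (pderiv t u) * δ t` satisfies the product rule and is `eval δ` on linear forms.
The test forms are `η j * w (ι j) ^ (e - 1)` (write `e = e' + 3`), and then `w i ^ e`.
`vlin`: let `A t = ∑ s with o s ≤ o t, c s`; the coordinate `t` with `x t ≠ 0` gives
`m * A t + l * (total - A t) = 0`.  For the greatest `t` the total sum is zero, so `A t = 0` for all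
`t`; strong induction on `o t`.
`vx_eq`: if some `s` with `x s ≠ 0` has `i ≤ o s`, take the one with the least `o s` and `c = 1`;
otherwise take the `s` with `x s ≠ 0` and least `o s`, and `c = l / m`.
`vrk`, `notan`: take `s₀` with `x s₀ ≠ 0`; the points `(m * x s₀)⁻¹ • vx o l m x (o s)` have their
coordinates in the field generated by `A = insert (l / m) (image (x · / x s₀) (supp.erase s₀))`,
which has at most `supp.card` elements.  Use `UNB2_scale`, `IsHomogeneous.pderiv`, `jets` with
`J = Empty`, resp. `J = Unit` and `δ = Pi.single t 1` (after `vx_eq`), `rk_le_of_mem`.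
-/

open MvPolynomial Set

namespace Pool.Agent.Work.MP_10f4af_ag

open MP_ffcd14_ag (rk rk_mono rk_le_of_alg rk_le_of_mem rk_union_le rk_le_encard)

universe u

/-- The vertices of a polygon: the coordinates before `j` are multiplied by `l`, the others by
`m`. -/
def vx {σ A : Type*} [Mul A] (o : σ → ℕ) (l m : A) (x : σ → A) (j : ℕ) : σ → A :=
  fun s => (if o s < j then l else m) * x s

variable {k L : Type u} [Field k] [Field L] [Algebra k L] {σ : Type} [Fintype σ]
  {f : MvPolynomial σ k} {e : ℕ}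

/-- The linear form given by a functional. -/
noncomputable def FAA1_lin (φ : (σ → L) →ₗ[L] L) : MvPolynomial σ L := by
  classical exact ∑ s, C (φ (Pi.single s 1)) * X s

theorem FAA1_lin_hom (φ : (σ → L) →ₗ[L] L) : (FAA1_lin φ).IsHomogeneous 1 := by
  unfold FAA1_lin
  exact IsHomogeneous.sum _ _ _ fun s _ => (isHomogeneous_X L s).C_mul _

theorem FAA1_apply [DecidableEq σ] (φ : (σ → L) →ₗ[L] L) (y : σ → L) :
    ∑ s, φ (Pi.single s 1) * y s = φ y := by
  rw [LinearMap.pi_apply_eq_sum_univ φ y]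
  refine Finset.sum_congr rfl fun s _ => ?_
  rw [smul_eq_mul, mul_comm]
  congr 2
  funext j
  simp [Pi.single_apply, eq_comm]

theorem FAA1_lin_eval (φ : (σ → L) →ₗ[L] L) (y : σ → L) : eval y (FAA1_lin φ) = φ y := by
  classical
  unfold FAA1_lin
  simp only [map_sum, map_mul, eval_C, eval_X]
  convert FAA1_apply φ y

theorem FAA1_lin_der (φ : (σ → L) →ₗ[L] L) (y d : σ → L) :
    ∑ t, eval y (pderiv t (FAA1_lin φ)) * d t = φ d := by
  classical
  rw [← FAA1_apply φ d]
  refine Finset.sum_congr rfl fun t _ => ?_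
  congr 1
  unfold FAA1_lin
  simp only [map_sum, pderiv_C_mul, pderiv_X, map_mul, eval_C]
  rw [Finset.sum_eq_single t (fun s _ hs => by simp [Pi.single_eq_of_ne hs]) (by simp)]
  simp

theorem FAA1_der_mul (y d : σ → L) (p q : MvPolynomial σ L) (n : ℕ) :
    ∑ t, eval y (pderiv t (p * q ^ (n + 2))) * d t =
      (∑ t, eval y (pderiv t p) * d t) * eval y q ^ (n + 2) +
        eval y p * ((n + 2 : ℕ) * eval y q ^ (n + 1)) * ∑ t, eval y (pderiv t q) * d t := by
  rw [Finset.sum_mul, Finset.mul_sum, ← Finset.sum_add_distrib]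
  refine Finset.sum_congr rfl fun t _ => ?_
  simp only [pderiv_mul, pderiv_pow, map_add, map_mul, map_pow, map_natCast]
  rw [show n + 2 - 1 = n + 1 from rfl]
  ring

omit [Fintype σ] in
theorem FAA1_dual {I : Type} [Fintype I] [DecidableEq I] {v : I → σ → L}
    (hv : LinearIndependent L v) :
    ∃ w : I → (σ → L) →ₗ[L] L, ∀ i i', w i (v i') = if i = i' then 1 else 0 := by
  obtain ⟨g, hg⟩ := (Fintype.linearCombination L v).exists_leftInverse_of_injective
    (LinearMap.ker_eq_bot.2 (linearIndependent_iff_injective_fintypeLinearCombination.1 hv))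
  refine ⟨fun i => LinearMap.proj i ∘ₗ g, fun i i' => ?_⟩
  have := LinearMap.congr_fun hg (Pi.single i' 1)
  rw [LinearMap.comp_apply, Fintype.linearCombination_apply_single, one_smul] at this
  simp [this, Pi.single_apply]

omit [Fintype σ] in
theorem FAA1_sep {y d : σ → L} (h : ∀ c : L, d ≠ c • y) :
    ∃ η : (σ → L) →ₗ[L] L, η y = 0 ∧ η d = 1 := by
  have hd : d ∉ Submodule.span L {y} := fun hd => by
    obtain ⟨c, hc⟩ := Submodule.mem_span_singleton.1 hd
    exact h c hc.symm
  obtain ⟨η, h1, h2⟩ := Submodule.exists_dual_map_eq_bot_of_notMem hd inferInstance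
  have h3 : η y = 0 := by
    have : η y ∈ (Submodule.span L {y}).map η :=
      Submodule.mem_map_of_mem (Submodule.mem_span_singleton_self y)
    rwa [h2, Submodule.mem_bot] at this
  exact ⟨(η d)⁻¹ • η, by simp [h3], by simp [h1]⟩

theorem jets (h : GF f e) (he : 3 ≤ e) {I J : Type} [Fintype I] [Fintype J] (A : Finset L)
    {v : I → σ → L} (hv : LinearIndependent L v) {ι : J → I} (hι : Function.Injective ι)
    {δ : J → σ → L} (hδ : ∀ j (c : L), δ j ≠ c • v (ι j))
    (hA : ∀ i s, v i s ∈ Subfield.closure (A : Set L))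
    (hA' : ∀ j s, δ j s ∈ Subfield.closure (A : Set L)) (h0 : ∀ i, aeval (v i) f = 0)
    (h1 : ∀ j, ∑ t, aeval (v (ι j)) (pderiv t f) * δ j t = 0) :
    ((Fintype.card I + Fintype.card J : ℕ) : ℕ∞) + rk k (A : Set L) ≤ A.card := by
  classical
  let g : Fin A.card → L := fun n => (A.equivFin.symm n : L)
  have hg : range g = (A : Set L) := by
    ext y
    constructor
    · rintro ⟨n, rfl⟩
      exact (A.equivFin.symm n).2
    · intro hy
      exact ⟨A.equivFin ⟨y, hy⟩, by simp [g]⟩
  let ψ : J → MvPolynomial σ L →ₗ[L] L := fun j =>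
    ∑ t, δ j t • ((aeval (v (ι j))).toLinearMap ∘ₗ (pderiv t).toLinearMap)
  have hψ : ∀ j u, ψ j u = ∑ t, eval (v (ι j)) (pderiv t u) * δ j t := fun j u => by
    simp [ψ, LinearMap.sum_apply, aeval_eq_eval, mul_comm]
  have key := genf (N := I ⊕ J) h g (Sum.elim (fun i => (aeval (v i)).toLinearMap) ψ) ?_ ?_ ?_
  · rwa [hg, Fintype.card_sum, Nat.card_eq_fintype_card, Fintype.card_fin] at key
  · rw [hg]
    rintro (i | j) m
    · exact UNB2_mem _ (hA i) m (one_mem _)
    · change ψ j (monomial m 1) ∈ _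
      rw [hψ]
      refine sum_mem fun t _ => mul_mem ?_ (hA' j t)
      rw [pderiv_monomial]
      exact UNB2_mem _ (hA _) _ (mul_mem (one_mem _) (natCast_mem _ _))
  · intro a ha
    have ha' : ∀ u : MvPolynomial σ L, u.IsHomogeneous e →
        ∑ i, a (.inl i) * eval (v i) u + ∑ j, a (.inr j) * ψ j u = 0 := fun u hu => by
      have := ha u hu
      rw [Fintype.sum_sum_type] at this
      exact this
    obtain ⟨w, hw⟩ := FAA1_dual hv
    obtain ⟨n, rfl⟩ : ∃ n, e = 1 + 1 * (n + 2) := ⟨e - 3, by omega⟩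
    have q1 : ∀ j, a (.inr j) = 0 := fun j => by
      obtain ⟨η, η0, η1⟩ := FAA1_sep (hδ j)
      have b := ha' _ ((FAA1_lin_hom η).mul ((FAA1_lin_hom (w (ι j))).pow (n + 2)))
      rw [Finset.sum_eq_zero (fun i _ => by
        rw [map_mul, map_pow, FAA1_lin_eval, FAA1_lin_eval, hw]
        split_ifs with hi
        · rw [← hi, η0, zero_mul, mul_zero]
        · simp), zero_add, Finset.sum_eq_single j (fun j' _ hj => by
        rw [hψ, FAA1_der_mul, FAA1_lin_eval (w _), hw, if_neg fun h => hj (hι h).symm]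
        simp) (by simp), hψ, FAA1_der_mul, FAA1_lin_eval (w _), hw, if_pos rfl, FAA1_lin_eval,
        η0, FAA1_lin_der, η1] at b
      simpa using b
    funext c
    rcases c with i | j
    · have hom := (FAA1_lin_hom (w i)).pow (1 + 1 * (n + 2))
      rw [one_mul (1 + 1 * (n + 2))] at hom
      have b := ha' _ hom
      rw [Finset.sum_eq_single i (fun i' _ hi => by
        rw [map_pow, FAA1_lin_eval, hw, if_neg hi.symm]
        simp) (by simp), map_pow, FAA1_lin_eval, hw, if_pos rfl] at b
      simpa [q1] using b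
    · exact q1 j
  · rintro (i | j)
    · exact (aeval_map_algebraMap L (v i) f).trans (h0 i)
    · change ψ j _ = 0
      rw [hψ, ← h1 j]
      refine Finset.sum_congr rfl fun t _ => ?_
      rw [pderiv_map, ← aeval_eq_eval, aeval_map_algebraMap]

variable {o : σ → ℕ} {l m : L} {x : σ → L}

theorem vlin (ho : Function.Injective o) (hl : l ≠ m) (hm : m ≠ 0) (x : σ → L) :
    LinearIndependent L fun s : {s // x s ≠ 0} => vx o l m x (o s) := by
  classical
  refine Fintype.linearIndependent_iff.2 fun c hc => ?_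
  have h1 : ∀ t : {s // x s ≠ 0},
      l * ∑ s, c s + (m - l) * ∑ s : {s // x s ≠ 0} with o s.1 ≤ o t, c s = 0 := fun t => by
    have := congrFun hc t
    simp only [Finset.sum_apply, Pi.smul_apply, smul_eq_mul, Pi.zero_apply, vx, ← mul_assoc,
      ← Finset.sum_mul] at this
    refine Eq.trans ?_ ((mul_eq_zero.1 this).resolve_right t.2)
    rw [Finset.sum_filter, Finset.mul_sum, Finset.mul_sum, ← Finset.sum_add_distrib]
    refine Finset.sum_congr rfl fun s _ => ?_
    by_cases h : o s ≤ o t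
    · rw [if_pos h, if_neg (not_lt.2 h)]
      ring
    · rw [if_neg h, if_pos (not_le.1 h)]
      ring
  intro t
  have h2 : ∑ s, c s = 0 := by
    obtain ⟨r, -, hr⟩ := Finset.exists_max_image Finset.univ (fun s : {s // x s ≠ 0} => o s)
      ⟨t, Finset.mem_univ _⟩
    have := h1 r
    rw [Finset.filter_true_of_mem hr, ← add_mul, add_sub_cancel] at this
    exact (mul_eq_zero.1 this).resolve_left hm
  have h3 : ∀ t : {s // x s ≠ 0}, ∑ s : {s // x s ≠ 0} with o s.1 ≤ o t, c s = 0 := fun t => by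
    have := h1 t
    rw [h2, mul_zero, zero_add] at this
    exact (mul_eq_zero.1 this).resolve_left (sub_ne_zero.2 hl.symm)
  induction hn : o t using Nat.strong_induction_on generalizing t with
  | _ n ih =>
    have := h3 t
    rwa [Finset.sum_eq_single t (fun s hs hst => ih (o s) (hn ▸ lt_of_le_of_ne
      (Finset.mem_filter.1 hs).2 fun h => hst (Subtype.ext (ho h))) s rfl) (by simp)] at this

theorem vx_eq (o : σ → ℕ) (hl : l ≠ 0) (hm : m ≠ 0) (hx : x ≠ 0) (i : ℕ) :
    ∃ s, x s ≠ 0 ∧ ∃ c : L, c ≠ 0 ∧ vx o l m x i = c • vx o l m x (o s) := by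
  classical
  by_cases hc : ∃ s, x s ≠ 0 ∧ i ≤ o s
  · obtain ⟨s, hs, hmin⟩ := Finset.exists_min_image
      (Finset.univ.filter fun s => x s ≠ 0 ∧ i ≤ o s) o
      (hc.imp fun s hs => Finset.mem_filter.2 ⟨Finset.mem_univ _, hs⟩)
    obtain ⟨h1, h2⟩ := (Finset.mem_filter.1 hs).2
    refine ⟨s, h1, 1, one_ne_zero, funext fun t => ?_⟩
    rw [one_smul, vx, vx]
    by_cases ht : x t = 0
    · rw [ht, mul_zero, mul_zero]
    by_cases hi : o t < i
    · rw [if_pos hi, if_pos (hi.trans_le h2)]
    · rw [if_neg hi, if_neg (not_lt.2 (hmin t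
        (Finset.mem_filter.2 ⟨Finset.mem_univ _, ht, not_lt.1 hi⟩)))]
  · push Not at hc
    obtain ⟨s, hs, hmin⟩ := Finset.exists_min_image (Finset.univ.filter fun s => x s ≠ 0) o
      ((Function.ne_iff.1 hx).imp fun s hs => Finset.mem_filter.2 ⟨Finset.mem_univ _, hs⟩)
    refine ⟨s, (Finset.mem_filter.1 hs).2, l / m, div_ne_zero hl hm, funext fun t => ?_⟩
    rw [Pi.smul_apply, smul_eq_mul, vx, vx]
    by_cases ht : x t = 0
    · rw [ht, mul_zero, mul_zero, mul_zero]
    rw [if_pos (hc t ht), if_neg (not_lt.2 (hmin t (Finset.mem_filter.2 ⟨Finset.mem_univ _, ht⟩))),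
      ← mul_assoc, div_mul_cancel₀ _ hm]

open Classical in
theorem FAA1_pts (o : σ → ℕ) (l : L) (hm : m ≠ 0) {s₀ : σ} (h0 : x s₀ ≠ 0) :
    ∃ A : Finset L, A.card ≤ (Finset.univ.filter fun s => x s ≠ 0).card ∧
      l / m ∈ Subfield.closure (A : Set L) ∧ (∀ s, x s / x s₀ ∈ Subfield.closure (A : Set L)) ∧
      ∀ j s, (m * x s₀)⁻¹ * vx o l m x j s ∈ Subfield.closure (A : Set L) := by
  let A : Finset L := insert (l / m)
    (((Finset.univ.filter fun s => x s ≠ 0).erase s₀).image fun s => x s / x s₀)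
  have h1 : l / m ∈ Subfield.closure (A : Set L) :=
    Subfield.subset_closure (Finset.mem_insert_self _ _)
  have h2 : ∀ s, x s / x s₀ ∈ Subfield.closure (A : Set L) := fun s => by
    by_cases hs : x s = 0
    · rw [hs, zero_div]
      exact zero_mem _
    by_cases hs' : s = s₀
    · rw [hs', div_self h0]
      exact one_mem _
    exact Subfield.subset_closure (Finset.mem_insert_of_mem (Finset.mem_image_of_mem _
      (Finset.mem_erase.2 ⟨hs', Finset.mem_filter.2 ⟨Finset.mem_univ _, hs⟩⟩)))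
  refine ⟨A, ?_, h1, h2, fun j s => ?_⟩
  · refine (Finset.card_insert_le _ _).trans ?_
    rw [← Finset.card_erase_add_one (s := Finset.univ.filter fun s => x s ≠ 0) (a := s₀)
      (Finset.mem_filter.2 ⟨Finset.mem_univ _, h0⟩)]
    exact Nat.add_le_add_right Finset.card_image_le 1
  · rw [vx]
    split_ifs
    · convert mul_mem h1 (h2 s) using 1
      field_simp
    · convert h2 s using 1
      field_simp

theorem FAA1_ind (ho : Function.Injective o) (hl : l ≠ m) (hm : m ≠ 0) {a : L} (ha : a ≠ 0) :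
    LinearIndependent L fun (s : {s // x s ≠ 0}) t => a * vx o l m x (o s) t :=
  (vlin ho hl hm x).units_smul fun _ => Units.mk0 a ha

open Classical in
theorem vrk (h : GF f e) (he : 3 ≤ e) (ho : Function.Injective o) (hl : l ≠ m) (hm : m ≠ 0)
    (hx : x ≠ 0) (J : Finset σ) (hJ : ∀ s ∈ J, x s ≠ 0 ∧ aeval (vx o l m x (o s)) f = 0) :
    (J.card : ℕ∞) + rk k (insert (l / m) {y | ∃ s t, y = x s / x t}) ≤
      (Finset.univ.filter fun s => x s ≠ 0).card := by
  obtain ⟨s₀, h0⟩ := Function.ne_iff.1 hx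
  obtain ⟨A, hA, h1, h2, h3⟩ := FAA1_pts o l hm h0
  have hv := (FAA1_ind (x := x) ho hl hm (inv_ne_zero (mul_ne_zero hm h0))).comp
    (fun s : J => (⟨s, (hJ s s.2).1⟩ : {s // x s ≠ 0}))
    fun s t hst => Subtype.ext (congrArg (fun z : {s // x s ≠ 0} => z.1) hst)
  have key := jets (J := Empty) h he A hv (ι := Empty.elim) (fun a => a.elim) (δ := Empty.elim)
    (fun a => a.elim) (fun i s => h3 _ s) (fun a => a.elim) (fun i => by
      have := UNB2_scale h.hom (m * x s₀)⁻¹ (vx o l m x (o i))
      rw [(hJ i i.2).2, mul_zero] at this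
      exact this) fun a => a.elim
  rw [Fintype.card_coe, Fintype.card_empty, add_zero] at key
  refine le_trans ?_ (key.trans (Nat.cast_le.2 hA))
  gcongr
  have hsub : ∀ y ∈ Subfield.closure (A : Set L), y ∈ IntermediateField.adjoin k (A : Set L) :=
    fun y hy => (Subfield.closure_le (t := (IntermediateField.adjoin k (A : Set L)).toSubfield)).2
      (IntermediateField.subset_adjoin _ _) hy
  refine rk_le_of_mem ?_
  rintro _ (rfl | ⟨s, t, rfl⟩)
  · exact hsub _ h1
  · rw [← div_div_div_cancel_right₀ h0]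
    exact hsub _ (div_mem (h2 s) (h2 t))

theorem notan (h : GF f e) (he : 3 ≤ e) (ho : Function.Injective o) (hl : l ≠ m) (hl0 : l ≠ 0)
    (hm : m ≠ 0) (hx : x ≠ 0) (hf : ∀ s, x s ≠ 0 → aeval (vx o l m x (o s)) f = 0) {t : σ}
    (ht : x t = 0) (i : ℕ) : aeval (vx o l m x i) (pderiv t f) ≠ 0 := by
  classical
  intro hz
  obtain ⟨s₀, h0, c, hc, hi⟩ := vx_eq o hl0 hm hx i
  obtain ⟨A, hA, -, -, h3⟩ := FAA1_pts o l hm h0
  have hz' : aeval (vx o l m x (o s₀)) (pderiv t f) = 0 := by
    have := UNB2_scale (h.hom.pderiv (i := t)) c (vx o l m x (o s₀))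
    rw [hi] at hz
    exact (mul_eq_zero.1 (this.symm.trans hz)).resolve_left (pow_ne_zero _ hc)
  have key := jets (J := Unit) h he A (FAA1_ind (x := x) ho hl hm (inv_ne_zero (mul_ne_zero hm h0)))
    (ι := fun _ => ⟨s₀, h0⟩) (fun _ _ _ => rfl) (δ := fun _ => Pi.single t 1)
    (fun _ d hd => by simpa [vx, ht] using congrFun hd t) (fun i s => h3 _ s)
    (fun _ s => by
      rw [Pi.single_apply]
      split_ifs
      exacts [one_mem _, zero_mem _])
    (fun i => by rw [UNB2_scale h.hom, hf i i.2, mul_zero]) fun _ => by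
      rw [Finset.sum_eq_single t (fun s _ hs => by rw [Pi.single_eq_of_ne hs, mul_zero])
        (by simp), UNB2_scale h.hom.pderiv, hz', mul_zero, zero_mul]
  have h4 := Nat.cast_le.1 ((le_trans le_self_add key).trans (Nat.cast_le.2 hA))
  rw [Fintype.card_subtype, Fintype.card_unit] at h4
  exact absurd h4 (by simp)

end Pool.Agent.Work.MP_10f4af_ag
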