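import Pool.Agent.Work.MP_10f4af_ag.FA.A1
import Pool.Agent.Work.MP_10f4af_ag.UN.B3

/-!
# Solutions of the equations of polygons

Plan.  `card_lt`, `card_gt`: `Finset.card_equiv`, `Fin.card_filter_lt..` or `Fin.card_Iio`,
`Fin.card_Ioi`.  `chain`: induction on `i`, `vx .. 0 = m • x`, `UNB2_scale`; for `i < n` use
`s = p ⟨i, _⟩`.
`pre`: if `l = m` then all the vertices are `m • x`, the derivatives `pderiv s f`, `od p s < i`,
vanish at `x`; `low'` with `S = {od < i}`, `U = {j < od}`; the two new elements are `1`.  If `m = 0`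
then `x s = 0` for `od p s < i`: otherwise for the first such `s` the vertex `od p s + 1` is a
nonzero multiple of a coordinate point, against `GF.off`; `low'` with `S = ∅`,
`U = {od < i} ∪ {j < od}`; the new elements are `0`.  Otherwise `vrk`: if `x s = 0` for all `s` with
`i ≤ od p s` take `J` the support of `x`, so that the rank is zero (cancel in `ℕ∞`); if not, add to
`{s | od p s < i, x s ≠ 0}` the first `s'` with `i ≤ od p s'`, `x s' ≠ 0`; the vertex `od p s'` is
the vertex `i`, and the support has at most `J.card - 1 + (j + 1 - i)` elements.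
`m / l = (l / m)⁻¹`, `rk_le_of_mem`.
`sol`: the cases `l = m` and `m = 0` as above give a contradiction (`low'`); if `l = 0` the vertex
`od p s` for the last `s` with `x s ≠ 0` contradicts `GF.off`.  For `i > j` the vertex is `l • x`.
If `x t = 0`, `od p t < j`, use `notan`.  If `j = 0`, `GF.off` for `x`.
-/

open MvPolynomial Set

namespace Pool.Agent.Work.MP_10f4af_ag

open MP_ffcd14_ag (rk rk_mono rk_le_of_alg rk_le_of_mem rk_union_le rk_le_encard)

universe u

/-- The position of a coordinate. -/
def od {σ : Type} {n : ℕ} (p : Fin n ≃ σ) (s : σ) : ℕ := p.symm s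

theorem od_inj {σ : Type} {n : ℕ} (p : Fin n ≃ σ) : Function.Injective (od p) := by
  exact fun _ _ h => p.symm.injective (Fin.ext h)

theorem od_apply {σ : Type} {n : ℕ} (p : Fin n ≃ σ) (i : Fin n) : od p (p i) = i := by
  rw [od, Equiv.symm_apply_apply]

theorem od_lt {σ : Type} {n : ℕ} (p : Fin n ≃ σ) (s : σ) : od p s < n := by
  exact (p.symm s).2

variable {k L : Type u} [Field k] [Field L] [Algebra k L] {σ : Type} [Fintype σ]

theorem card_lt {n : ℕ} (p : Fin n ≃ σ) {j : ℕ} (hj : j ≤ n) :
    (Finset.univ.filter fun s => od p s < j).card = j := by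
  have h1 : (Finset.univ.filter fun s => od p s < j).card = (Finset.range j).card := by
    refine Finset.card_bij (fun s _ => od p s) (fun s hs => ?_) (fun s _ t _ h => od_inj p h)
      fun i hi => ?_
    · exact Finset.mem_range.2 (Finset.mem_filter.1 hs).2
    · have h2 := Finset.mem_range.1 hi
      have h3 : od p (p ⟨i, h2.trans_le hj⟩) = i := od_apply p _
      exact ⟨p ⟨i, h2.trans_le hj⟩, Finset.mem_filter.2 ⟨Finset.mem_univ _, h3.symm ▸ h2⟩, h3⟩
  rw [h1, Finset.card_range]

theorem card_gt {n : ℕ} (p : Fin n ≃ σ) {j : ℕ} (hj : j < n) :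
    (Finset.univ.filter fun s => j < od p s).card + j + 1 = n := by
  have h1 := Finset.card_filter_add_card_filter_not (s := (Finset.univ : Finset σ))
    (fun s => od p s < j + 1)
  have h2 : (Finset.univ.filter fun s => ¬ od p s < j + 1) =
      Finset.univ.filter fun s => j < od p s :=
    Finset.filter_congr fun s _ => by omega
  rw [card_lt p (Nat.succ_le_of_lt hj), h2, Finset.card_univ, ← Fintype.card_congr p,
    Fintype.card_fin] at h1
  omega

/-- The divided difference of `f` along the edge in the direction `s` vanishes. -/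
def Gc (o : σ → ℕ) (f : MvPolynomial σ k) (l m : L) (x : σ → L) (s : σ) : Prop :=
  aeval (vx o l m x (o s + 1)) f = aeval (vx o l m x (o s)) f ∧
    ((l - m) * x s = 0 → aeval (vx o l m x (o s)) (pderiv s f) = 0)

variable {f : MvPolynomial σ k} {e n : ℕ} {p : Fin n ≃ σ} {l m : L} {x : σ → L}

theorem chain (h : GF f e) (hf : aeval x f = 0) {j : ℕ} (hj : j ≤ n)
    (hG : ∀ s, od p s < j → Gc (od p) f l m x s) {i : ℕ} (hi : i ≤ j) :
    aeval (vx (od p) l m x i) f = 0 := by
  induction i with
  | zero =>
    have h1 : vx (od p) l m x 0 = fun s => m * x s := funext fun s => by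
      rw [vx, if_neg (Nat.not_lt_zero _)]
    rw [h1, UNB2_scale h.hom, hf, mul_zero]
  | succ i ih =>
    have h1 : od p (p ⟨i, by omega⟩) = i := od_apply p _
    have h2 := (hG (p ⟨i, by omega⟩) (by omega)).1
    rw [h1] at h2
    rw [h2, ih (by omega)]

theorem FAA3_nat {r : ℕ∞} {a b : ℕ} (h : r + a ≤ b) : ∃ c : ℕ, r = c ∧ c + a ≤ b := by
  induction r using ENat.recTopCoe with
  | top => simp at h
  | coe c => exact ⟨c, rfl, by exact_mod_cast h⟩

theorem FAA3_off (h : GF f e) {y : σ → L} (hf : aeval y f = 0) {s : σ} (hs : y s ≠ 0)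
    (h0 : ∀ t ≠ s, y t = 0) : False := by
  obtain ⟨t, h1, h2⟩ := h.off (fun c => hs (congrFun c s)) hf s
  exact h2 (h0 t h1)

theorem FAA3_deg (h : GF f e) (he : 3 ≤ e) {i j : ℕ} (hij : i ≤ j) (hj : j < n) (hx : x ≠ 0)
    (hlm : l ≠ 0 ∨ m ≠ 0) (hz : ∀ s, j < od p s → x s = 0) (hf : aeval x f = 0)
    (hG : ∀ s, od p s < i → Gc (od p) f l m x s) (hd : l = m ∨ m = 0) :
    ∃ c : ℕ, rk k {y | ∃ s t, y = x s / x t} = c ∧ c + i + 1 ≤ j := by
  classical
  have c1 := card_lt p (j := i) (by omega)
  have c2 := card_gt p hj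
  have c3 : Fintype.card σ = n := by rw [← Fintype.card_congr p, Fintype.card_fin]
  by_cases hm : m = 0
  · have hl : l ≠ 0 := hlm.resolve_right (not_not.2 hm)
    have h1 : ∀ s, od p s < i → x s = 0 := by
      intro s
      induction hq : od p s using Nat.strong_induction_on generalizing s with
      | _ q ih =>
        intro hs
        by_contra c
        refine FAA3_off h (chain h hf (by omega) hG (i := q + 1) hs) (s := s) ?_ fun t ht => ?_
        · rw [vx, if_pos (by omega)]
          exact mul_ne_zero hl c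
        · rw [vx]
          split_ifs with a
          · have a1 : od p t ≠ q := fun b => ht (od_inj p (b.trans hq.symm))
            rw [ih (od p t) (by omega) t rfl (by omega), mul_zero]
          · rw [hm, zero_mul]
    have key := low' h (by omega) hx ∅
      ((Finset.univ.filter fun s => od p s < i) ∪ Finset.univ.filter fun s => j < od p s)
      (fun s hs => (Finset.mem_union.1 hs).elim (fun a => h1 s (Finset.mem_filter.1 a).2)
        fun a => hz s (Finset.mem_filter.1 a).2) hf (by simp)
    rw [Finset.card_union_of_disjoint (Finset.disjoint_filter.2 fun s _ a => by omega), c1,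
      Finset.card_empty, c3] at key
    obtain ⟨c, a1, a2⟩ := FAA3_nat key
    exact ⟨c, a1, by omega⟩
  · have hl : l = m := hd.resolve_right hm
    have key := low' h (by omega) hx (Finset.univ.filter fun s => od p s < i)
      (Finset.univ.filter fun s => j < od p s)
      (fun s hs => hz s (Finset.mem_filter.1 hs).2) hf fun s hs => by
        have h1 := (hG s (Finset.mem_filter.1 hs).2).2 (by rw [hl, sub_self, zero_mul])
        have h2 : vx (od p) l m x (od p s) = fun t => m * x t := funext fun t => by
          rw [vx, hl, ite_self]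
        rw [h2, UNB2_scale h.hom.pderiv] at h1
        exact (mul_eq_zero.1 h1).resolve_left (pow_ne_zero _ hm)
    rw [c1, c3] at key
    obtain ⟨c, a1, a2⟩ := FAA3_nat key
    exact ⟨c, a1, by omega⟩

theorem FAA3_gen (h : GF f e) (he : 3 ≤ e) {i j : ℕ} (hij : i ≤ j) (hj : j < n) (hx : x ≠ 0)
    (hl : l ≠ m) (hm : m ≠ 0) (hz : ∀ s, j < od p s → x s = 0) (hf : aeval x f = 0)
    (hG : ∀ s, od p s < i → Gc (od p) f l m x s) :
    rk k (insert (l / m) {y | ∃ s t, y = x s / x t}) + i ≤ j := by
  classical
  have hA : ∀ s ∈ Finset.univ.filter fun s => od p s < i ∧ x s ≠ 0,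
      x s ≠ 0 ∧ aeval (vx (od p) l m x (od p s)) f = 0 := fun s hs =>
    ⟨(Finset.mem_filter.1 hs).2.2, chain h hf (by omega) hG (Finset.mem_filter.1 hs).2.1.le⟩
  by_cases hc : ∀ s, i ≤ od p s → x s = 0
  · have key := vrk h he (od_inj p) hl hm hx _ hA
    have h1 : (Finset.univ.filter fun s => x s ≠ 0) =
        Finset.univ.filter fun s => od p s < i ∧ x s ≠ 0 :=
      Finset.filter_congr fun s _ => ⟨fun a => ⟨not_le.1 fun b => a (hc s b), a⟩, fun a => a.2⟩
    rw [h1, add_comm] at key
    obtain ⟨c, a1, a2⟩ := FAA3_nat key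
    rw [a1]
    exact_mod_cast (by omega : c + i ≤ j)
  · push Not at hc
    obtain ⟨s', hs', hmin⟩ := Finset.exists_min_image
      (Finset.univ.filter fun s => i ≤ od p s ∧ x s ≠ 0) (od p)
      (hc.imp fun s a => Finset.mem_filter.2 ⟨Finset.mem_univ _, a⟩)
    obtain ⟨b1, b2⟩ := (Finset.mem_filter.1 hs').2
    have h1 : vx (od p) l m x (od p s') = vx (od p) l m x i := funext fun t => by
      by_cases a : x t = 0
      · rw [vx, vx, a, mul_zero, mul_zero]
      · by_cases a' : od p t < i
        · rw [vx, vx, if_pos a', if_pos (by omega)]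
        · have := hmin t (Finset.mem_filter.2 ⟨Finset.mem_univ _, not_lt.1 a', a⟩)
          rw [vx, vx, if_neg a', if_neg (by omega)]
    have key := vrk h he (od_inj p) hl hm hx
      (insert s' (Finset.univ.filter fun s => od p s < i ∧ x s ≠ 0)) fun s hs => by
        rcases Finset.mem_insert.1 hs with rfl | a
        · exact ⟨b2, h1 ▸ chain h hf (by omega) hG le_rfl⟩
        · exact hA s a
    have h2 : (Finset.univ.filter fun s => x s ≠ 0) ⊆
        (Finset.univ.filter fun s => od p s < i ∧ x s ≠ 0) ∪
          ((Finset.univ.filter fun s => od p s < j + 1) \ Finset.univ.filter fun s => od p s < i) :=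
      fun s hs => by
        have a := (Finset.mem_filter.1 hs).2
        have a' : ¬ j < od p s := fun c => a (hz s c)
        simp only [Finset.mem_union, Finset.mem_sdiff, Finset.mem_filter, Finset.mem_univ,
          true_and]
        by_cases c : od p s < i
        · exact Or.inl ⟨c, a⟩
        · exact Or.inr ⟨by omega, c⟩
    have h3 := (Finset.card_le_card h2).trans (Finset.card_union_le _ _)
    rw [Finset.card_sdiff_of_subset (fun s hs => Finset.mem_filter.2 ⟨Finset.mem_univ _, by
      have := (Finset.mem_filter.1 hs).2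
      omega⟩), card_lt p (Nat.succ_le_of_lt hj), card_lt p (by omega)] at h3
    rw [Finset.card_insert_of_notMem (fun c => by
      have := (Finset.mem_filter.1 c).2.1
      omega), add_comm] at key
    obtain ⟨c, a1, a2⟩ := FAA3_nat key
    rw [a1]
    exact_mod_cast (by omega : c + i ≤ j)

theorem pre (h : GF f e) (he : 3 ≤ e) {i j : ℕ} (hij : i ≤ j) (hj : j < n) (hx : x ≠ 0)
    (hlm : l ≠ 0 ∨ m ≠ 0) (hz : ∀ s, j < od p s → x s = 0) (hf : aeval x f = 0)
    (hG : ∀ s, od p s < i → Gc (od p) f l m x s) :
    rk k ({y | ∃ s t, y = x s / x t} ∪ {l / m, m / l}) + i ≤ j := by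
  by_cases hd : l = m ∨ m = 0
  · obtain ⟨c, a1, a2⟩ := FAA3_deg h he hij hj hx hlm hz hf hG hd
    have h1 : rk k ({y | ∃ s t, y = x s / x t} ∪ {l / m, m / l}) ≤
        rk k {y | ∃ s t, y = x s / x t} := by
      refine rk_le_of_mem fun y hy => ?_
      have h2 : ∀ z : L, z / z ∈ IntermediateField.adjoin k {y | ∃ s t, y = x s / x t} :=
        fun z => by
          by_cases c : z = 0
          · rw [c, div_zero]
            exact zero_mem _
          · rw [div_self c]
            exact one_mem _
      rcases hy with a | rfl | rfl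
      · exact IntermediateField.subset_adjoin k _ a
      · rcases hd with rfl | rfl
        · exact h2 _
        · rw [div_zero]
          exact zero_mem _
      · rcases hd with rfl | rfl
        · exact h2 _
        · rw [zero_div]
          exact zero_mem _
    refine (add_le_add h1 le_rfl).trans ?_
    rw [a1]
    exact_mod_cast (by omega : c + i ≤ j)
  · push Not at hd
    refine le_trans (add_le_add (rk_le_of_mem fun y hy => ?_) le_rfl)
      (FAA3_gen h he hij hj hx hd.1 hd.2 hz hf hG)
    have h2 : l / m ∈ IntermediateField.adjoin k (insert (l / m) {y | ∃ s t, y = x s / x t}) :=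
      IntermediateField.subset_adjoin k _ (mem_insert _ _)
    rcases hy with a | rfl | rfl
    · exact IntermediateField.subset_adjoin k _ (mem_insert_of_mem _ a)
    · exact h2
    · exact inv_div l m ▸ inv_mem h2

theorem sol (h : GF f e) (he : 3 ≤ e) {j : ℕ} (hj : j < n) (hx : x ≠ 0)
    (hlm : l ≠ 0 ∨ m ≠ 0) (hz : ∀ s, j < od p s → x s = 0) (hf : aeval x f = 0)
    (hG : ∀ s, od p s < j → Gc (od p) f l m x s) :
    l ≠ m ∧ l ≠ 0 ∧ m ≠ 0 ∧ 0 < j ∧ (∀ s, od p s < j → x s ≠ 0) ∧
      ∀ i, aeval (vx (od p) l m x i) f = 0 := by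
  classical
  have hd : ¬ (l = m ∨ m = 0) := fun c => by
    obtain ⟨c, -, a2⟩ := FAA3_deg h he le_rfl hj hx hlm hz hf hG c
    omega
  push Not at hd
  have hl : l ≠ 0 := fun c => by
    obtain ⟨s, hs, hmax⟩ := Finset.exists_max_image (Finset.univ.filter fun s => x s ≠ 0) (od p)
      ((Function.ne_iff.1 hx).imp fun s a => Finset.mem_filter.2 ⟨Finset.mem_univ _, a⟩)
    have b := (Finset.mem_filter.1 hs).2
    refine FAA3_off h (chain h hf hj.le hG (i := od p s) (not_lt.1 fun a => b (hz s a)))
      (s := s) ?_ fun t ht => ?_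
    · rw [vx, if_neg (lt_irrefl _)]
      exact mul_ne_zero hd.2 b
    · rw [vx]
      split_ifs with a
      · rw [c, zero_mul]
      · have a1 : od p t ≠ od p s := fun b => ht (od_inj p b)
        have a2 : x t = 0 := by
          by_contra a3
          have := hmax t (Finset.mem_filter.2 ⟨Finset.mem_univ _, a3⟩)
          omega
        rw [a2, mul_zero]
  have hv : ∀ i, aeval (vx (od p) l m x i) f = 0 := fun i => by
    by_cases c : i ≤ j
    · exact chain h hf hj.le hG c
    · have h1 : vx (od p) l m x i = fun s => l * x s := funext fun s => by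
        rw [vx]
        split_ifs with a
        · rfl
        · rw [hz s (by omega), mul_zero, mul_zero]
      rw [h1, UNB2_scale h.hom, hf, mul_zero]
  refine ⟨hd.1, hl, hd.2, Nat.pos_of_ne_zero fun c => ?_, fun t ht c => ?_, hv⟩
  · obtain ⟨s, h1, h2⟩ := h.off hx hf (p ⟨0, by omega⟩)
    have h3 : od p (p ⟨0, by omega⟩) = 0 := od_apply p _
    have h4 : od p s ≠ 0 := fun a => h1 (od_inj p (a.trans h3.symm))
    exact h2 (hz s (by omega))
  · exact notan h he (od_inj p) hd.1 hl hd.2 hx (fun s _ => hv _) c _
      ((hG t ht).2 (by rw [c, mul_zero]))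

end Pool.Agent.Work.MP_10f4af_ag
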