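import Pool.Agent.Work.MP_10f4af_ag.UN.C2
import Pool.Agent.Work.MP_10f4af_ag.FA.A3
import Pool.Agent.Work.MP_10f4af_ag.FA.A1
import Pool.Agent.Work.MP_10f4af_ag.UN.B3

-- merged part: Pool.Agent.Work.MP_10f4af_ag.FA.B1
section
/-!
# Transversal intersections are counted by the degree

Plan.  `PL_append`: `List.take_append`.  `taylorM`: copy the proof of `taylor` (`UN/B2`) with the
substitution `s ↦ X ⟨s.1, ς s.1⟩ * C (w s)`; `IsForm.aeval_scale` (or `eval_scale`, or
induction on the monomials) shows that the image of `F` is `C (eval w F) * B` with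
`B = a.prod fun i n => X ⟨i, ς i⟩ ^ n`, whose derivatives in the other variables vanish.
`loc_of`: copy the proof of `HS.loc` (`UN/E1`): `G5_lin` with `φ = aeval w`, rows
`{i // i ∈ l}` or `Fin l.length`, columns `{s // s ≠ ⟨s.1, ς s.1⟩}`,
`u s = X s - C (w s) * X ⟨s.1, ς s.1⟩` (it is zero for the other `s`).
`count_eq`: copy the proof of `HS.bez`: `dvc_list` with `u = 1`, `dgr_eq`, `cut_mem`, `F1_pts`; a
point is in the support iff all the forms vanish (`cut_pos`, `sdim_pt`), and the coefficient is `1`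
by `cut_nat`, `cut_pos`, `cut_le_one`.
-/

open MvPolynomial Finsupp Function.Embedding
open Function hiding eval

namespace Pool.Agent.Work.MP_10f4af_ag

open MP_ffcd14_ag hiding len vl cyc pl Weil idl_hmg mem_idl idl_prime idl_le_iff lin

universe u

variable {k : Type u} [Field k] {P : Amb}

theorem PL_append {l₁ l₂ : List (MvPolynomial P.V k)} {V : Sub k P} (h₁ : PL l₁ V)
    (h₂ : ∀ j < l₂.length, ∀ T ≤ V, (∀ g ∈ l₁, Van (T : Set (P.Pt k)) g) →
      (∀ g ∈ l₂.take (j + 1), Van (T : Set (P.Pt k)) g) →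
      sdim T + (l₁.length + j + 1) ≤ sdim V) : PL (l₁ ++ l₂) V := by
  intro j hj T hT hv
  rw [List.take_append] at hv
  rw [List.length_append] at hj
  obtain h | h := le_or_gt j l₁.length
  · exact h₁ j h T hT fun g hg => hv g (List.mem_append_left _ hg)
  · obtain ⟨i, rfl⟩ := Nat.exists_eq_add_of_lt h
    rw [List.take_of_length_le h.le, add_assoc, Nat.add_sub_cancel_left] at hv
    exact h₂ i (by omega) T hT (fun g hg => hv g (List.mem_append_left _ hg))
      fun g hg => hv g (List.mem_append_right _ hg)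

theorem taylorM [Fintype P.V] {F : MvPolynomial P.V k} {a : P.ι →₀ ℕ} (hF : IsForm F a)
    {ς : ∀ i, P.σ i} {w : P.V → k} (hw : ∀ i, w ⟨i, ς i⟩ = 1) :
    ∃ (A : P.V → MvPolynomial P.V k) (B : MvPolynomial P.V k),
      F = C (eval w F) * B + ∑ s, A s * (X s - C (w s) * X ⟨s.1, ς s.1⟩) ∧
        ∀ s : P.V, s ≠ ⟨s.1, ς s.1⟩ → eval w (A s) = eval w (pderiv s F) := by
  classical
  have h1 : ∀ G : MvPolynomial P.V k, G - aeval (fun s => X ⟨s.1, ς s.1⟩ * C (w s)) G ∈
      Ideal.span (Set.range fun s => (X s - C (w s) * X ⟨s.1, ς s.1⟩ : MvPolynomial P.V k)) := by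
    intro G
    induction G using MvPolynomial.induction_on with
    | C a => simp
    | add p q hp hq =>
      rw [map_add, add_sub_add_comm]
      exact add_mem hp hq
    | mul_X p s hp =>
      rw [map_mul, aeval_X, show ∀ p q x y c : MvPolynomial P.V k,
        p * x - q * (y * c) = (p - q) * (y * c) + p * (x - c * y) from fun _ _ _ _ _ => by ring]
      exact add_mem (Ideal.mul_mem_right _ _ hp)
        (Ideal.mul_mem_left _ _ (Ideal.subset_span (Set.mem_range_self s)))
  have h2 : aeval (fun s => (C (w s) : MvPolynomial P.V k)) F = C (eval w F) :=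
    (comp_aeval_apply w (Algebra.ofId k (MvPolynomial P.V k)) F).symm
  obtain ⟨A, hA⟩ := Ideal.mem_span_range_iff_exists_fun.1 (h1 F)
  rw [hF.aeval_scale (fun i => (X ⟨i, ς i⟩ : MvPolynomial P.V k)), h2] at hA
  have h3 := (add_sub_cancel _ F).symm.trans (congrArg₂ (· + ·) (mul_comm _ _) hA.symm)
  refine ⟨A, _, h3, fun s hs => ?_⟩
  have h4 : ∀ i, pderiv s (X ⟨i, ς i⟩ : MvPolynomial P.V k) = 0 := fun i =>
    pderiv_X_of_ne fun e => hs (e ▸ rfl)
  have h5 : pderiv s (a.prod fun i n => (X ⟨i, ς i⟩ : MvPolynomial P.V k) ^ n) = 0 :=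
    Finset.prod_induction _ (fun x => pderiv s x = 0)
      (fun x y hx hy => by rw [pderiv_mul, hx, hy, zero_mul, mul_zero, add_zero]) pderiv_one
      fun i _ => by rw [pderiv_pow, h4, mul_zero]
  conv_rhs => rw [h3]
  simp only [map_add, map_sum, pderiv_mul, map_sub, pderiv_C, h4, h5, map_mul, eval_X, eval_C, hw,
    mul_one, sub_self, mul_zero, zero_mul, zero_add, add_zero, sub_zero]
  simp [Pi.single_apply, apply_ite]

variable {ι : Type} (l : List ι) {g : ι → MvPolynomial P.V k} {a : ι → P.ι →₀ ℕ}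
  (hg : ∀ i ∈ l, IsForm (g i) (a i))
include hg

theorem loc_of [Fintype P.V] {x : P.Pt k} {ς : ∀ i, P.σ i} {w : P.V → k}
    (hw : ∀ i, w ⟨i, ς i⟩ = 1) {μ : P.ι → k} (hμ : ∀ s, w s = μ s.1 * rp x s)
    (h0 : ∀ i ∈ l, ev x (g i) = 0)
    (hk : ∀ ξ : P.V → k, (∀ i, ξ ⟨i, ς i⟩ = 0) →
      (∀ i ∈ l, ∑ s, eval w (pderiv s (g i)) * ξ s = 0) → ξ = 0)
    {F : MvPolynomial P.V k} {b : P.ι →₀ ℕ} (hF : IsForm F b) (hx : ev x F = 0) :
    ∃ s ∉ idl (({x} : Sub k P) : Set (P.Pt k)), s * F ∈ Ideal.ofList (l.map g) := by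
  classical
  let _ := Fintype.ofFinite P.ι
  have key : ∀ {g a}, IsForm g a → ev x g = 0 → eval w g = 0 := fun hg hv => by
    rw [funext hμ, hg.eval_scale μ, ← ev_eq, hv, mul_zero]
  choose A B hA1 hA2 using fun i : {i // i ∈ l} => taylorM (hg i i.2) hw
  obtain ⟨d, hd, hdu⟩ := G5_lin (aeval w) (Ideal.ofList (l.map g))
    (Matrix.of (Sum.elim A fun i : P.ι => Pi.single ⟨i, ς i⟩ 1))
    (fun s => X s - C (w s) * X ⟨s.1, ς s.1⟩) (by
      rintro (i | i)
      · have := hA1 i
        rw [key (hg i i.2) (h0 i i.2), C_0, zero_mul, zero_add] at this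
        have h1 : g i ∈ Ideal.ofList (l.map g) := Ideal.subset_span (List.mem_map_of_mem i.2)
        exact (this ▸ h1 :)
      · simp [Matrix.mulVec, hw]) fun t ht => by
      have h1 : ∀ i, t ⟨i, ς i⟩ = 0 := fun i => by
        simpa [Matrix.mulVec, dotProduct, Pi.single_apply, apply_ite] using congrFun ht (.inr i)
      refine hk t h1 fun i hi => Eq.trans (Finset.sum_congr rfl fun s _ => ?_)
        (congrFun ht (.inl ⟨i, hi⟩))
      by_cases e : s = ⟨s.1, ς s.1⟩
      · rw [show t s = 0 from e ▸ h1 s.1, mul_zero, mul_zero]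
      · rw [← hA2 ⟨i, hi⟩ s e]
        rfl
  refine ⟨d, fun hm => hd ?_, ?_⟩
  · exact (Ideal.span_le (I := RingHom.ker (eval w))).2
      (fun g hg => hg.1.elim fun a ha => key ha (hg.2 x rfl)) hm
  · obtain ⟨A', B', hB, -⟩ := taylorM hF hw
    rw [hB, key hF hx, C_0, zero_mul, zero_add, Finset.mul_sum]
    refine Ideal.sum_mem _ fun s _ => ?_
    rw [mul_left_comm]
    exact Ideal.mul_mem_left _ _ (hdu s)

theorem count_eq [IsAlgClosed k] {Z : SV k P} (hl : l.length = Z.dim) (hp : PL (l.map g) Z.tp)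
    (h : ∀ x ∈ Z.pts, (∀ i ∈ l, ev x (g i) = 0) → ∀ F b, IsForm F b → ev x F = 0 →
      ∃ s ∉ idl (({x} : Sub k P) : Set (P.Pt k)), s * F ∈ Ideal.ofList (l.map g)) :
    ∃ s : Finset (P.Pt k), (∀ x, x ∈ s ↔ x ∈ Z.pts ∧ ∀ i ∈ l, ev x (g i) = 0) ∧
      (s.card : ℚ) = (Mod.one Z).dgr (l.map fun i => dvc Z (a i)).prod := by
  have hF : Fm (l.map g) := List.forall_mem_map.2 fun i hi => ⟨_, hg i hi⟩
  have h1 := dvc_list (Z := Z) l hg (V := Z.tp) subset_rfl hp (u := 1) rfl
  rw [mul_one] at h1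
  have hm : cut (l.map g) (cS Z.tp) ∈ Sp fun T => T ≤ Z.tp ∧ sdim T = 0 ∧
      ∀ f ∈ l.map g, Van (T : Set (P.Pt k)) f := by
    refine Sp_mono (fun T hT => ⟨hT.1, ?_, hT.2.2⟩) (cut_mem hF Z.tp)
    have := hT.2.1
    rw [List.length_map, hl, Z.sdim_tp] at this
    omega
  have h3 := dgr_eq (Mod.one Z) (Sp_mono (fun T hT => ⟨hT.1, hT.2.1⟩) hm) h1
  obtain ⟨s, hs1, hs2⟩ := F1_pts (Sp_mono (fun T hT => hT.2.1) hm)
  have h4 : ∀ x, x ∈ s ↔ x ∈ Z.pts ∧ ∀ i ∈ l, ev x (g i) = 0 := fun x => by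
    refine (hs1 x).trans ⟨fun hx => ?_, fun hx => (cut_pos (T := {x}) hF hp
      (fun y hy => (show y = x from hy) ▸ hx.1) (List.forall_mem_map.2 fun i hi y hy =>
        (show y = x from hy) ▸ hx.2 i hi) ?_).ne'⟩
    · have := Sp_of hm hx
      exact ⟨this.1 (show x ∈ ({x} : Sub k P) from rfl), fun i hi =>
        this.2.2 _ (List.mem_map_of_mem hi) x rfl⟩
    · rw [sdim_pt, zero_add, List.length_map, hl, Z.sdim_tp]
  refine ⟨s, h4, Eq.trans ?_ h3.symm⟩
  refine Eq.trans ?_ (congrArg (smc (P := P)) hs2).symm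
  rw [map_sum, Finset.card_eq_sum_ones, Nat.cast_sum]
  refine Finset.sum_congr rfl fun x hx => ?_
  have h5 := Sp_of hm ((hs1 x).1 hx)
  have h7 : smc (cS ({x} : Sub k P)) = 1 :=
    (Finsupp.linearCombination_single _ _ _).trans (one_smul _ _)
  have h8 := cut_le_one hF h5.1 h5.2.2 fun f b hf hv =>
    (h x ((h4 x).1 hx).1 ((h4 x).1 hx).2 f b hf (hv x rfl)).imp fun s hs =>
      ⟨hs.1, Ideal.mem_sup_right hs.2⟩
  have h9 := (hs1 x).1 hx
  obtain ⟨n, hn⟩ := cut_nat (l.map g) Z.tp (idl (({x} : Sub k P) : Set (P.Pt k)))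
  rw [map_smul, h7, smul_eq_mul, mul_one, hn]
  rw [hn] at h8 h9
  norm_cast at h8 h9 ⊢
  omega

end Pool.Agent.Work.MP_10f4af_ag
end

-- merged part: Pool.Agent.Work.MP_10f4af_ag.FA.A2
section
-- merged part: Pool.Agent.Work.MP_10f4af_ag.FA.B2
section
/-!
# Divided differences

Plan.  `exists_dd`: copy the proof of `exists_G` (`UN/C2`): `tay2` for `v = VV .. (o s)`,
`w = ww ..`; `VV .. (o s + 1) = v + Pi.single s w` since `o` is injective; all the coordinates are
forms of degree `d = single (inl default) 1 + single (inr default) 1`; `IsForm.aeval`, `cpt_self`,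
`cpt_mul`, `smul_add`, `smul_single`.
`aeval_VV`: `aeval_X`, `apply_ite`, `comp_aeval_apply` (`aeval_algHom_apply`, `aeval_bind₁`).
`dd_iff`: apply `aeval w` to the two identities.
`der_aeval`: the chain rule, by induction on `F` (`pderiv_mul`, `Finset.sum_add_distrib`).
`der_VV`: `der_aeval`, `pderiv_mul`, `pderiv_X`, `Pi.single_apply`, `Finset.sum_ite_eq`.
`dd_der`: apply `F ↦ ∑ u, eval w (pderiv u F) * ξ u` to the first identity; product rule.
`der_f`: `rename vl F = aeval (X ∘ vl) F`, `der_aeval`.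
-/

open MvPolynomial Finsupp Function.Embedding
open Function hiding eval

namespace Pool.Agent.Work.MP_10f4af_ag

open MP_ffcd14_ag hiding len vl cyc pl Weil idl_hmg mem_idl idl_prime idl_le_iff lin

universe u

variable {k : Type u} [Field k] {P : Amb}

theorem FAB2_add {τ : Type} [Fintype τ] (F G : MvPolynomial τ k) (w ξ : τ → k) :
    ∑ u, eval w (pderiv u (F + G)) * ξ u =
      ∑ u, eval w (pderiv u F) * ξ u + ∑ u, eval w (pderiv u G) * ξ u := by
  simp only [map_add, add_mul, Finset.sum_add_distrib]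

theorem FAB2_mul {τ : Type} [Fintype τ] (F G : MvPolynomial τ k) (w ξ : τ → k) :
    ∑ u, eval w (pderiv u (F * G)) * ξ u = (∑ u, eval w (pderiv u F) * ξ u) * eval w G +
      eval w F * ∑ u, eval w (pderiv u G) * ξ u := by
  rw [Finset.sum_mul, Finset.mul_sum, ← Finset.sum_add_distrib]
  refine Finset.sum_congr rfl fun u _ => ?_
  simp only [pderiv_mul, map_add, map_mul]
  ring

theorem FAB2_X {τ : Type} [Fintype τ] (s : τ) (w ξ : τ → k) :
    ∑ u, eval w (pderiv u (X s : MvPolynomial τ k)) * ξ u = ξ s := by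
  rw [Finset.sum_eq_single s (fun u _ hu => by rw [pderiv_X_of_ne hu.symm, map_zero, zero_mul])
    (fun h => absurd (Finset.mem_univ s) h), pderiv_X_self, map_one, one_mul]

theorem FAB2_eval {σ τ : Type} (v : σ → MvPolynomial τ k) (F : MvPolynomial σ k) (w : τ → k) :
    eval w (aeval v F) = eval (fun s => eval w (v s)) F := by
  induction F using MvPolynomial.induction_on with
  | C a => simp
  | add p q hp hq => simp only [map_add, hp, hq]
  | mul_X p s h => simp only [map_mul, h, aeval_X, eval_X]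

theorem der_aeval {σ τ : Type} [Fintype σ] [Fintype τ] (v : σ → MvPolynomial τ k)
    (F : MvPolynomial σ k) (w ξ : τ → k) : ∑ u, eval w (pderiv u (aeval v F)) * ξ u =
      ∑ t, aeval (fun s => eval w (v s)) (pderiv t F) * ∑ u, eval w (pderiv u (v t)) * ξ u := by
  simp only [aeval_eq_eval]
  induction F using MvPolynomial.induction_on with
  | C a => simp
  | add p q hp hq => rw [map_add, FAB2_add, FAB2_add, hp, hq]
  | mul_X p s h => rw [map_mul, FAB2_mul, FAB2_mul, h, FAB2_X, aeval_X, eval_X, FAB2_eval]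

variable (k) in
/-- The universal vertices. -/
noncomputable def VV (o : P.V → ℕ) (t₀ t₁ : P.V) (j : ℕ) : P.V → MvPolynomial (P.sum P).V k :=
  vx o (X (vr t₀)) (X (vr t₁)) (fun s => X (vl s)) j

variable (k) in
/-- The universal edge. -/
noncomputable def ww (t₀ t₁ s : P.V) : MvPolynomial (P.sum P).V k :=
  (X (vr t₀) - X (vr t₁)) * X (vl s)

variable {o : P.V → ℕ} {t₀ t₁ : P.V} {f : MvPolynomial P.V k} {e : ℕ}

theorem aeval_VV {L : Type u} [Field L] [Algebra k L] (w : (P.sum P).V → L) (j : ℕ)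
    (F : MvPolynomial P.V k) : aeval w (aeval (VV k o t₀ t₁ j) F) =
      aeval (vx o (w (vr t₀)) (w (vr t₁)) (fun s => w (vl s)) j) F := by
  rw [comp_aeval_apply]
  congr 2
  funext s
  simp only [VV, vx, map_mul, aeval_X, apply_ite (aeval w)]

theorem der_VV [Fintype P.V] [Fintype (P.sum P).V] (w ξ : (P.sum P).V → k) (hξ : ξ (vr t₁) = 0)
    (j : ℕ) (F : MvPolynomial P.V k) :
    ∑ u, eval w (pderiv u (aeval (VV k o t₀ t₁ j) F)) * ξ u =
      ∑ t, aeval (vx o (w (vr t₀)) (w (vr t₁)) (fun s => w (vl s)) j) (pderiv t F) *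
        (vx o (w (vr t₀)) (w (vr t₁)) (fun s => ξ (vl s)) j t +
          vx o (ξ (vr t₀)) 0 (fun s => w (vl s)) j t) := by
  rw [der_aeval]
  refine Finset.sum_congr rfl fun t _ => ?_
  congr 1
  · congr 2
    funext s
    simp only [VV, vx, map_mul, eval_X, apply_ite (eval w)]
  · simp only [VV, vx]
    split_ifs
    · rw [FAB2_mul, FAB2_X, FAB2_X, eval_X, eval_X, add_comm]
    · rw [FAB2_mul, FAB2_X, FAB2_X, eval_X, eval_X, add_comm, hξ]

theorem der_f [Fintype P.V] [Fintype (P.sum P).V] (w ξ : (P.sum P).V → k)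
    (F : MvPolynomial P.V k) : ∑ u, eval w (pderiv u (rename vl F)) * ξ u =
      ∑ t, aeval (fun s => w (vl s)) (pderiv t F) * ξ (vl t) := by
  rw [rename_eq_aeval, der_aeval]
  simp only [comp_apply, eval_X, FAB2_X]

/-- `G` is the divided difference of `f` in the direction `s`. -/
def IsDD (o : P.V → ℕ) (t₀ t₁ : P.V) (f : MvPolynomial P.V k) (s : P.V)
    (G : MvPolynomial (P.sum P).V k) : Prop :=
  aeval (VV k o t₀ t₁ (o s + 1)) f = aeval (VV k o t₀ t₁ (o s)) f + ww k t₀ t₁ s * G ∧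
    ∃ R, G = aeval (VV k o t₀ t₁ (o s)) (pderiv s f) + ww k t₀ t₁ s * R

theorem exists_dd [Unique P.ι] (ho : Injective o) (ht : t₀ ≠ t₁)
    (hf : IsForm f (single default e)) (he : 1 ≤ e) (s : P.V) : ∃ G, IsDD o t₀ t₁ f s G ∧
      IsForm G (single (Sum.inl default) (e - 1) + single (Sum.inr default) (e - 1)) := by
  classical
  let d : (P.sum P).ι →₀ ℕ := single (Sum.inl default) 1 + single (Sum.inr default) 1
  obtain ⟨R, hR⟩ := tay2 f (VV k o t₀ t₁ (o s)) s (ww k t₀ t₁ s)
  have hx : ∀ t u : P.V, IsForm (X (vr t) * X (vl u) : MvPolynomial (P.sum P).V k) d := fun t u => by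
    have := (IsForm.X (k := k) (vr (P := P) t)).mul (IsForm.X (vl u))
    rwa [add_comm, show (vl (Q := P) u).1 = Sum.inl default from
      congrArg Sum.inl (Unique.eq_default u.1), show (vr (P := P) t).1 = Sum.inr default from
      congrArg Sum.inr (Unique.eq_default t.1)] at this
  have hv : ∀ j u, IsForm (VV k o t₀ t₁ j u) d := fun j u => by
    simp only [VV, vx]
    split_ifs
    exacts [hx t₀ u, hx t₁ u]
  have hwf : IsForm (ww k t₀ t₁ s) d := by
    rw [ww, sub_mul]
    exact (weightedHomogeneousSubmodule k _ _).sub_mem (hx t₀ s) (hx t₁ s)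
  have hw : ww k t₀ t₁ s ≠ 0 := by
    refine mul_ne_zero (sub_ne_zero.2 fun h => ht ?_) (X_ne_zero _)
    have h1 := X_injective h
    obtain ⟨i, a⟩ := t₀
    obtain ⟨j, b⟩ := t₁
    simp only [vr] at h1
    cases h1
    rfl
  have hV : VV k o t₀ t₁ (o s + 1) = VV k o t₀ t₁ (o s) + Pi.single s (ww k t₀ t₁ s) := by
    funext u
    by_cases h : u = s
    · subst h
      simp only [VV, vx, ww, Pi.add_apply, Pi.single_eq_same, Nat.lt_succ_self, if_true,
        lt_irrefl, if_false]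
      ring
    · have h1 : o u < o s + 1 ↔ o u < o s := by
        have := ho.ne h
        omega
      simp only [VV, vx, Pi.add_apply, Pi.single_eq_of_ne h, add_zero, h1]
  have hd : ∀ j, IsForm (aeval (VV k o t₀ t₁ j) f) ((e - 1) • d + d) := fun j => by
    have := IsForm.aeval (b := fun _ => d) (hv j) hf
    rwa [sum_single_index (h := fun _ n => n • d) (zero_smul _ _),
      ← Nat.sub_add_cancel he, succ_nsmul] at this
  rw [← hV] at hR
  have h1 : (aeval (VV k o t₀ t₁ (o s)) (pderiv s f) + ww k t₀ t₁ s * R) * ww k t₀ t₁ s =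
      aeval (VV k o t₀ t₁ (o s + 1)) f - aeval (VV k o t₀ t₁ (o s)) f := by
    rw [hR]
    ring
  have h2 : IsForm ((aeval (VV k o t₀ t₁ (o s)) (pderiv s f) + ww k t₀ t₁ s * R) * ww k t₀ t₁ s)
      ((e - 1) • d + d) :=
    h1 ▸ (weightedHomogeneousSubmodule k _ _).sub_mem (hd _) (hd _)
  have h3 := cpt_self h2
  rw [cpt_mul hwf] at h3
  have h4 : (e - 1) • d =
      single (Sum.inl default) (e - 1) + single (Sum.inr default) (e - 1) := by
    have : ∀ i j : (P.sum P).ι, (e - 1) • (single i 1 + single j 1 : (P.sum P).ι →₀ ℕ) =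
        single i (e - 1) + single j (e - 1) := fun i j => by
      rw [smul_add, smul_single, smul_single, smul_eq_mul, mul_one]
    exact this _ _
  refine ⟨_, ⟨?_, R, rfl⟩, ?_⟩
  · rw [hR]
    ring
  · rw [← h4]
    exact mul_right_cancel₀ hw h3 ▸ cpt_form _ _

variable [Fintype P.V] {s : P.V} {G : MvPolynomial (P.sum P).V k} (h : IsDD o t₀ t₁ f s G)
include h

theorem IsDD.iff {L : Type u} [Field L] [Algebra k L] (w : (P.sum P).V → L) :
    aeval w G = 0 ↔ Gc o f (w (vr t₀)) (w (vr t₁)) (fun s => w (vl s)) s := by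
  obtain ⟨h1, R, h2⟩ := h
  have hw : aeval w (ww k t₀ t₁ s) = (w (vr t₀) - w (vr t₁)) * w (vl s) := by
    simp only [ww, map_mul, map_sub, aeval_X]
  have e1 := congrArg (aeval w) h1
  have e2 := congrArg (aeval w) h2
  rw [map_add, map_mul, aeval_VV, aeval_VV, hw] at e1
  rw [map_add, map_mul, aeval_VV, hw] at e2
  unfold Gc
  constructor
  · intro h0
    refine ⟨by rw [e1, h0, mul_zero, add_zero], fun hz => ?_⟩
    rw [h0, hz, zero_mul, add_zero] at e2
    exact e2.symm
  · rintro ⟨a, b⟩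
    by_cases hz : (w (vr t₀) - w (vr t₁)) * w (vl s) = 0
    · rw [e2, b hz, hz, zero_mul, add_zero]
    · rw [a, left_eq_add] at e1
      exact (mul_eq_zero.1 e1).resolve_left hz

theorem IsDD.der [Fintype (P.sum P).V] {w ξ : (P.sum P).V → k} (h0 : eval w G = 0)
    (h1 : ∑ u, eval w (pderiv u G) * ξ u = 0) :
    ∑ u, eval w (pderiv u (aeval (VV k o t₀ t₁ (o s + 1)) f)) * ξ u =
      ∑ u, eval w (pderiv u (aeval (VV k o t₀ t₁ (o s)) f)) * ξ u := by
  rw [h.1, FAB2_add, FAB2_mul, h0, h1, mul_zero, mul_zero, add_zero, add_zero]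

end Pool.Agent.Work.MP_10f4af_ag
end

-- merged part: Pool.Agent.Work.MP_10f4af_ag.FA.C1
section
/-!
# The equations of polygons

Plan.  `mem_UU`: `Finset.mem_filter`.  `card_UU`: the set is the disjoint union of the images of
two filters under the injective maps `vl`, `vr` (`card_gt`, `Finset.card_erase_of_mem`);
`Fintype.card P.V = n` by `p`.  `mem_LL`: `List.mem_take`.., `List.mem_take_iff_getElem`,
`od_apply`.  `LL_form`: `IsForm.X`, `Crd.form`, `mapDomain_single` (see `UNC3_fl`).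
`lev_iff`: `mem_UU`, `mem_LL`, `IsDD.iff` with `w = rp z` (`rp (fst z) s = rp z (vl s)` is `rfl`,
`ev_eq`, `aeval_eq_eval`), `UNC2_rl`.
`lev_len`: `card_UU`, `univ_dim`, `prod_dim`.
`lev_dgr`: `List.map_append`, `List.prod_append`, `Finset.prod_map_toList`; the product over `UU` is
`hx Y ^ (n - j - 1) * hy Y ^ (n - 2)` (`Finset.prod_union`/`prod_image`, `Unique.eq_default`), the
other factors are `e • hx Y` and `(e - 1) • (hx Y + hy Y)` (`dvc_add`, `dvc_single`).  `add_pow`;
`dgr (hx Y ^ a * hy Y ^ b) = dgr (hh Y ^ a) * dgr (hh Y ^ b)` (`dgr_xx` for `Mod.one Y`,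
`pull_hx`, `pull_hy`, `map_pow`), which is zero unless `a = b = Y.dim = n - 1` (`dgr_gr`, `pow_gr`,
`dvc_gr`); `Finset.sum_eq_single`, `Nat.choose_one_right`; treat `j = 0` separately.
-/

open MvPolynomial Finsupp Function.Embedding
open Function hiding eval

namespace Pool.Agent.Work.MP_10f4af_ag

open MP_ffcd14_ag hiding len vl cyc pl Weil idl_hmg mem_idl idl_prime idl_le_iff lin

universe u

variable {k : Type u} [Field k] {P : Amb} {n : ℕ} (p : Fin n ≃ P.V) (t₀ t₁ : P.V)

open Classical in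
/-- The coordinates which vanish. -/
noncomputable def UU [Fintype (P.sum P).V] (j : ℕ) : Finset (P.sum P).V :=
  Finset.univ.filter fun u => (∃ s, u = vl s ∧ j < od p s) ∨ ∃ s, u = vr s ∧ s ≠ t₀ ∧ s ≠ t₁

/-- The indices of the first divided differences. -/
def LG' (j : ℕ) : List P.V := ((List.finRange n).take j).map p

/-- The indices of the equations. -/
noncomputable def LL [Fintype (P.sum P).V] (j : ℕ) : List ((P.sum P).V ⊕ Option P.V) :=
  (UU p t₀ t₁ j).toList.map Sum.inl ++ (none :: (LG' p j).map some).map Sum.inr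

/-- The equations. -/
noncomputable def gg (f : MvPolynomial P.V k) (G : P.V → MvPolynomial (P.sum P).V k) :
    (P.sum P).V ⊕ Option P.V → MvPolynomial (P.sum P).V k :=
  Sum.elim X fun o => o.elim (rename vl f) G

/-- The degrees of the equations. -/
noncomputable def aa [Unique P.ι] (e : ℕ) : (P.sum P).V ⊕ Option P.V → (P.sum P).ι →₀ ℕ :=
  Sum.elim (fun u => single u.1 1) fun o => o.elim (single (Sum.inl default) e)
    fun _ => single (Sum.inl default) (e - 1) + single (Sum.inr default) (e - 1)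

/-- The solutions. -/
def Lev [Fintype P.V] (f : MvPolynomial P.V k) (j : ℕ) (z : (P.sum P).Pt k) : Prop :=
  (∀ s, j < od p s → rp (fst z) s = 0) ∧ (∀ s, s ≠ t₀ → s ≠ t₁ → rp (snd z) s = 0) ∧
    ev (fst z) f = 0 ∧
      ∀ s, od p s < j → Gc (od p) f (rp (snd z) t₀) (rp (snd z) t₁) (rp (fst z)) s

theorem FAC1_alg {R : Type u} [CommRing R] [Algebra ℚ R] {D : R →ₗ[ℚ] ℚ} {x y : R} {d : ℕ}
    {c : ℕ → ℚ} (h : ∀ a b, D (x ^ a * y ^ b) = if b = d then c a * c d else 0) {a b j : ℕ}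
    (ha : a + j = d) (hb : b + 1 = d) {e : ℚ} :
    D (x ^ a * y ^ b * (e • x * ((e - 1) • x + (e - 1) • y) ^ j)) =
      j * e * (e - 1) ^ j * c d ^ 2 := by
  have h1 : x ^ a * y ^ b * (e • x * ((e - 1) • x + (e - 1) • y) ^ j) =
      (e * (e - 1) ^ j) • ∑ m ∈ Finset.range (j + 1),
        (j.choose m : ℚ) • (x ^ (a + 1 + (j - m)) * y ^ (b + m)) := by
    rw [← smul_add, _root_.smul_pow, smul_mul_smul_comm, mul_smul_comm, add_comm x y, add_pow,
      Finset.mul_sum, Finset.mul_sum]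
    refine congrArg _ (Finset.sum_congr rfl fun m _ => ?_)
    rw [Algebra.smul_def, map_natCast]
    ring
  have h2 : ∀ m ∈ Finset.range (j + 1),
      D ((j.choose m : ℚ) • (x ^ (a + 1 + (j - m)) * y ^ (b + m))) =
        if m = 1 then j * c d ^ 2 else 0 := fun m hm => by
    rw [Finset.mem_range] at hm
    rw [map_smul, h, smul_eq_mul]
    by_cases h3 : m = 1
    · subst h3
      rw [if_pos hb, if_pos rfl, Nat.choose_one_right, show a + 1 + (j - 1) = d by omega, pow_two]
    · rw [if_neg h3, if_neg (by omega), mul_zero]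
  rw [h1, map_smul, map_sum, Finset.sum_congr rfl h2, Finset.sum_ite_eq', smul_eq_mul]
  split_ifs with h3
  · ring
  · obtain rfl : j = 0 := by
      rw [Finset.mem_range] at h3
      omega
    simp

theorem mem_LG' {j : ℕ} {s : P.V} : s ∈ LG' p j ↔ od p s < j := by
  rw [LG', List.mem_map]
  constructor
  · rintro ⟨i, hi, rfl⟩
    obtain ⟨m, hm, rfl⟩ := List.mem_take_iff_getElem.1 hi
    rw [od_apply, List.getElem_finRange]
    exact lt_of_lt_of_le hm (min_le_left _ _)
  · intro h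
    refine ⟨p.symm s, List.mem_take_iff_getElem.2 ⟨od p s, ?_, ?_⟩, p.apply_symm_apply s⟩
    · rw [List.length_finRange]
      exact lt_min h (od_lt p s)
    · rw [List.getElem_finRange]
      rfl

theorem LG'_len {j : ℕ} (hj : j ≤ n) : (LG' p j).length = j := by
  rw [LG', List.length_map, List.length_take, List.length_finRange, min_eq_left hj]

theorem LG'_take {i j : ℕ} (h : i ≤ j) : (LG' p j).take i = LG' p i := by
  rw [LG', LG', ← List.map_take, List.take_take, min_eq_left h]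

theorem FAC1_vl : Injective (vl : P.V → (P.sum P).V) := by
  rintro ⟨i, s⟩ ⟨i', s'⟩ h
  obtain ⟨h1, h2⟩ := Sigma.mk.inj_iff.1 h
  obtain rfl := Sum.inl_injective h1
  exact congrArg _ (eq_of_heq h2)

theorem FAC1_vr : Injective (vr : P.V → (P.sum P).V) := by
  rintro ⟨i, s⟩ ⟨i', s'⟩ h
  obtain ⟨h1, h2⟩ := Sigma.mk.inj_iff.1 h
  obtain rfl := Sum.inr_injective h1
  exact congrArg _ (eq_of_heq h2)

theorem FAC1_ne (s t : P.V) : (vl s : (P.sum P).V) ≠ vr t := fun h =>
  Sum.inl_ne_inr (congrArg Sigma.fst h)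

variable [Fintype (P.sum P).V] {j : ℕ}

theorem FAC1_mem {u : (P.sum P).V} : u ∈ UU p t₀ t₁ j ↔
    (∃ s, u = vl s ∧ j < od p s) ∨ ∃ s, u = vr s ∧ s ≠ t₀ ∧ s ≠ t₁ := by
  simp only [UU, Finset.mem_filter, Finset.mem_univ, true_and]

theorem vl_mem_UU {s : P.V} : vl s ∈ UU p t₀ t₁ j ↔ j < od p s := by
  rw [FAC1_mem]
  refine ⟨?_, fun h => Or.inl ⟨s, rfl, h⟩⟩
  rintro (⟨t, h1, h2⟩ | ⟨t, h1, -⟩)
  · exact FAC1_vl h1 ▸ h2
  · exact (FAC1_ne _ _ h1).elim

theorem vr_mem_UU {s : P.V} : vr s ∈ UU p t₀ t₁ j ↔ s ≠ t₀ ∧ s ≠ t₁ := by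
  rw [FAC1_mem]
  refine ⟨?_, fun h => Or.inr ⟨s, rfl, h⟩⟩
  rintro (⟨t, h1, -⟩ | ⟨t, h1, h2⟩)
  · exact (FAC1_ne _ _ h1.symm).elim
  · exact FAC1_vr h1 ▸ h2

variable {t₀ t₁}

theorem FAC1_split (ht : t₀ ≠ t₁) (hj : j < n) : ∃ A B : Finset P.V, A.card + j + 1 = n ∧
    B.card + 2 = n ∧ ∀ {M : Type u} [CommMonoid M] (F : (P.sum P).V → M),
      ∏ u ∈ UU p t₀ t₁ j, F u = (∏ s ∈ A, F (vl s)) * ∏ s ∈ B, F (vr s) := by
  classical
  let _ : Fintype P.V := Fintype.ofEquiv _ p
  refine ⟨Finset.univ.filter fun s => j < od p s, (Finset.univ.erase t₀).erase t₁,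
    card_gt p hj, ?_, fun F => ?_⟩
  · have h1 : t₁ ∈ Finset.univ.erase t₀ := Finset.mem_erase.2 ⟨ht.symm, Finset.mem_univ _⟩
    rw [show 2 = 1 + 1 from rfl, ← add_assoc, Finset.card_erase_add_one h1,
      Finset.card_erase_add_one (Finset.mem_univ _), Finset.card_univ, Fintype.ofEquiv_card,
      Fintype.card_fin]
  · rw [← Finset.prod_image FAC1_vl.injOn, ← Finset.prod_image FAC1_vr.injOn,
      ← Finset.prod_union]
    · refine Finset.prod_congr (Finset.ext fun u => ?_) fun _ _ => rfl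
      simp only [FAC1_mem, Finset.mem_union, Finset.mem_image, Finset.mem_filter,
        Finset.mem_univ, true_and, Finset.mem_erase, and_true]
      constructor
      · rintro (⟨s, h1, h2⟩ | ⟨s, h1, h2, h3⟩)
        · exact Or.inl ⟨s, h2, h1.symm⟩
        · exact Or.inr ⟨s, ⟨h3, h2⟩, h1.symm⟩
      · rintro (⟨s, h1, h2⟩ | ⟨s, ⟨h1, h2⟩, h3⟩)
        · exact Or.inl ⟨s, h2.symm, h1⟩
        · exact Or.inr ⟨s, h3.symm, h2, h1⟩
    · rw [Finset.disjoint_left]
      intro u h1 h2
      obtain ⟨s, -, rfl⟩ := Finset.mem_image.1 h1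
      obtain ⟨t, -, h⟩ := Finset.mem_image.1 h2
      exact FAC1_ne _ _ h.symm

theorem card_UU (ht : t₀ ≠ t₁) (hj : j < n) : (UU p t₀ t₁ j).card + j + 3 = n + n := by
  obtain ⟨A, B, h1, h2, h3⟩ := FAC1_split.{0} p ht hj
  have h4 := h3 (M := Multiplicative ℕ) fun _ => Multiplicative.ofAdd 1
  simp only [Finset.prod_const, ← pow_add] at h4
  have h5 := congrArg Multiplicative.toAdd h4
  simp only [toAdd_pow, toAdd_ofAdd, smul_eq_mul, mul_one] at h5
  omega

variable [Unique P.ι] {f : MvPolynomial P.V k} {e : ℕ} {G : P.V → MvPolynomial (P.sum P).V k}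

theorem gg_form (hf : IsForm f (single default e)) (hG : ∀ s, IsForm (G s)
    (single (Sum.inl default) (e - 1) + single (Sum.inr default) (e - 1))) (i) :
    IsForm (gg f G i) (aa e i) := by
  rcases i with u | _ | s
  · exact IsForm.X u
  · have := (Crd.inl k P P).form hf
    rwa [mapDomain_single] at this
  · exact hG s

theorem lev_iff [Fintype P.V] (hG : ∀ s, IsDD (od p) t₀ t₁ f s (G s)) (z : (P.sum P).Pt k) :
    (∀ i ∈ LL p t₀ t₁ j, ev z (gg f G i) = 0) ↔ Lev p t₀ t₁ f j z := by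
  have h1 : ∀ s, ev z (G s) = 0 ↔
      Gc (od p) f (rp (snd z) t₀) (rp (snd z) t₁) (rp (fst z)) s := fun s => by
    rw [ev_eq, ← aeval_eq_eval]
    exact (hG s).iff (rp z)
  have h2 : ∀ u, ev z (X u) = rp z u := fun u => ev_X z u
  simp only [LL, List.mem_append, List.mem_map, List.mem_cons, Finset.mem_toList]
  constructor
  · intro h
    refine ⟨fun s hs => ?_, fun s a b => ?_, ?_, fun s hs => ?_⟩
    · exact (h2 (vl s)).symm.trans (h _ (Or.inl ⟨_, (vl_mem_UU p t₀ t₁).2 hs, rfl⟩))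
    · exact (h2 (vr s)).symm.trans (h _ (Or.inl ⟨_, (vr_mem_UU p t₀ t₁).2 ⟨a, b⟩, rfl⟩))
    · exact (UNC2_rl z f).symm.trans (h _ (Or.inr ⟨none, Or.inl rfl, rfl⟩))
    · exact (h1 s).1 (h _ (Or.inr ⟨some s, Or.inr ⟨s, (mem_LG' p).2 hs, rfl⟩, rfl⟩))
  · rintro ⟨a, b, c, d⟩ i (⟨u, hu, rfl⟩ | ⟨o, rfl | ⟨s, hs, rfl⟩, rfl⟩)
    · rcases (FAC1_mem p t₀ t₁).1 hu with ⟨s, rfl, hs⟩ | ⟨s, rfl, h3, h4⟩
      · exact (h2 (vl s)).trans (a s hs)
      · exact (h2 (vr s)).trans (b s h3 h4)
    · exact (UNC2_rl z f).trans c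
    · exact (h1 s).2 (d s ((mem_LG' p).1 hs))

variable [IsAlgClosed k] {Y : SV k P} (hY : Y.pts = Set.univ) (ht : t₀ ≠ t₁) (hj : j < n)
include hY ht hj

omit ht hj [Fintype (P.sum P).V] in
include p in
theorem FAC1_dim : Y.dim + 1 = n := by
  have h := univ_dim hY
  rwa [Nat.card_unique, ← Nat.card_congr p, Nat.card_eq_fintype_card, Fintype.card_fin] at h

theorem lev_len : (LL p t₀ t₁ j).length = (Y.prod Y).dim := by
  have h1 := card_UU p ht hj
  have h2 := FAC1_dim p hY
  rw [LL, List.length_append, List.length_map, List.length_map, List.length_cons,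
    List.length_map, LG'_len p hj.le, Finset.length_toList, prod_dim]
  omega

omit hY ht hj [Fintype (P.sum P).V] in
theorem FAC1_xy (a b : ℕ) : (M2 Y).dgr (hx Y ^ a * hy Y ^ b) =
    if b = Y.dim then (Mod.one Y).dgr (hh Y ^ a) * (Mod.one Y).dgr (hh Y ^ Y.dim) else 0 := by
  rw [← pull_hx, ← pull_hy, ← map_pow, ← map_pow, dgr_xx]
  split_ifs with h
  · rw [h]
  · exact mul_eq_zero_of_right _ (dgr_gr (Mod.one Y) (pow_gr (dvc_gr Y _) b) h)

theorem lev_dgr (he : 1 ≤ e) :
    (Mod.one (Y.prod Y)).dgr ((LL p t₀ t₁ j).map fun i => dvc (Y.prod Y) (aa e i)).prod =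
      j * e * ((e : ℚ) - 1) ^ j * (Mod.one Y).dgr (hh Y ^ Y.dim) ^ 2 := by
  obtain ⟨A, B, h1, h2, h3⟩ := FAC1_split.{u} p ht hj
  have h4 := FAC1_dim p hY
  have h5 : ((LL p t₀ t₁ j).map fun i => dvc (Y.prod Y) (aa e i)).prod =
      dvc (Y.prod Y) (single (Sum.inl default) 1) ^ A.card *
        dvc (Y.prod Y) (single (Sum.inr default) 1) ^ B.card *
        ((e : ℚ) • dvc (Y.prod Y) (single (Sum.inl default) 1) *
          (((e : ℚ) - 1) • dvc (Y.prod Y) (single (Sum.inl default) 1) +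
            ((e : ℚ) - 1) • dvc (Y.prod Y) (single (Sum.inr default) 1)) ^ j) := by
    rw [LL, List.map_append, List.prod_append, List.map_map, Finset.prod_map_toList, h3,
      List.map_map, List.map_cons, List.prod_cons, List.map_map]
    refine congrArg₂ (· * ·) (congrArg₂ (· * ·) (Finset.prod_eq_pow_card fun s _ => ?_)
      (Finset.prod_eq_pow_card fun s _ => ?_)) (congrArg₂ (· * ·) (dvc_single _ _ e) ?_)
    · exact congrArg (fun i => dvc (Y.prod Y) (single (Sum.inl i) 1)) (Unique.eq_default s.1)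
    · exact congrArg (fun i => dvc (Y.prod Y) (single (Sum.inr i) 1)) (Unique.eq_default s.1)
    · refine (List.prod_eq_pow_card _ _ fun x hx => ?_).trans
        (congrArg _ (List.length_map _ |>.trans (LG'_len p hj.le)))
      obtain ⟨s, -, rfl⟩ := List.mem_map.1 hx
      rw [← Nat.cast_pred he]
      exact (dvc_add _ _ _).trans (congrArg₂ (· + ·) (dvc_single _ _ _) (dvc_single _ _ _))
  rw [h5]
  exact FAC1_alg (D := (Mod.one (Y.prod Y)).dgL) (d := Y.dim) (a := A.card) (b := B.card)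
    (c := fun a => (Mod.one Y).dgr (hh Y ^ a))
    (fun a b => (dgr_one (M2 Y) _).symm.trans (FAC1_xy a b)) (by omega) (by omega)

end Pool.Agent.Work.MP_10f4af_ag
end

-- merged part: Pool.Agent.Work.MP_10f4af_ag.FA.A2
section
/-!
# Polygons are rigid to first order

Plan.  `trans`: let `S` be the support of `x`, `v s = vx o 1..`, `δ s = vx o l 1 a (o s) +
vx o b 0 x (o s)`.  Suppose `(a, b) ≠ 0`.  We have `v s₀ = x`, so by `GF.off` there are at least
two elements in `S`.  Claim: if `δ s = c • v s` with `s ∈ S`, then either `s = s₀`, `a = 0`, or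
`s ≠ s₀`, `c ≠ 0`, `b = c * l`, `a t = 0` for `o t < o s` and `a t = c * x t` for `o s ≤ o t`
(look at the coordinate `s₀` first).  So this holds for at most one `s`.  If it holds for some `s`,
take `s' ≠ s` in `S`; the vector `b⁻¹ • δ s'` has its coordinates in the field generated by
`A = insert l (image x (S.erase s₀))`; `jets` with `I = S`, `J = Unit` gives
`S.card + 1 ≤ S.card`.  Otherwise scale `(a, b)` so that `b = 1` or some `a t = 1` (or divide all
the `δ s` by this coordinate), add the other coordinates of `(a, b)` to `A` (at most `S.card - 1`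
elements) and use `jets` with `I = J = S`; `vlin`.
`trans'`: if `x t ≠ 0` for all `t` with `o t = j`, this is `trans`.  Otherwise `o t = j`, `x t = 0`,
`vx o l 1 x j = l • x`, `vx o l 1 x 0 = x`, and
`δ j = l • a + b • x + Pi.single t ((1 - l) * a t)`; use `UNB2_scale` for the derivatives,
`IsHomogeneous.sum_X_mul_pderiv` (Euler) and `notan` to get `a t = 0`; then `trans`.
-/

open MvPolynomial Set

namespace Pool.Agent.Work.MP_10f4af_ag

open MP_ffcd14_ag (rk rk_mono rk_le_of_alg rk_le_of_mem rk_union_le rk_le_encard)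

universe u

variable {k L : Type u} [Field k] [Field L] [Algebra k L] {σ : Type} [Fintype σ]
  {f : MvPolynomial σ k} {e : ℕ} {o : σ → ℕ} {l b : L} {x a : σ → L} {s₀ : σ}

theorem FAA2_jet (h : GF f e) (he : 3 ≤ e) (ho : Function.Injective o) (hl : l ≠ 1)
    (h₀ : x s₀ = 1) (hf : ∀ s, x s ≠ 0 → aeval (vx o l 1 x (o s)) f = 0) {J : Type} [Fintype J]
    {ι : J → {s // x s ≠ 0}} (hι : Function.Injective ι) (B : Finset L) {c : L} (hc : c ≠ 0)
    {δ : J → σ → L} (hδ : ∀ j (d : L), δ j ≠ d • vx o l 1 x (o (ι j)))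
    (hK : ∀ K : Subfield L, l ∈ K → (∀ t, x t ∈ K) → (B : Set L) ⊆ K → ∀ j t, δ j t / c ∈ K)
    (h1 : ∀ j, ∑ t, aeval (vx o l 1 x (o (ι j))) (pderiv t f) * δ j t = 0) :
    Fintype.card J ≤ B.card := by
  classical
  have hs : s₀ ∈ Finset.univ.filter fun s => x s ≠ 0 := by simp [h₀]
  obtain ⟨A, a1, a2, a3, a4⟩ : ∃ A : Finset L, l ∈ A ∧ (∀ t, t ≠ s₀ → x t ≠ 0 → x t ∈ A) ∧ B ⊆ A ∧
      A.card ≤ Fintype.card {s // x s ≠ 0} + B.card := by
    refine ⟨insert l (((Finset.univ.filter fun s => x s ≠ 0).erase s₀).image x) ∪ B, by simp,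
      fun t t1 t2 => Finset.mem_union_left _ (Finset.mem_insert_of_mem
        (Finset.mem_image_of_mem _ (by simp [t1, t2]))), Finset.subset_union_right,
      (Finset.card_union_le _ _).trans (Nat.add_le_add_right ((Finset.card_insert_le _ _).trans
        ((Nat.add_le_add_right Finset.card_image_le 1).trans_eq ?_)) _)⟩
    rw [Finset.card_erase_add_one hs, Fintype.card_subtype]
  have b1 : l ∈ Subfield.closure (A : Set L) := Subfield.subset_closure a1
  have b2 : ∀ t, x t ∈ Subfield.closure (A : Set L) := fun t => by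
    by_cases t1 : t = s₀
    · rw [t1, h₀]
      exact one_mem _
    by_cases t2 : x t = 0
    · rw [t2]
      exact zero_mem _
    exact Subfield.subset_closure (a2 t t1 t2)
  have key := le_self_add.trans (jets h he A (vlin ho hl one_ne_zero x) hι
    (δ := fun j t => δ j t / c)
    (fun j d hd => hδ j (c * d) (funext fun t => by
      have := congrFun hd t
      rw [div_eq_iff hc] at this
      rw [this, Pi.smul_apply, Pi.smul_apply, smul_eq_mul, smul_eq_mul]
      ring))
    (fun i s => mul_mem (by split_ifs; exacts [b1, one_mem _]) (b2 s))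
    (hK _ b1 b2 fun y hy => Subfield.subset_closure (a3 hy)) (fun i => hf i i.2) fun j => by
      simp only [← mul_div_assoc, ← Finset.sum_div, h1, zero_div])
  have := Nat.cast_le.1 key
  omega

theorem trans (h : GF f e) (he : 3 ≤ e) (ho : Function.Injective o) (hl : l ≠ 1) (hl0 : l ≠ 0)
    (h₀ : x s₀ = 1) (hmin : ∀ s, x s ≠ 0 → o s₀ ≤ o s)
    (hf : ∀ s, x s ≠ 0 → aeval (vx o l 1 x (o s)) f = 0) (ha : ∀ s, x s = 0 → a s = 0)
    (ha₀ : a s₀ = 0) (hd : ∀ s, x s ≠ 0 → ∑ t, aeval (vx o l 1 x (o s)) (pderiv t f) *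
      (vx o l 1 a (o s) t + vx o b 0 x (o s) t) = 0) : a = 0 ∧ b = 0 := by
  classical
  by_contra hn
  have hx : ∀ s, x s ≠ 0 → s ≠ s₀ → o s₀ < o s := fun s s1 s2 =>
    (hmin s s1).lt_of_ne fun e => s2 (ho e).symm
  have hs₀ : x s₀ ≠ 0 := h₀ ▸ one_ne_zero
  have v0 : ∀ (c d : L) (y : σ → L), (∀ s, x s = 0 → y s = 0) →
      vx o c d y (o s₀) = d • y := fun c d y hy => funext fun t => by
    by_cases t1 : x t = 0
    · simp [vx, hy t t1]
    · simp [vx, (hmin t t1).not_gt]
  have one : ∀ s, x s ≠ 0 → ∀ c : L, c ≠ 0 →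
      (∀ d : L, vx o l 1 a (o s) + vx o b 0 x (o s) ≠ d • vx o l 1 x (o s)) →
      (∀ t, vx o l 1 a (o s) t + vx o b 0 x (o s) t = 0 ∨
        vx o l 1 a (o s) t + vx o b 0 x (o s) t = c * x t) → False := fun s s1 c hc h1 h2 => by
    simpa using FAA2_jet h he ho hl h₀ hf (J := Unit) (ι := fun _ => ⟨s, s1⟩)
      (Function.injective_of_subsingleton _) ∅ hc (fun _ => h1) (fun K _ k2 _ _ t => by
        rcases h2 t with a | a
        · rw [Pi.add_apply, a, zero_div]
          exact zero_mem _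
        · rw [Pi.add_apply, a, mul_div_cancel_left₀ _ hc]
          exact k2 t) fun _ => hd s s1
  by_cases hg : ∀ s, x s ≠ 0 → ∀ d : L, vx o l 1 a (o s) + vx o b 0 x (o s) ≠ d • vx o l 1 x (o s)
  · obtain ⟨p, p1, p2⟩ : ∃ p : σ → L, p s₀ = b ∧ ∀ t, t ≠ s₀ → p t = a t :=
      ⟨Function.update a s₀ b, Function.update_self _ _ _, fun t ht => Function.update_of_ne ht _ _⟩
    obtain ⟨t₀, t1⟩ : ∃ t : {s // x s ≠ 0}, p t ≠ 0 := by
      by_contra! hp
      refine hn ⟨funext fun t => ?_, p1 ▸ hp ⟨s₀, hs₀⟩⟩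
      by_cases t1 : t = s₀
      · exact t1 ▸ ha₀
      by_cases t2 : x t = 0
      · exact ha t t2
      · exact p2 t t1 ▸ hp ⟨t, t2⟩
    have key := FAA2_jet h he ho hl h₀ hf Function.injective_id
      ((Finset.univ.erase t₀).image fun t : {s // x s ≠ 0} => p t / p t₀) t1
      (fun j => hg j j.2) (fun K k1 k2 k3 j t => by
        have k4 : ∀ t, x t ≠ 0 → p t / p t₀ ∈ K := fun t ht => by
          by_cases e : t = t₀
          · rw [e, div_self t1]
            exact one_mem _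
          · exact k3 (Finset.mem_image.2 ⟨⟨t, ht⟩, by simpa [Subtype.ext_iff] using e, rfl⟩)
        have k5 : a t / p t₀ ∈ K := by
          by_cases t1 : t = s₀
          · rw [t1, ha₀, zero_div]
            exact zero_mem _
          by_cases t2 : x t = 0
          · rw [ha t t2, zero_div]
            exact zero_mem _
          exact p2 t t1 ▸ k4 t t2
        have k6 : b / p t₀ ∈ K := p1 ▸ k4 s₀ hs₀
        rw [Pi.add_apply, add_div, vx, vx, mul_div_assoc, mul_div_right_comm]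
        split_ifs
        · exact add_mem (mul_mem k1 k5) (mul_mem k6 (k2 t))
        · rw [one_mul, zero_div, zero_mul, add_zero]
          exact k5) fun j => hd j j.2
    have := key.trans Finset.card_image_le
    rw [← Finset.card_univ, ← Finset.card_erase_add_one (Finset.mem_univ t₀)] at this
    omega
  push Not at hg
  obtain ⟨s, s1, c, hc⟩ := hg
  by_cases s2 : s = s₀
  · rw [s2, v0 _ _ a ha, v0 _ _ x fun _ => id, v0 _ _ x fun _ => id, one_smul, one_smul, zero_smul,
      add_zero] at hc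
    have c0 : c = 0 := by simpa [ha₀, h₀] using (congrFun hc s₀).symm
    rw [c0, zero_smul] at hc
    have hb : b ≠ 0 := fun e => hn ⟨hc, e⟩
    obtain ⟨s', s3, s4⟩ := h.off (x := x) (fun e => hs₀ (congrFun e s₀)) (by
      have := hf s₀ hs₀
      rwa [v0 _ _ x fun _ => id, one_smul] at this) s₀
    refine one s' s4 b hb (fun d e => hb ?_) fun t => ?_
    · have d0 : d = 0 := by simpa [vx, hc, s4] using (congrFun e s').symm
      simpa [vx, hc, d0, h₀, hx s' s4 s3] using congrFun e s₀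
    · by_cases t1 : o t < o s' <;> simp [vx, hc, t1]
  · have c1 : b = c * l := by simpa [vx, ha₀, h₀, hx s s1 s2] using congrFun hc s₀
    have c2 : ∀ t, a t = if o t < o s then 0 else c * x t := fun t => by
      have := congrFun hc t
      by_cases t1 : o t < o s <;> simpa [vx, t1, c1, mul_assoc, hl0] using this
    have c0 : c ≠ 0 := fun e => hn ⟨funext fun t => by simp [c2 t, e], by simp [c1, e]⟩
    have e0 : vx o l 1 a (o s₀) + vx o b 0 x (o s₀) = a := by
      rw [v0 _ _ a ha, v0 _ _ x fun _ => id, one_smul, zero_smul, add_zero]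
    refine one s₀ hs₀ c c0 (fun d e => ?_) fun t => ?_
    · rw [e0, v0 _ _ x fun _ => id, one_smul] at e
      have d0 : d = 0 := by simpa [ha₀, h₀] using (congrFun e s₀).symm
      simpa [e, d0, c0, s1] using c2 s
    · rw [← Pi.add_apply, e0, c2]
      split_ifs <;> simp

theorem trans' (h : GF f e) (he : 3 ≤ e) (ho : Function.Injective o) (hl : l ≠ 1) (hl0 : l ≠ 0)
    (h₀ : x s₀ = 1) (ho₀ : o s₀ = 0) {j : ℕ} (hs : ∀ s, o s < j → x s ≠ 0)
    (hz : ∀ s, j < o s → x s = 0) (hf : ∀ i, aeval (vx o l 1 x i) f = 0)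
    (ha : ∀ s, j < o s → a s = 0) (ha₀ : a s₀ = 0)
    (hd : ∀ i ≤ j, ∑ t, aeval (vx o l 1 x i) (pderiv t f) *
      (vx o l 1 a i t + vx o b 0 x i t) = 0) : a = 0 ∧ b = 0 := by
  classical
  have v0 : ∀ (c d : L) (y : σ → L), vx o c d y 0 = d • y := fun c d y => funext fun t => by
    simp [vx]
  refine trans h he ho hl hl0 h₀ (fun s _ => ho₀ ▸ zero_le) (fun s _ => hf _) (fun t ht => ?_) ha₀
    fun s s1 => hd _ (not_lt.1 fun a => s1 (hz s a))
  rcases lt_trichotomy (o t) j with t1 | t1 | t1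
  · exact absurd ht (hs t t1)
  swap
  · exact ha t t1
  have vj : ∀ c d : L, vx o c d x j = c • x := fun c d => funext fun s => by
    rcases lt_trichotomy (o s) j with s1 | s1 | s1
    · simp [vx, s1]
    · simp [vx, ho (s1.trans t1.symm), ht]
    · simp [vx, hz s s1]
  have va : vx o l 1 a j = l • a + Pi.single t ((1 - l) * a t) := funext fun s => by
    rcases lt_trichotomy (o s) j with s1 | s1 | s1
    · simp [vx, s1, Pi.single_eq_of_ne fun e : s = t => s1.ne (e ▸ t1)]
    · simp [vx, ho (s1.trans t1.symm), t1, sub_mul]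
    · simp [vx, ha s s1, Pi.single_eq_of_ne fun e : s = t => s1.ne' (e ▸ t1)]
  have h1 := hd 0 zero_le
  have h2 := hd j le_rfl
  have h3 := notan h he ho hl hl0 one_ne_zero (fun e => one_ne_zero (h₀.symm.trans (congrFun e s₀)))
    (fun s _ => hf _) ht 0
  have h4 := hf 0
  have h5 := congrArg (aeval x) h.hom.sum_X_mul_pderiv
  simp only [v0, one_smul, zero_smul, Pi.zero_apply, add_zero] at h1 h3 h4
  simp only [map_sum, map_mul, aeval_X, map_nsmul, h4, smul_zero, mul_comm (x _)] at h5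
  simp only [vj, va, UNB3_smul h.hom.pderiv, Pi.add_apply, Pi.smul_apply, smul_eq_mul, mul_assoc,
    ← Finset.mul_sum, mul_add, Finset.sum_add_distrib, mul_left_comm _ l, mul_left_comm _ b, h1, h5,
    mul_zero, zero_add, add_zero, Pi.single_apply, mul_ite, Finset.sum_ite_eq', Finset.mem_univ,
    if_true] at h2
  simpa [hl0, h3, sub_eq_zero, hl.symm] using h2

end Pool.Agent.Work.MP_10f4af_ag
end
end
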