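import Pool.Agent.Work.MP_10f4af_ag.FA.A2
import Pool.Agent.Work.MP_10f4af_ag.UN.C2
import Pool.Agent.Work.MP_10f4af_ag.VG.D2
import Pool.Agent.Work.MP_10f4af_ag.UN.C3

-- merged part: Pool.Agent.Work.MP_10f4af_ag.FA.C2
section
/-!
# The number of solutions

Plan.  `lev_pl`: `List.map_append`, `PL_append`.  The first part: `List.map_map`, `PL_fin`,
`lin_dim`, `univ_dim` for `Y.prod Y` (`mem_prod`).  The second part: for `i ≤ j` and `T` on which
the coordinates in `UU`, `rename vl f` and `G s`, `s ∈ LG' p i` vanish (`LG'_take`), take a generic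
point `w` of `T` (`exists_gen'`, `IsGen.iff`, `gg_form`); `IsDD.iff`, `pre` with `x = w ∘ vl`,
`l = w (vr t₀)`, `m = w (vr t₁)` (`IsGen.ne`); every element of `rat w` is a ratio of `x` or is
`0`, `1`, `l / m`, `m / l` (`rk_le_of_mem`), `IsGen.rk_rat`; `card_UU`.
`lev_loc`: `sol` for `x = rp (fst z)`, `l = rp (snd z) t₀`, `m = rp (snd z) t₁`.  With
`s₀ = p ⟨0, _⟩` we have `x s₀ ≠ 0`, `m ≠ 0`.  Take the chart `ς (inl _) = s₀.2`, `ς (inr _) = t₁.2`,
`μ (inl _) = (x s₀)⁻¹`, `μ (inr _) = m⁻¹`, `w u = μ u.1 * rp z u`; the forms vanish at `w`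
(`IsForm.eval_scale`), so `sol` also applies to `w ∘ vl`, `w (vr t₀)`, `w (vr t₁) = 1`
(`IsDD.iff`).  `loc_of`: let `ξ` be in the kernel.  The coordinates in `UU` of `ξ` vanish.  By
`der_f`, `IsDD.der`, `der_VV` and induction on `i ≤ j` the hypothesis `hd` of `trans'` holds
(`vx o l 1 x 0 = x`, `vx o b 0 x 0 = 0`), so `ξ ∘ vl = 0` and `ξ (vr t₀) = 0`.
`lev_count`: `exists_dd`, `count_eq`, `lev_iff`, `lev_len`, `lev_dgr`.
-/

open MvPolynomial Finsupp Function.Embedding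
open Function hiding eval

namespace Pool.Agent.Work.MP_10f4af_ag

open MP_ffcd14_ag hiding len vl cyc pl Weil idl_hmg mem_idl idl_prime idl_le_iff lin

universe u

section
variable {k : Type u} [Field k] {P : Amb} {n : ℕ} {p : Fin n ≃ P.V} {t₀ t₁ : P.V} {j e : ℕ}

theorem FAC2_form [Unique P.ι] {f : MvPolynomial P.V k} (h : GF f e) :
    IsForm f (single default e) :=
  form_iff.2 (by rw [single_eq_same]; exact h.hom)

theorem FAC2_univ [IsAlgClosed k] {Y : SV k P} (hY : Y.pts = Set.univ) :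
    (Y.prod Y).pts = Set.univ :=
  Set.eq_univ_of_forall fun _ => mem_prod.2 ⟨hY ▸ Set.mem_univ _, hY ▸ Set.mem_univ _⟩

theorem FAC2_rename {L : Type u} [Field L] [Algebra k L] (w : (P.sum P).V → L)
    (f : MvPolynomial P.V k) : aeval w (rename vl f) = aeval (fun s => w (vl s)) f :=
  aeval_rename _ _ _

theorem FAC2_X {τ : Type} [Fintype τ] (w ξ : τ → k) (u : τ) :
    ∑ s, eval w (pderiv s (X u)) * ξ s = ξ u := by
  classical
  rw [Finset.sum_eq_single u (fun s _ hs => by rw [pderiv_X_of_ne hs.symm, map_zero, zero_mul])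
    (fun c => absurd (Finset.mem_univ u) c), pderiv_X_self, map_one, one_mul]

variable [Fintype (P.sum P).V]

theorem FAC2_mem1 {u : (P.sum P).V} (hu : u ∈ UU p t₀ t₁ j) : Sum.inl u ∈ LL p t₀ t₁ j :=
  List.mem_append_left _ (List.mem_map_of_mem (Finset.mem_toList.2 hu))

theorem FAC2_mem2 : Sum.inr none ∈ LL p t₀ t₁ j :=
  List.mem_append_right _ (List.mem_map_of_mem List.mem_cons_self)

theorem FAC2_mem3 {s : P.V} (hs : od p s < j) : Sum.inr (some s) ∈ LL p t₀ t₁ j :=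
  List.mem_append_right _ (List.mem_map_of_mem (List.mem_cons_of_mem _
    (List.mem_map_of_mem ((mem_LG' p).2 hs))))

variable {L : Type u} [Field L] {w : (P.sum P).V → L}

theorem FAC2_tri (hU : ∀ u ∈ UU p t₀ t₁ j, w u = 0) (s : P.V) :
    w (vr s) = 0 ∨ w (vr s) = w (vr t₀) ∨ w (vr s) = w (vr t₁) := by
  by_cases e0 : s = t₀
  · exact Or.inr (Or.inl (by rw [e0]))
  by_cases e1 : s = t₁
  · exact Or.inr (Or.inr (by rw [e1]))
  · exact Or.inl (hU _ ((vr_mem_UU p t₀ t₁).2 ⟨e0, e1⟩))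

theorem FAC2_ne [Unique P.ι] (h : ∀ i, ∃ s, w ⟨i, s⟩ ≠ 0) (hU : ∀ u ∈ UU p t₀ t₁ j, w u = 0) :
    (fun s => w (vl s)) ≠ 0 ∧ (w (vr t₀) ≠ 0 ∨ w (vr t₁) ≠ 0) := by
  constructor
  · obtain ⟨s, hs⟩ := h (Sum.inl default)
    exact fun c => hs (congrFun c ⟨default, s⟩)
  · obtain ⟨s, hs⟩ := h (Sum.inr default)
    have hs' : w (vr ⟨default, s⟩) ≠ 0 := hs
    rcases FAC2_tri hU ⟨default, s⟩ with c | c | c
    · exact absurd c hs'
    · exact Or.inl (c ▸ hs')
    · exact Or.inr (c ▸ hs')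

theorem FAC2_rk [Algebra k L] (hU : ∀ u ∈ UU p t₀ t₁ j, w u = 0) :
    rk k (rat w) ≤ rk k ({y | ∃ s t, y = w (vl s) / w (vl t)} ∪
      {w (vr t₀) / w (vr t₁), w (vr t₁) / w (vr t₀)}) := by
  refine rk_le_of_mem ?_
  rintro y ⟨i | i, s, t, rfl⟩
  · exact IntermediateField.subset_adjoin _ _ (Or.inl ⟨⟨i, s⟩, ⟨i, t⟩, rfl⟩)
  · have hs : ∀ a : L, a / a ∈ IntermediateField.adjoin k ({y | ∃ s t, y = w (vl s) / w (vl t)} ∪
        {w (vr t₀) / w (vr t₁), w (vr t₁) / w (vr t₀)}) := fun a => by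
      by_cases c : a = 0
      · rw [c, div_zero]
        exact zero_mem _
      · rw [div_self c]
        exact one_mem _
    change w (vr ⟨i, s⟩) / w (vr ⟨i, t⟩) ∈ _
    rcases FAC2_tri hU ⟨i, s⟩ with c | c | c <;> rcases FAC2_tri hU ⟨i, t⟩ with d | d | d <;>
      rw [c, d]
    · exact hs _
    · rw [zero_div]
      exact zero_mem _
    · rw [zero_div]
      exact zero_mem _
    · rw [div_zero]
      exact zero_mem _
    · exact hs _
    · exact IntermediateField.subset_adjoin _ _ (Or.inr (Or.inl rfl))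
    · rw [div_zero]
      exact zero_mem _
    · exact IntermediateField.subset_adjoin _ _ (Or.inr (Or.inr rfl))
    · exact hs _

end

variable {k : Type u} [Field k] [IsAlgClosed k] {P : Amb} [Unique P.ι] [Fintype P.V] {n : ℕ}
  {p : Fin n ≃ P.V} {t₀ t₁ : P.V} {j e : ℕ} {f : MvPolynomial P.V k} {Y : SV k P}
  (h : GF f e) (he : 3 ≤ e) (ht : t₀ ≠ t₁) (hj : j < n)
include h he ht hj

section
variable [Fintype (P.sum P).V] {G : P.V → MvPolynomial (P.sum P).V k}
  (hG : ∀ s, IsDD (od p) t₀ t₁ f s (G s)) (hG' : ∀ s, IsForm (G s)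
    (single (Sum.inl default) (e - 1) + single (Sum.inr default) (e - 1)))
include hG hG'

theorem lev_pl (hY : Y.pts = Set.univ) : PL ((LL p t₀ t₁ j).map (gg f G)) (Y.prod Y).tp := by
  have hf := FAC2_form h
  have hd := univ_dim (FAC2_univ hY)
  have hl := lev_len p hY ht hj
  have e1 : (LL p t₀ t₁ j).map (gg f G) =
      (UU p t₀ t₁ j).toList.map (fun u => (X u : MvPolynomial (P.sum P).V k)) ++
        (rename vl f :: (LG' p j).map G) := by
    simp only [LL, List.map_append, List.map_map, List.map_cons]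
    rfl
  have e2 : (LL p t₀ t₁ j).length = (UU p t₀ t₁ j).card + (j + 1) := by
    simp only [LL, List.length_append, List.length_map, List.length_cons, Finset.length_toList,
      LG'_len p hj.le]
  rw [e1]
  refine PL_append (PL_fin _ _ fun s' _ T _ hT => ?_) fun i hi T _ h1 h2 => ?_
  · have := lin_dim s' hT
    rw [SV.sdim_tp]
    omega
  · rw [List.length_cons, List.length_map, LG'_len p hj.le] at hi
    rw [List.take_succ_cons, ← List.map_take, LG'_take p (Nat.le_of_lt_succ hi)] at h2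
    obtain ⟨L, _, _, w, hw⟩ := exists_gen' T
    have hU : ∀ u ∈ UU p t₀ t₁ j, w u = 0 := fun u hu => by
      have := (hw.iff _ _ (IsForm.X u)).2 (h1 _ (List.mem_map_of_mem (Finset.mem_toList.2 hu)))
      rwa [aeval_X] at this
    have a1 : aeval w (rename vl f) = 0 :=
      (hw.iff _ _ (gg_form hf hG' (Sum.inr none))).2 (h2 _ List.mem_cons_self)
    have a2 : ∀ s, od p s < i → aeval w (G s) = 0 := fun s hs =>
      (hw.iff _ _ (hG' s)).2 (h2 _ (List.mem_cons_of_mem _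
        (List.mem_map_of_mem ((mem_LG' p).2 hs))))
    obtain ⟨b1, b2⟩ := FAC2_ne hw.ne hU
    have b3 := pre h he (Nat.le_of_lt_succ hi) hj b1 b2
      (fun s hs => hU _ ((vl_mem_UU p t₀ t₁).2 hs)) (FAC2_rename w f ▸ a1)
      fun s hs => ((hG s).iff w).1 (a2 s hs)
    have b4 := (add_le_add_left (FAC2_rk (k := k) hU) (i : ℕ∞)).trans b3
    rw [hw.rk_rat] at b4
    have b5 : sdim T + i ≤ j := by exact_mod_cast b4
    rw [SV.sdim_tp, List.length_map, Finset.length_toList]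
    omega

theorem lev_loc {z : (P.sum P).Pt k} (hz : Lev p t₀ t₁ f j z)
    {F : MvPolynomial (P.sum P).V k} {b : (P.sum P).ι →₀ ℕ} (hF : IsForm F b) (h0 : ev z F = 0) :
    ∃ s ∉ idl (({z} : Sub k (P.sum P)) : Set ((P.sum P).Pt k)),
      s * F ∈ Ideal.ofList ((LL p t₀ t₁ j).map (gg f G)) := by
  have hf := FAC2_form h
  have hz' := (lev_iff p hG z).2 hz
  have key : ∀ w : (P.sum P).V → k, (∀ i, ∃ s, w ⟨i, s⟩ ≠ 0) →
      (∀ i ∈ LL p t₀ t₁ j, eval w (gg f G i) = 0) →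
      (∀ u ∈ UU p t₀ t₁ j, w u = 0) ∧ w (vr t₀) ≠ w (vr t₁) ∧ w (vr t₀) ≠ 0 ∧ w (vr t₁) ≠ 0 ∧
        0 < j ∧ (∀ s, od p s < j → w (vl s) ≠ 0) ∧
        ∀ i, aeval (vx (od p) (w (vr t₀)) (w (vr t₁)) (fun s => w (vl s)) i) f = 0 := by
    intro w h1 h2
    have hU : ∀ u ∈ UU p t₀ t₁ j, w u = 0 := fun u hu =>
      (eval_X (f := w) u).symm.trans (h2 (Sum.inl u) (FAC2_mem1 hu))
    obtain ⟨b1, b2⟩ := FAC2_ne h1 hU
    have a1 : aeval w (rename vl f) = 0 := h2 (Sum.inr none) FAC2_mem2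
    exact ⟨hU, sol h he hj b1 b2 (fun s hs => hU _ ((vl_mem_UU p t₀ t₁).2 hs))
      (FAC2_rename w f ▸ a1) fun s hs => ((hG s).iff w).1 (h2 (Sum.inr (some s)) (FAC2_mem3 hs))⟩
  obtain ⟨-, -, -, c1, c2, c3, -⟩ := key (rp z)
    (fun i => Function.ne_iff.1 (z i).rep_nonzero) hz'
  obtain ⟨s₀, hs₀⟩ : ∃ s₀, od p s₀ = 0 := ⟨p ⟨0, by omega⟩, od_apply p _⟩
  have c4 := c3 s₀ (by omega)
  have hς : ∀ i : (P.sum P).ι, ∃ a, (⟨i, a⟩ : (P.sum P).V) =
      Sum.elim (fun _ => vl s₀) (fun _ => vr t₁) i := by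
    rintro (i | i)
    · obtain rfl : i = s₀.1 := Subsingleton.elim _ _
      exact ⟨s₀.2, rfl⟩
    · obtain rfl : i = t₁.1 := Subsingleton.elim _ _
      exact ⟨t₁.2, rfl⟩
  choose ς hς using hς
  obtain ⟨μ, hμ⟩ : ∃ μ : (P.sum P).ι → k,
      μ = Sum.elim (fun _ => (rp z (vl s₀))⁻¹) (fun _ => (rp z (vr t₁))⁻¹) := ⟨_, rfl⟩
  obtain ⟨w, hw⟩ : ∃ w : (P.sum P).V → k, w = fun u => μ u.1 * rp z u := ⟨_, rfl⟩
  have w1 : w (vl s₀) = 1 := by
    rw [hw, hμ]
    exact inv_mul_cancel₀ c4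
  have w2 : w (vr t₁) = 1 := by
    rw [hw, hμ]
    exact inv_mul_cancel₀ c1
  have w3 : ∀ i, w ⟨i, ς i⟩ = 1 := fun i => by
    rw [hς i]
    rcases i with i | i
    exacts [w1, w2]
  have w4 : ∀ i ∈ LL p t₀ t₁ j, eval w (gg f G i) = 0 := fun i hi => by
    rw [hw, (gg_form hf hG' i).eval_scale, ← ev_eq, hz' i hi, mul_zero]
  obtain ⟨d0, d1, d2, -, -, d3, d4⟩ := key w (fun i => ⟨ς i, by rw [w3]; exact one_ne_zero⟩) w4
  refine loc_of _ (fun i _ => gg_form hf hG' i) w3 (μ := μ) (fun s => by rw [hw]) hz'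
    (fun ξ x1 x2 => ?_) hF h0
  have y1 : ξ (vl s₀) = 0 :=
    (congrArg ξ (hς (Sum.inl default))).symm.trans (x1 (Sum.inl default))
  have y2 : ξ (vr t₁) = 0 :=
    (congrArg ξ (hς (Sum.inr default))).symm.trans (x1 (Sum.inr default))
  have y3 : ∀ u ∈ UU p t₀ t₁ j, ξ u = 0 := fun u hu =>
    (FAC2_X w ξ u).symm.trans (x2 (Sum.inl u) (FAC2_mem1 hu))
  have y4 : ∀ i ≤ j, ∑ u, eval w (pderiv u (aeval (VV k (od p) t₀ t₁ i) f)) * ξ u = 0 := by
    intro i hi
    induction i with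
    | zero =>
      have : ∑ u, eval w (pderiv u (rename vl f)) * ξ u = 0 := x2 (Sum.inr none) FAC2_mem2
      rw [der_f] at this
      rw [der_VV w ξ y2, w2]
      have e1 : ∀ x : P.V → k, vx (od p) (w (vr t₀)) 1 x 0 = x := fun x => by
        funext s
        simp [vx]
      have e2 : ∀ t, vx (od p) (ξ (vr t₀)) 0 (fun s => w (vl s)) 0 t = 0 := fun t => by
        simp [vx]
      simp only [e1, e2, add_zero]
      exact this
    | succ i ih =>
      obtain ⟨s, hs⟩ : ∃ s, od p s = i := ⟨p ⟨i, by omega⟩, od_apply p _⟩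
      have m3 := FAC2_mem3 (t₀ := t₀) (t₁ := t₁) (j := j) (show od p s < j by omega)
      have := (hG s).der (w := w) (ξ := ξ) (w4 (Sum.inr (some s)) m3) (x2 (Sum.inr (some s)) m3)
      rw [hs] at this
      rw [this]
      exact ih (by omega)
  rw [w2] at d1 d4
  obtain ⟨z1, z2⟩ := trans' (a := fun s => ξ (vl s)) (b := ξ (vr t₀)) h he (od_inj p) d1 d2 w1 hs₀
    d3 (fun s hs => d0 _ ((vl_mem_UU p t₀ t₁).2 hs)) d4
    (fun s hs => y3 _ ((vl_mem_UU p t₀ t₁).2 hs)) y1 fun i hi => by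
      have := y4 i hi
      rwa [der_VV w ξ y2, w2] at this
  funext u
  rcases u with ⟨i | i, a⟩
  · exact congrFun z1 ⟨i, a⟩
  · by_cases e0 : (⟨i, a⟩ : P.V) = t₀
    · exact (congrArg (fun s => ξ (vr s)) e0).trans z2
    by_cases e1 : (⟨i, a⟩ : P.V) = t₁
    · exact (congrArg (fun s => ξ (vr s)) e1).trans y2
    · exact y3 _ ((vr_mem_UU p t₀ t₁).2 ⟨e0, e1⟩)

end

theorem lev_count (hY : Y.pts = Set.univ) : ∃ s : Finset ((P.sum P).Pt k),
    (∀ z, z ∈ s ↔ Lev p t₀ t₁ f j z) ∧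
      (s.card : ℚ) = j * e * ((e : ℚ) - 1) ^ j * (Mod.one Y).dgr (hh Y ^ Y.dim) ^ 2 := by
  let _ := Fintype.ofFinite (P.sum P).V
  have hf := FAC2_form h
  choose G hG hG' using exists_dd (od_inj p) ht hf (by omega : 1 ≤ e)
  obtain ⟨s, h1, h2⟩ := count_eq (LL p t₀ t₁ j) (fun i _ => gg_form hf hG' i) (lev_len p hY ht hj)
    (lev_pl h he ht hj hG hG' hY) fun z _ hz F b hF h0 =>
      lev_loc h he ht hj hG hG' ((lev_iff p hG z).1 hz) hF h0
  refine ⟨s, fun z => ?_, h2.trans (lev_dgr p hY ht hj (by omega))⟩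
  rw [h1, lev_iff p hG z, FAC2_univ hY]
  exact and_iff_right (Set.mem_univ z)

end Pool.Agent.Work.MP_10f4af_ag
end

-- merged part: Pool.Agent.Work.MP_10f4af_ag.FA.D1
section
/-!
# Many polygons

Plan.  `rec_bound`: with `q = e - 1 ≥ 2`, prove `c * j * q ^ (j + 1) ≤ N j ≤ c * j * q ^ (j + 1) +
c * q ^ j` by induction, and then the strict inequality from the upper bound for `j`.
`lev_sol`: `sol` for `rp (fst z)`, `rp (snd z) t₀`, `rp (snd z) t₁` (the representatives are not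
zero: `Projectivization.rep_nonzero`, `Unique.eq_default`).
`lev_succ`: from left to right `lev_sol` at the level `j + 1`; from right to left the two vertices
are zeros of `f` and `(l - m) * x s ≠ 0` by `lev_sol` at the level `j`.
`top_count`: let `S j` be the finite sets of `lev_count`, `N j` the number of `z ∈ S j` with
`rp (fst z) s ≠ 0` for `od p s = j` (and extend `N` beyond `n` by the recursion, or prove a bounded
version of `rec_bound`); `Finset.filter_card_add_filter_neg_card_eq_card`, `lev_succ`, `N 0 = 0` by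
`lev_sol`, `one_le`.
`HS.many`: `Fintype.ofFinite P.V`, `HS.gf`, `n = X.dim`, `t₀ = p 0`, `t₁ = p 1`.  For `z` in the
set of `top_count`, all the `x s` are not zero, `l ≠ m`, `l, m ≠ 0`.  Let `y z i` be the point with
the coordinates `vx (od p) l m x i` (`exists_pt`), and `M.exists_pt' (y z)`.  The vertex `n + 2` is
`l • x`, the vertex `0` is `m • x`, so the point `y z (i + 1)` has the coordinates
`vx .. (i.val + 1)` up to a scalar for all `i`.  Two consecutive vertices differ exactly in the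
coordinate `p i`, which gives `Col` and `y z i ≠ y z (i + 1)` (`eq_iff_mn`).  Injectivity: `y z 0`
is `fst z` (`pt_eq`), and `y z 1` gives `l / m`, so `snd z` (`eq_iff_mn`); `bij_sum.ext` or `funext`.
`Finset.image`, `Finset.card_image_of_injOn`.
-/

open MvPolynomial Finsupp Function.Embedding
open Function hiding eval

namespace Pool.Agent.Work.MP_10f4af_ag

open MP_ffcd14_ag hiding len vl cyc pl Weil idl_hmg mem_idl idl_prime idl_le_iff lin

universe u

theorem rec_bound {e c : ℚ} (he : 3 ≤ e) (hc : 1 ≤ c) {N : ℕ → ℚ} {n : ℕ} (h0 : N 0 = 0)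
    (h : ∀ j < n + 1, N (j + 1) + N j = (j + 1) * e * (e - 1) ^ (j + 1) * c) :
    (n + 1) * (e - 1) ^ (n + 2) < N (n + 1) := by
  obtain ⟨q, rfl⟩ : ∃ q, e = q + 1 := ⟨e - 1, by ring⟩
  rw [add_sub_cancel_right] at h ⊢
  have hq : 2 ≤ q := by linarith
  have hc0 : 0 < c := by linarith
  have hp : ∀ j : ℕ, c * q ^ j < c * q ^ (j + 1) := fun j =>
    mul_lt_mul_of_pos_left (pow_lt_pow_right₀ (by linarith) (Nat.lt_succ_self j)) hc0
  have key : ∀ j ≤ n, c * j * q ^ (j + 1) ≤ N j ∧ N j ≤ c * j * q ^ (j + 1) + c * q ^ j := by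
    intro j
    induction j with
    | zero => intro _; simp [h0, hc0.le]
    | succ j ih =>
      intro hj
      obtain ⟨i1, i2⟩ := ih (by omega)
      have i3 := h j (by omega)
      have i4 := hp j
      have i5 : (j + 1) * (q + 1) * q ^ (j + 1) * c =
          c * (j + 1) * q ^ (j + 1 + 1) + c * j * q ^ (j + 1) + c * q ^ (j + 1) := by ring
      push_cast
      constructor <;> linarith
  have i2 := (key n le_rfl).2
  have i3 := h n (Nat.lt_succ_self n)
  have i4 := hp n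
  have i5 : (n + 1) * (q + 1) * q ^ (n + 1) * c =
      c * ((n + 1) * q ^ (n + 2)) + c * n * q ^ (n + 1) + c * q ^ (n + 1) := by ring
  have i6 : (n + 1) * q ^ (n + 2) ≤ c * ((n + 1) * q ^ (n + 2)) :=
    le_mul_of_one_le_left (by positivity) hc
  linarith

variable {k : Type u} [Field k] {P : Amb} [Unique P.ι] {f : MvPolynomial P.V k} {e : ℕ}

theorem FAD1_ne (x : P.Pt k) : ∃ s, rp x s ≠ 0 := by
  obtain ⟨s, hs⟩ := Function.ne_iff.1 (x default).rep_nonzero
  exact ⟨⟨default, s⟩, hs⟩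

theorem FAD1_pt {v : P.V → k} {t : P.V} (hv : v t ≠ 0) :
    ∃ y : P.Pt k, ∃ c ≠ (0 : k), ∀ s, rp y s = c * v s := by
  obtain ⟨y, μ, h1, h2⟩ := MP_ffcd14_ag.exists_pt v (UNC1_blk (α := fun s => v s ≠ 0) hv)
  exact ⟨y, μ default, h1 _, fun s => by rw [h2, ← Unique.eq_default s.1]⟩

omit [Unique P.ι] in
theorem FAD1_od {n : ℕ} {p : Fin n ≃ P.V} {s : P.V} {i : Fin n} (h : od p s = i) : s = p i :=
  od_inj p (h.trans (od_apply p i).symm)

section
variable [Fintype P.V] {n : ℕ} {t₀ t₁ : P.V} {j : ℕ} {z : (P.sum P).Pt k} (h : GF f e)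
  (he : 3 ≤ e)
include h he

theorem lev_sol {p : Fin n ≃ P.V} (hj : j < n) (hz : Lev p t₀ t₁ f j z) :
    rp (snd z) t₀ ≠ rp (snd z) t₁ ∧ rp (snd z) t₀ ≠ 0 ∧ rp (snd z) t₁ ≠ 0 ∧ 0 < j ∧
      (∀ s, od p s < j → rp (fst z) s ≠ 0) ∧
        ∀ i, aeval (vx (od p) (rp (snd z) t₀) (rp (snd z) t₁) (rp (fst z)) i) f = 0 := by
  obtain ⟨h1, h2, h3, h4⟩ := hz
  refine sol h he hj (Function.ne_iff.2 (FAD1_ne _)) ?_ h1 ((congrFun (aeval_eq_eval _) _).trans h3) h4
  obtain ⟨s, hs⟩ := FAD1_ne (snd z)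
  by_cases c : s = t₀
  · exact Or.inl (c ▸ hs)
  · exact Or.inr (by_contra fun c' => hs (h2 s c fun e => c' (e ▸ hs)))

theorem lev_succ {p : Fin n ≃ P.V} (hj : j + 1 < n) :
    (Lev p t₀ t₁ f (j + 1) z ∧ rp (fst z) (p ⟨j + 1, hj⟩) = 0) ↔
      Lev p t₀ t₁ f j z ∧ rp (fst z) (p ⟨j, by omega⟩) ≠ 0 := by
  constructor
  · rintro ⟨hz, h0⟩
    refine ⟨⟨fun s hs => ?_, hz.2.1, hz.2.2.1, fun s hs => hz.2.2.2 s (by omega)⟩,
      (lev_sol h he hj hz).2.2.2.2.1 _ (by rw [od_apply]; exact Nat.lt_succ_self j)⟩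
    rcases (Nat.succ_le_of_lt hs).eq_or_lt with c | c
    · rw [FAD1_od (i := ⟨j + 1, hj⟩) c.symm]
      exact h0
    · exact hz.1 s c
  · rintro ⟨hz, h0⟩
    obtain ⟨a1, -, -, -, -, a2⟩ := lev_sol h he (by omega) hz
    refine ⟨⟨fun s hs => hz.1 s (by omega), hz.2.1, hz.2.2.1, fun s hs => ?_⟩,
      hz.1 _ (by rw [od_apply]; exact Nat.lt_succ_self j)⟩
    rcases (Nat.le_of_lt_succ hs).eq_or_lt with c | c
    · refine ⟨by rw [a2, a2], fun c' => absurd c' (mul_ne_zero (sub_ne_zero.2 a1) ?_)⟩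
      rw [FAD1_od (i := ⟨j, by omega⟩) c]
      exact h0
    · exact hz.2.2.2 s c

theorem top_count [IsAlgClosed k] {Y : SV k P} (hY : Y.pts = Set.univ) (p : Fin (n + 2) ≃ P.V)
    (ht : t₀ ≠ t₁) : ∃ s : Finset ((P.sum P).Pt k),
      (∀ z ∈ s, Lev p t₀ t₁ f (n + 1) z ∧ ∀ t, rp (fst z) t ≠ 0) ∧
        ((n : ℚ) + 1) * ((e : ℚ) - 1) ^ (n + 2) < s.card := by
  classical
  have ex : ∀ j : ℕ, ∃ s : Finset ((P.sum P).Pt k), j < n + 2 →
      (∀ z, z ∈ s ↔ Lev p t₀ t₁ f j z) ∧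
        (s.card : ℚ) = j * e * ((e : ℚ) - 1) ^ j * (Mod.one Y).dgr (hh Y ^ Y.dim) ^ 2 := fun j => by
    by_cases hj : j < n + 2
    · obtain ⟨s, hs⟩ := lev_count h he ht hj hY
      exact ⟨s, fun _ => hs⟩
    · exact ⟨∅, fun c => absurd c hj⟩
  choose S hS using ex
  have hQ : ∀ (i : Fin (n + 2)) (z : (P.sum P).Pt k),
      (∀ s, od p s = i → rp (fst z) s ≠ 0) ↔ rp (fst z) (p i) ≠ 0 := fun i z =>
    ⟨fun c => c _ (od_apply p i), fun c s hs => FAD1_od hs ▸ c⟩
  refine ⟨(S (n + 1)).filter fun z => ∀ s, od p s = n + 1 → rp (fst z) s ≠ 0, fun z hz => ?_, ?_⟩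
  · obtain ⟨h1, h2⟩ := Finset.mem_filter.1 hz
    have h3 := ((hS _ (Nat.lt_succ_self _)).1 z).1 h1
    refine ⟨h3, fun t => ?_⟩
    rcases (Nat.le_of_lt_succ (od_lt p t)).eq_or_lt with c | c
    · exact h2 t c
    · exact (lev_sol h he (Nat.lt_succ_self _) h3).2.2.2.2.1 t c
  refine rec_bound (c := (Mod.one Y).dgr (hh Y ^ Y.dim) ^ 2) (by exact_mod_cast he)
    (one_le_pow₀ (one_le hY))
    (N := fun j => (((S j).filter fun z => ∀ s, od p s = j → rp (fst z) s ≠ 0).card : ℚ)) ?_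
    fun j hj => ?_
  · rw [Nat.cast_eq_zero, Finset.card_eq_zero, Finset.eq_empty_iff_forall_notMem]
    exact fun z hz => lt_irrefl 0 (lev_sol h he (Nat.succ_pos _)
      (((hS 0 (Nat.succ_pos _)).1 z).1 (Finset.mem_filter.1 hz).1)).2.2.2.1
  · have hj' : j + 1 < n + 2 := by omega
    have e1 := (hS _ hj').2
    rw [← Finset.card_filter_add_card_filter_not
      (p := fun z => ∀ s, od p s = j + 1 → rp (fst z) s ≠ 0)] at e1
    have e2 : ((S (j + 1)).filter fun z => ¬ ∀ s, od p s = j + 1 → rp (fst z) s ≠ 0) =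
        (S j).filter fun z => ∀ s, od p s = j → rp (fst z) s ≠ 0 := by
      ext z
      rw [Finset.mem_filter, Finset.mem_filter, (hS _ hj').1, (hS j (by omega)).1,
        hQ ⟨j + 1, hj'⟩, hQ ⟨j, by omega⟩, not_not]
      exact lev_succ h he hj'
    rw [e2] at e1
    push_cast at e1
    exact e1

end

/-- the polygon with the vertices `vx` -/
theorem FAD1_poly [Fintype P.V] {X : SV k P} (h : HS X f e) {n : ℕ} (p : Fin (n + 2) ≃ P.V)
    {l m : k} {x : P.V → k} (hlm : l ≠ m) (hl : l ≠ 0) (hm : m ≠ 0) (hx : ∀ s, x s ≠ 0)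
    (hf : ∀ i, aeval (vx (od p) l m x i) f = 0) : ∃ y : Fin (n + 2) → P.Pt k,
      (∀ i, Out X f (p i) (y i) (y (i + 1))) ∧ (∃ c, ∀ s, rp (y 0) s = c * x s) ∧
        ∃ c ≠ (0 : k), rp (y 1) (p 0) = c * (l * x (p 0)) ∧ rp (y 1) (p 1) = c * (m * x (p 1)) := by
  have hv : ∀ i s, vx (od p) l m x i s ≠ 0 := fun i s =>
    mul_ne_zero (by split_ifs; exacts [hl, hm]) (hx s)
  choose y c hc hy using fun i : Fin (n + 2) => FAD1_pt (hv i (p 0))
  have h0 : ∀ s, rp (y 0) s = c 0 * m * x s := fun s => by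
    rw [hy, vx, Fin.val_zero, if_neg (Nat.not_lt_zero _), mul_assoc]
  have hX : ∀ i, y i ∈ X.pts := fun i => (h.pts _).2 (by
    rw [ev, ← aeval_eq_eval, show (fun s : P.V => (y i s.1).rep s.2) =
      fun s => c i * vx (od p) l m x i s from funext (hy i), UNB2_scale h.gf.hom, hf, mul_zero])
  have h1 : ∀ i : Fin (n + 2), ∃ d ≠ (0 : k), ∀ s,
      rp (y (i + 1)) s = d * vx (od p) l m x (i.val + 1) s := fun i => by
    by_cases hi : i.val + 1 < n + 2
    · exact ⟨c (i + 1), hc _, fun s => by rw [hy, Fin.val_add_one_of_lt' hi]⟩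
    · obtain rfl : i = Fin.last (n + 1) := Fin.ext (by have := i.2; rw [Fin.val_last]; omega)
      refine ⟨c 0 * m / l, div_ne_zero (mul_ne_zero (hc 0) hm) hl, fun s => ?_⟩
      rw [Fin.last_add_one, h0, vx, Fin.val_last, if_pos (od_lt p s), ← mul_assoc,
        div_mul_cancel₀ _ hl]
  refine ⟨y, fun i => ?_, ⟨_, h0⟩, c 1, hc 1, ?_, ?_⟩
  · obtain ⟨d, hd, h2⟩ := h1 i
    have h3 : ∀ s ≠ p i, vx (od p) l m x (i.val + 1) s = vx (od p) l m x i s := fun s hs => by
      have : od p s ≠ i := fun c => hs (FAD1_od c)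
      simp only [vx, show od p s < i.val + 1 ↔ od p s < i.val by omega]
    refine ⟨hX _, hX _, fun s hs t ht => ?_, fun c' => ?_⟩
    · rw [h2, h2, hy, hy, h3 s hs, h3 t ht]
      ring
    · have ht : p (i + 1) ≠ p i := fun c => by simpa using p.injective c
      have h4 := eq_iff_mn.1 c' (p i) (p (i + 1))
      rw [h2, h2, hy, hy, h3 _ ht] at h4
      have h5 : vx (od p) l m x i (p i) = m * x (p i) := by
        rw [vx, od_apply, if_neg (lt_irrefl _)]
      have h6 : vx (od p) l m x (i.val + 1) (p i) = l * x (p i) := by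
        rw [vx, od_apply, if_pos (Nat.lt_succ_self _)]
      rw [h5, h6] at h4
      refine absurd (mul_left_cancel₀ (mul_ne_zero (mul_ne_zero (mul_ne_zero (hc i) hd) (hx (p i)))
        (hv i (p (i + 1)))) ?_) hlm
      linear_combination -h4
  · rw [hy, vx, od_apply, if_pos (by simp)]
  · rw [hy, vx, od_apply, if_neg (lt_irrefl _)]

theorem HS.many [IsAlgClosed k] {X Y : SV k P} (h : HS X f e) (he : 3 ≤ e)
    (hY : Y.pts = Set.univ) (p : Fin (X.dim + 2) ≃ P.V) (M : Mod X (Fin (X.dim + 2))) :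
    ∃ s : Finset (M.S.Pt k), (∀ z ∈ s, z ∈ M.Z.pts ∧
      ∀ i, Out X f (p i) ((M.β i).pr z) ((M.β (i + 1)).pr z)) ∧
        ((X.dim : ℚ) + 1) * ((e : ℚ) - 1) ^ (X.dim + 2) < s.card := by
  classical
  let _ := Fintype.ofFinite P.V
  have ht : p 0 ≠ p 1 := fun c => by simpa using p.injective c
  obtain ⟨s, hs, hcard⟩ := top_count h.gf he hY p ht
  have sl := fun z : s => lev_sol h.gf he (Nat.lt_succ_self _) (hs z.1 z.2).1
  choose y y1 y2 y3 using fun z : s => FAD1_poly h p (sl z).1 (sl z).2.1 (sl z).2.2.1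
    (hs z.1 z.2).2 (sl z).2.2.2.2.2
  choose w hw using fun z : s => M.exists_pt' (y z)
  have y0 : ∀ z, y z 0 = fst z.1 := fun z => by
    obtain ⟨c, hc⟩ := y2 z
    exact pt_eq (μ := fun _ => c) hc
  have hinj : Injective w := fun z z' e => by
    have e1 : ∀ i, y z i = y z' i := fun i => by rw [← hw, ← hw, e]
    have e2 : fst z.1 = fst z'.1 := by rw [← y0, ← y0, e1]
    obtain ⟨c, hc, a1, a2⟩ := y3 z
    obtain ⟨c', hc', b1, b2⟩ := y3 z'
    have e3 := eq_iff_mn.1 (e1 1) (p 0) (p 1)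
    rw [a1, a2, b1, b2, ← e2] at e3
    have e4 : rp (snd z.1) (p 0) * rp (snd z'.1) (p 1) =
        rp (snd z.1) (p 1) * rp (snd z'.1) (p 0) :=
      mul_left_cancel₀ (mul_ne_zero (mul_ne_zero (mul_ne_zero hc hc') ((hs z.1 z.2).2 (p 0)))
        ((hs z.1 z.2).2 (p 1))) (by linear_combination e3)
    have z1 := (hs z.1 z.2).1.2.1
    have z2 := (hs z'.1 z'.2).1.2.1
    have e5 : snd z.1 = snd z'.1 := eq_iff_mn.2 fun a b => by
      by_cases c1 : a ≠ p 0 ∧ a ≠ p 1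
      · rw [z1 a c1.1 c1.2, z2 a c1.1 c1.2, zero_mul, mul_zero]
      by_cases c2 : b ≠ p 0 ∧ b ≠ p 1
      · rw [z1 b c2.1 c2.2, z2 b c2.1 c2.2, zero_mul, mul_zero]
      rw [not_and_or, not_not, not_not] at c1 c2
      rcases c1 with rfl | rfl <;> rcases c2 with rfl | rfl
      exacts [rfl, e4, e4.symm, rfl]
    exact Subtype.ext (funext fun i => by
      cases i with
      | inl i => exact congrFun e2 i
      | inr i => exact congrFun e5 i)
  refine ⟨Finset.univ.image w, fun v hv => ?_, ?_⟩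
  · obtain ⟨z, -, rfl⟩ := Finset.mem_image.1 hv
    simp only [M.mem, hw]
    exact ⟨fun i => (y1 z i).1, y1 z⟩
  · rwa [Finset.card_image_of_injective _ hinj, Finset.card_univ, Fintype.card_coe]

end Pool.Agent.Work.MP_10f4af_ag
end

-- merged part: Pool.Agent.Work.MP_10f4af_ag.UN.E2
section
/-!
# The cyclic product of effective correspondences

Plan.  `crd_ed`: `Mod.crd_pr` for `M2 X` at `Sum.inl ()` and `Sum.inr ()`; the projections of
`M2 X` are `fst` and `snd` by `rfl`.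
`chain_fin`: by induction on `i ≤ j` the set of the values `(M.β i).pr z` is finite
(`Set.Finite.biUnion`); for `i > j` it has at most one element.  Then `Mod.pt_ext` and
`Set.Finite.pi`, `Set.Finite.of_injOn` or `Set.Finite.preimage`.
`chain_dim'`: let `M' = Mod.pow X {t : Fin (n + 2) // t.val = 0 ∨ j < t.val}` and
`β = M'.crd M Subtype.val`; `sdim_le_of_fin`, `chain_fin`, `Mod.crd_pr`, `Mod.crd_mem`,
`Crd.img_sub`, `Mod.dim`; the index type has `n + 2 - j` elements.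
`cyc_eff`: by induction on `j ≤ n + 2` the product over the `i` with `i.val < j` is
`Eff M.Z _ (j * X.dim) {z ∈ M.Z.pts | ∀ i, i.val < j → ..} {z | ∀ i, i.val < j → ..}`: `Eff.one`,
`Eff.mul`, `Eff.pull`, `Eff.mono`, with `chain_dim'` if `j + 1 ≤ n + 1` and `h0` if
`j + 1 = n + 2`; `Mod.dim`.  Then `Eff.dgr`.
-/

open MvPolynomial Finsupp Function Function.Embedding

namespace Pool.Agent.Work.MP_10f4af_ag

open MP_ffcd14_ag hiding len vl cyc pl Weil idl_hmg mem_idl idl_prime idl_le_iff lin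

universe u

/-- An edge of the polygon. -/
def ed {n : ℕ} (i : Fin (n + 2)) : Unit ⊕ Unit ↪ Fin (n + 2) where
  toFun := Sum.elim (fun _ => i) fun _ => i + 1
  inj' := by
    have h : i ≠ i + 1 := fun e => by simpa using e
    rintro (a | a) (b | b) e
    exacts [rfl, (h e).elim, (h e.symm).elim, rfl]

variable {k : Type u} [Field k] [IsAlgClosed k] {P : Amb} {X : SV k P} {n : ℕ}
  (M : Mod X (Fin (n + 2)))

theorem crd_ed (i : Fin (n + 2)) (z : M.S.Pt k) :
    fst (((M2 X).crd M (ed i)).pr z) = (M.β i).pr z ∧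
      snd (((M2 X).crd M (ed i)).pr z) = (M.β (i + 1)).pr z :=
  ⟨(M2 X).crd_pr M (ed i) (Sum.inl ()) z, (M2 X).crd_pr M (ed i) (Sum.inr ()) z⟩

variable {O I : Fin (n + 2) → P.Pt k → P.Pt k → Prop} (hO : ∀ i x, {y | O i x y}.Finite)
include hO

omit [IsAlgClosed k] in
theorem chain_fin {j : ℕ} (hj : j ≤ n + 1) (x : Fin (n + 2) → P.Pt k) :
    {z : M.S.Pt k | (∀ i : Fin (n + 2), i.val < j → O i ((M.β i).pr z) ((M.β (i + 1)).pr z)) ∧
      ∀ i : Fin (n + 2), i.val = 0 ∨ j < i.val → (M.β i).pr z = x i}.Finite := by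
  obtain ⟨S, hS⟩ : ∃ S, S = {z : M.S.Pt k | (∀ i : Fin (n + 2), i.val < j →
      O i ((M.β i).pr z) ((M.β (i + 1)).pr z)) ∧
      ∀ i : Fin (n + 2), i.val = 0 ∨ j < i.val → (M.β i).pr z = x i} := ⟨_, rfl⟩
  rw [← hS]
  have h1 : ∀ i : Fin (n + 2), i.val = 0 ∨ j < i.val → ((M.β i).pr '' S).Finite := fun i hi =>
    (Set.finite_singleton (x i)).subset (by
      rintro _ ⟨z, hz, rfl⟩
      rw [hS] at hz
      exact hz.2 i hi)
  have h2 : ∀ (m : ℕ) (hm : m < n + 2), ((M.β ⟨m, hm⟩).pr '' S).Finite := by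
    intro m
    induction m with
    | zero => exact fun hm => h1 _ (.inl rfl)
    | succ m ih =>
      intro hm
      by_cases h : j < m + 1
      · exact h1 _ (.inr h)
      refine ((ih (by omega)).biUnion fun y _ => hO ⟨m, by omega⟩ y).subset ?_
      rintro _ ⟨z, hz, rfl⟩
      refine Set.mem_biUnion ⟨z, hz, rfl⟩ ?_
      rw [hS] at hz
      have h3 := hz.1 ⟨m, by omega⟩ (by simp only; omega)
      rwa [show (⟨m, by omega⟩ : Fin (n + 2)) + 1 = ⟨m + 1, hm⟩ from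
        Fin.ext (Fin.val_add_one_of_lt' hm)] at h3
  have _ := hj
  refine Set.Finite.of_finite_image (f := fun z i => (M.β i).pr z)
    ((Set.Finite.pi' fun i : Fin (n + 2) => h2 i.1 i.2).subset ?_)
    fun z _ z' _ e => M.pt_ext (congrFun e)
  rintro _ ⟨z, hz, rfl⟩ i
  exact ⟨z, hz, rfl⟩

theorem chain_dim' {j : ℕ} (hj : j ≤ n + 1) {V : Sub k M.S} (hV : (V : Set (M.S.Pt k)) ⊆ M.Z.pts)
    (h : ∀ z ∈ V, ∀ i : Fin (n + 2), i.val < j → O i ((M.β i).pr z) ((M.β (i + 1)).pr z)) :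
    sdim V + j * X.dim ≤ M.Z.dim := by
  obtain ⟨M', -⟩ : ∃ M' : Mod X {t : Fin (n + 2) // t.val = 0 ∨ j < t.val}, True :=
    ⟨Mod.pow X _, trivial⟩
  have h1 : sdim V ≤ sdim ((M'.crd M Subtype.val).img V) := sdim_le_of_fin _ fun x => by
    rcases Set.eq_empty_or_nonempty {z | z ∈ V ∧ (M'.crd M Subtype.val).pr z = x} with
      e | ⟨z₀, h0⟩
    · rw [e]
      exact Set.finite_empty
    refine (chain_fin M hO hj fun i => (M.β i).pr z₀).subset fun z hz => ⟨h z hz.1, fun i hi => ?_⟩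
    exact (M'.crd_pr M Subtype.val ⟨i, hi⟩ z).symm.trans
      (by rw [hz.2, ← h0.2]; exact M'.crd_pr M Subtype.val ⟨i, hi⟩ z₀)
  have h2 := sdim_mono (Z := M'.Z.tp) (((M'.crd M Subtype.val).img_sub (Z := V) M'.Z.closed).2
    fun z hz => M'.crd_mem M _ (hV hz))
  have h3 : Nat.card {t : Fin (n + 2) // t.val = 0 ∨ j < t.val} ≤ Nat.card (Fin (n + 2 - j)) :=
    Nat.card_le_card_of_injective (fun t => ⟨t.1.1 - j, by have := t.1.2; omega⟩) fun a b e => by
      have e1 : a.1.1 - j = b.1.1 - j := congrArg Fin.val e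
      have := a.2
      have := b.2
      exact Subtype.ext (Fin.ext (by omega))
  rw [SV.sdim_tp, M'.dim] at h2
  rw [Nat.card_fin] at h3
  have h4 : M.Z.dim = (n + 2 - j) * X.dim + j * X.dim := by
    rw [M.dim, Nat.card_fin, ← add_mul, Nat.sub_add_cancel (by omega)]
  rw [h4]
  exact Nat.add_le_add_right (h1.trans (h2.trans (Nat.mul_le_mul_right _ h3))) _

theorem cyc_eff {γ : Fin (n + 2) → CR (M2 X).Z}
    (hγ : ∀ i, Eff (M2 X).Z (γ i) X.dim {z | I i (fst z) (snd z)} {z | O i (fst z) (snd z)})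
    (h0 : ∀ V : Sub k M.S, (∀ z ∈ V, ∀ i, O i ((M.β i).pr z) ((M.β (i + 1)).pr z)) → sdim V = 0)
    (s : Finset (M.S.Pt k))
    (hs : ∀ z ∈ s, z ∈ M.Z.pts ∧ ∀ i, I i ((M.β i).pr z) ((M.β (i + 1)).pr z)) :
    (s.card : ℚ) ≤ M.dgr (∏ i, (M2 X).pull M (ed i) (γ i)) := by
  have key : ∀ j ≤ n + 2, Eff M.Z
      (∏ i ∈ Finset.univ.filter fun i : Fin (n + 2) => i.val < j, (M2 X).pull M (ed i) (γ i))
      (j * X.dim)
      {z | z ∈ M.Z.pts ∧ ∀ i : Fin (n + 2), i.val < j → I i ((M.β i).pr z) ((M.β (i + 1)).pr z)}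
      {z | ∀ i : Fin (n + 2), i.val < j → O i ((M.β i).pr z) ((M.β (i + 1)).pr z)} := by
    intro j hj
    induction j with
    | zero =>
      rw [Finset.filter_false_of_mem fun i _ => Nat.not_lt_zero _, Finset.prod_empty, zero_mul]
      exact (Eff.one M.Z).mono (fun z hz => hz.1) fun z _ _ i hi => absurd hi (Nat.not_lt_zero _)
    | succ j ih =>
      have e : (Finset.univ.filter fun i : Fin (n + 2) => i.val < j + 1) =
          insert ⟨j, hj⟩ (Finset.univ.filter fun i : Fin (n + 2) => i.val < j) := by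
        ext i
        simp only [Finset.mem_filter, Finset.mem_univ, true_and, Finset.mem_insert, Fin.ext_iff]
        omega
      have hO' : ∀ z : M.S.Pt k,
          (∀ i : Fin (n + 2), i.val < j → O i ((M.β i).pr z) ((M.β (i + 1)).pr z)) →
          O ⟨j, hj⟩ (fst (((M2 X).crd M (ed ⟨j, hj⟩)).pr z))
            (snd (((M2 X).crd M (ed ⟨j, hj⟩)).pr z)) →
          ∀ i : Fin (n + 2), i.val < j + 1 → O i ((M.β i).pr z) ((M.β (i + 1)).pr z) := by
        intro z h1 h2 i hi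
        rcases Nat.lt_succ_iff_lt_or_eq.1 hi with h | h
        · exact h1 i h
        · obtain rfl : i = ⟨j, hj⟩ := Fin.ext h
          exact (congrArg₂ (O _) (crd_ed M _ z).1 (crd_ed M _ z).2).mp h2
      rw [e, Finset.prod_insert (by simp), mul_comm, add_one_mul]
      refine ((ih (by omega)).mul (Eff.pull (M2 X) M (ed ⟨j, hj⟩) (hγ _)) fun V h1 h2 h3 => ?_).mono
        (fun z hz => ⟨⟨hz.1, fun i hi => hz.2 i (by omega)⟩, hz.1, ?_⟩)
        fun z _ hz => hO' z hz.1 hz.2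
      · rw [← add_one_mul]
        have h4 := fun z (hz : z ∈ V) => hO' z (h2 hz) (h3 hz)
        by_cases h : j + 1 ≤ n + 1
        · exact chain_dim' M hO h h1 h4
        · rw [h0 V fun z hz i => h4 z hz i (by have := i.2; omega), M.dim, Nat.card_fin, zero_add]
          exact Nat.mul_le_mul_right _ hj
      · exact (congrArg₂ (I _) (crd_ed M _ z).1 (crd_ed M _ z).2).mpr
          (hz.2 ⟨j, hj⟩ (Nat.lt_succ_self j))
  have h := key _ le_rfl
  rw [Finset.filter_true_of_mem fun i _ => i.2,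
    show (n + 2) * X.dim = M.Z.dim by rw [M.dim, Nat.card_fin]] at h
  exact h.dgr M s fun z hz => ⟨(hs z hz).1, fun i _ => (hs z hz).2 i⟩

end Pool.Agent.Work.MP_10f4af_ag
end

-- merged part: Pool.Agent.Work.MP_10f4af_ag.UN.D1
section
/-!
# The components of a linear section are conjugate

Plan.  `nice_bot`: `exists_full` with `w = ⊥` gives `q ≤ p`, and `q = p` by minimality.
`nice_uniq`: let `q'` be given by `exists_full` for the data `B'`, `δ'` of `p'`, so `q' = p'`; as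
`C δ' ∉ p'`, `δ' ≠ 0`, so `C δ' ∉ p` by `nice_bot`, `p' = q' ≤ p`, and `p` is minimal.
`top_cell`: copy the first part of the proof of `LK_cell` (`hθ`, `hm`, `he`, `hl`, `c1`, `c2`, `key`,
`hu`, `lift`).  For `T` as in the statement take `p` from `lift`.  It is minimal over `lin`: if
`q ≤ p` is a prime which contains `lin`, then `ctr_down` gives `T' ≥ T` with `ctr _ T' ς = q.comap θ`,
`key` and `Top` give `T' = T`, and `A1_le`.  It is nice by `nice_of`, `ctr_form` (see the case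
`bad` in `LK_cell`).  First part: `θ (X s) = C (π (X s))` (`map_X`); it is not zero for `s ∉ U`,
since the kernel of the evaluation at the point with the coordinates `0` on `U` and `1` outside
contains the kernel of `θ`; `nice_bot` and `c2`.  Second part: `nice_uniq`.
`top_conj`: take a chart `ς` of `Z'` (`Noeth.mono_not_van`) and a chart `ς₀` of `Z`; both avoid `U`
(`exists_inCh_iff`).  By `top_cell` for `ς₀`, `Z` meets the chart `ς`.  `top_cell` for `ς`,
`ctr_conj`.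
-/

open MvPolynomial Function

namespace Pool.Agent.Work.MP_10f4af_ag

open MP_ffcd14_ag hiding len vl cyc pl Weil idl_hmg mem_idl idl_prime idl_le_iff lin

universe u

section

variable {R : Type u} [CommRing R] [IsDomain R] {α J : Type} [Fintype α] [Fintype J]
  [DecidableEq J] {Λ : Matrix J α R} {p p' : Ideal (MvPolynomial α R)}

theorem nice_bot (h : p ∈ (lin Λ).minimalPrimes) (hn : Nice Λ p) : p.comap C = ⊥ := by
  obtain ⟨B, δ, h1, h2⟩ := hn
  obtain ⟨q, q1, q2, q3, q4⟩ := exists_full h2 ⊥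
  have h3 := q4 p h.1.1 h.1.2 bot_le h1
  rw [le_antisymm (h.2 ⟨q1, q2⟩ h3) h3, q3]

theorem nice_uniq (h : p ∈ (lin Λ).minimalPrimes) (hn : Nice Λ p)
    (h' : p' ∈ (lin Λ).minimalPrimes) (hn' : Nice Λ p') : p = p' := by
  obtain ⟨B, δ, h1, h2⟩ := hn'
  obtain ⟨q, q1, q2, -, q4⟩ := exists_full h2 ⊥
  have h3 := q4 p' h'.1.1 h'.1.2 bot_le h1
  have h4 := q4 p h.1.1 h.1.2 bot_le fun a => h1 (by
    rw [← Ideal.mem_comap, nice_bot h hn, Ideal.mem_bot] at a
    rw [a, map_zero]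
    exact p'.zero_mem)
  rw [le_antisymm (h.2 ⟨q1, q2⟩ h4) h4, le_antisymm (h'.2 ⟨q1, q2⟩ h3) h3]

end

variable {k : Type u} [Field k] {S : Amb} {k₀ : Type u} [Field k₀] {α J : Type}

/-- `Z` is a component of `Y ∩ {X s = 0, s ∈ U}`. -/
def Top (Y : Set (S.Pt k)) (U : Set S.V) (Z : Sub k S) : Prop :=
  (Z : Set (S.Pt k)) ⊆ Y ∧ (∀ s ∈ U, Van (Z : Set (S.Pt k)) (X s)) ∧
    ∀ T : Sub k S, Z ≤ T → (T : Set (S.Pt k)) ⊆ Y → (∀ s ∈ U, Van (T : Set (S.Pt k)) (X s)) →
      T = Z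

variable [Fintype α] [Fintype J] [DecidableEq J] [Algebra (MvPolynomial α k₀) k] [IsAlgClosed k]
  [FaithfulSMul (MvPolynomial α k₀) k] [Algebra.IsAlgebraic (MvPolynomial α k₀) k]
  {Λ : Matrix J α (MvPolynomial S.V k₀)} {e : J → S.ι →₀ ℕ}
  (hΛ : ∀ j a, IsForm (MvPolynomial.map (bs k α k₀) (Λ j a)) (e j))
  {Y : Set (S.Pt k)} (hY : ∀ z, z ∈ Y ↔ ∀ j, ev z (eqn k Λ j) = 0) {U : Set S.V}
include hΛ hY

theorem top_cell {ς : ∀ i, S.σ i} (h : ∀ i, (⟨i, ς i⟩ : S.V) ∉ U) {Z : Sub k S} (hZ : Top Y U Z)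
    (hς : ∃ x ∈ Z, InCh ς x)
    (hn : ∃ z ∈ Z, LinearIndependent k fun j a => ev z (MvPolynomial.map (bs k α k₀) (Λ j a))) :
    (∀ s ∉ U, ¬ Van (Z : Set (S.Pt k)) (X s)) ∧ ∀ Z' : Sub k S, Top Y U Z' →
      (∃ x ∈ Z', InCh ς x) →
      (∃ z ∈ Z', LinearIndependent k fun j a => ev z (MvPolynomial.map (bs k α k₀) (Λ j a))) →
      ctr (MvPolynomial α k₀) Z ς = ctr (MvPolynomial α k₀) Z' ς := by
  classical
  obtain ⟨τ, _, π, θ, hs, hπ, hX, h1, h0, hk⟩ := exists_cell k₀ α U ς h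
  have hθ : LQ θ := fun y => by
    obtain ⟨g, rfl⟩ := hs y
    exact ⟨g, 1, by simp, by simp⟩
  have hm : ∀ f : MvPolynomial S.V k₀, MvPolynomial.map (algebraMap (MvPolynomial α k₀) k)
      (MvPolynomial.map C f) = MvPolynomial.map (bs k α k₀) f := fun f => map_map _ _ f
  have he : ∀ j, θ (eqB Λ j) = ∑ a, C (Λ.map π j a) * X a := fun j => by
    simp only [eqB, map_sum, map_mul, hπ, hX, Matrix.map_apply, mul_comm]
  have hl : lin (Λ.map π) = (Ideal.span (Set.range (eqB Λ))).map θ := by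
    rw [Ideal.map_span, ← Set.range_comp, lin]
    exact congrArg (fun f => Ideal.span (Set.range f)) (funext fun j => (he j).symm)
  have c1 : ∀ T : Sub k S, (∃ x ∈ T, InCh ς x) → ∀ j, eqB Λ j ∈ ctr (MvPolynomial α k₀) T ς ↔
      Van (T : Set (S.Pt k)) (eqn k Λ j) := fun T hT j => by
    rw [← map_eqB]
    refine ctr_form hT (a := e j) ?_
    rw [map_eqB]
    exact IsWeightedHomogeneous.sum _ _ _ fun a _ => IsWeightedHomogeneous.C_mul (hΛ j a) _
  have c2 : ∀ T : Sub k S, (∃ x ∈ T, InCh ς x) → ∀ s, X s ∈ ctr (MvPolynomial α k₀) T ς ↔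
      Van (T : Set (S.Pt k)) (X s) := fun T hT s => by
    rw [ctr_form hT (a := Finsupp.single s.1 1) (by rw [map_X]; exact IsForm.X s), map_X]
  have key : ∀ T : Sub k S, (∃ x ∈ T, InCh ς x) →
      ((lin (Λ.map π)).comap θ ≤ ctr (MvPolynomial α k₀) T ς ↔
        (T : Set (S.Pt k)) ⊆ Y ∧ ∀ s ∈ U, Van (T : Set (S.Pt k)) (X s)) := fun T hT => by
    refine ⟨fun hI => ⟨fun z hz => (hY z).2 fun j => (c1 T hT j).1 (hI ?_) z hz,
      fun s hs => (c2 T hT s).1 (hI ?_)⟩, fun hT' => ?_⟩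
    · rw [hl]
      exact Ideal.mem_map_of_mem _ (Ideal.subset_span ⟨j, rfl⟩)
    · rw [Ideal.mem_comap, h0 s hs]
      exact Ideal.zero_mem _
    · rw [hl, Ideal.comap_map_of_surjective _ hs]
      refine sup_le (Ideal.span_le.2 ?_) (hk _ ctr_one fun s hs => (c2 T hT s).2 (hT'.2 s hs))
      rintro _ ⟨j, rfl⟩
      exact (c1 T hT j).2 fun z hz => (hY z).1 (hT'.1 hz) j
  have hu : ∀ r : Ideal (MvPolynomial S.V (MvPolynomial α k₀)), r.IsPrime →
      (lin (Λ.map π)).comap θ ≤ r → ∀ c ∈ r, ¬ IsUnit (θ c) := fun r hr hI c hc hu => by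
    obtain ⟨y, hy⟩ := hu.exists_right_inv
    obtain ⟨g, rfl⟩ := hs y
    have : c * g - 1 ∈ r := hI (by
      rw [Ideal.mem_comap, map_sub, map_mul, hy, map_one, sub_self]
      exact Ideal.zero_mem _)
    exact hr.ne_top ((Ideal.eq_top_iff_one r).2 (by
      simpa using r.sub_mem (r.mul_mem_right g hc) this))
  have lift : ∀ T : Sub k S, (∃ x ∈ T, InCh ς x) → (T : Set (S.Pt k)) ⊆ Y →
      (∀ s ∈ U, Van (T : Set (S.Pt k)) (X s)) → ∃ p : Ideal (MvPolynomial α (MvPolynomial τ k₀)),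
        p.IsPrime ∧ lin (Λ.map π) ≤ p ∧ p.comap θ = ctr (MvPolynomial α k₀) T ς :=
    fun T hT hT1 hT2 => by
      have hI := (key T hT).2 ⟨hT1, hT2⟩
      obtain ⟨p, hp, e⟩ := A1_lift hθ (ctr_prime hT) ((Ideal.comap_mono bot_le).trans hI)
        (hu _ (ctr_prime hT) hI)
      exact ⟨p, hp, A1_le hθ (e ▸ hI), e⟩
  have main : ∀ T : Sub k S, Top Y U T → (∃ x ∈ T, InCh ς x) →
      (∃ z ∈ T, LinearIndependent k fun j a => ev z (MvPolynomial.map (bs k α k₀) (Λ j a))) →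
      ∃ p ∈ (lin (Λ.map π)).minimalPrimes, Nice (Λ.map π) p ∧
        p.comap θ = ctr (MvPolynomial α k₀) T ς := fun T hT hT' ⟨z, hz, hi⟩ => by
    obtain ⟨p, p1, p2, p3⟩ := lift T hT' hT.1 hT.2.1
    refine ⟨p, ⟨⟨p1, p2⟩, fun q hq hqp => ?_⟩, ?_, p3⟩
    · have := hq.1
      obtain ⟨T', a1, a2⟩ := ctr_down hT' (Ideal.comap_isPrime θ q) (p3 ▸ Ideal.comap_mono hqp)
        fun i => by rw [Ideal.mem_comap, h1]; exact q.zero_mem
      have a3 := (key T' (E1_ch hT' a1)).1 (a2 ▸ Ideal.comap_mono hq.2)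
      exact A1_le hθ (by rw [p3, ← a2, hT.2.2 T' a1 a3.1 a3.2])
    · obtain ⟨B, δ, b, e1, e2, e3⟩ := nice_of (bs k α k₀) Λ hΛ hi
      refine ⟨B.map π, π δ, fun hδ => e3 ?_, ?_⟩
      · rw [← hπ, ← Ideal.mem_comap, p3, ctr_form hT' (a := b) (by rwa [hm]), hm] at hδ
        exact hδ z hz
      · rw [← Matrix.map_mul, e1]
        ext1 i j
        by_cases e : i = j <;> simp [e]
  obtain ⟨p, p1, p2, p3⟩ := main Z hZ hς hn
  refine ⟨fun s hs hv => ?_, fun Z' hZ' hς' hn' => ?_⟩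
  · have a1 : θ (X s) = C (π (X s)) := by rw [← hπ, map_X]
    have a2 := (c2 Z hς s).2 hv
    rw [← p3, Ideal.mem_comap, a1, ← Ideal.mem_comap, nice_bot p1 p2, Ideal.mem_bot] at a2
    rw [a2, map_zero] at a1
    have a3 := hk (RingHom.ker (MvPolynomial.eval fun s =>
      if s ∈ U then (0 : MvPolynomial α k₀) else 1))
      (fun i => by simp [RingHom.mem_ker, h i]) (fun s hs => by simp [RingHom.mem_ker, hs]) a1
    simp [RingHom.mem_ker, hs] at a3
  · obtain ⟨p', q1, q2, q3⟩ := main Z' hZ' hς' hn'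
    rw [← p3, ← q3, nice_uniq p1 p2 q1 q2]

theorem top_conj {Z Z' : Sub k S} (hZ : Top Y U Z) (hZ' : Top Y U Z')
    (hn : ∃ z ∈ Z, LinearIndependent k fun j a => ev z (MvPolynomial.map (bs k α k₀) (Λ j a)))
    (hn' : ∃ z ∈ Z', LinearIndependent k fun j a => ev z (MvPolynomial.map (bs k α k₀) (Λ j a))) :
    ∃ σ : k ≃ₐ[MvPolynomial α k₀] k, Z' = sg σ.toRingEquiv Z := by
  obtain ⟨ς, hς⟩ := Noeth.mono_not_van Z'
  obtain ⟨ς₀, hς₀⟩ := Noeth.mono_not_van Z
  have h : ∀ i, (⟨i, ς i⟩ : S.V) ∉ U := fun i hi => exists_inCh_iff.1 hς i (hZ'.2.1 _ hi)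
  have h₀ : ∀ i, (⟨i, ς₀ i⟩ : S.V) ∉ U := fun i hi => exists_inCh_iff.1 hς₀ i (hZ.2.1 _ hi)
  have h1 : ∃ x ∈ Z, InCh ς x :=
    exists_inCh_iff.2 fun i => (top_cell hΛ hY h₀ hZ hς₀ hn).1 _ (h i)
  exact ctr_conj h1 hς ((top_cell hΛ hY h hZ h1 hn).2 Z' hZ' hς hn')

end Pool.Agent.Work.MP_10f4af_ag
end

-- merged part: Pool.Agent.Work.MP_10f4af_ag.UN.D2
section
/-!
# Generically defined correspondences are polynomials in the hyperplane classes

Plan.  `Dat.fix`: see the proof of `Dat.stab`.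
`sq_dim`: split `U` into `U₁ = {s | vl s ∈ U}` and `U₂ = {s | vr s ∈ U}` (`Finset.preimage`, or
`G1_e` and `Finset.card_toLeft_add_card_toRight`); `Bij.sdim_le`, `Crd.van_img`, `Crd.img_sub`,
`mem_prod`, `prod_dim`.
`Dat.fr'`: copy the proof of `Dat.fr` (file `VG/F1`), with the third and the second bullets as
separate facts `bad` and `hY`, since they are used again.  Case `fin`: let `T` be given with
`Top _ U T`, `U' = U.toFinite.toFinset`.  `krull_list` for `T ≤ (Z.prod Z).tp` and maximality give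
`Z.dim ≤ U'.card`, `sq_dim` gives `U'.card ≤ Z.dim`.  If the rows are dependent at all the points of
`T` use `bad`.  Otherwise `pos_mem` with `c = cut (U'.toList.map X) (cS (Z.prod Z).tp)`
(`cut_mem`, `cut_nat`, `cut_pos`, `PL_fin`, `sq_dim`): a component `T'` satisfies `Top _ U T'` by
`sq_dim`, `eq_of_sdim_le`; it is either `bad` or conjugate to `T` (`top_conj`, `hG`).
`Dat.inv'`: copy the proof of `Dat.inv` (file `VG/G2`).  In the case `hP`: `dvc_fin` with `u = 1`,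
`PL_fin`, `sq_dim`; each factor `dvc _ (single s.1 1)` is `hx Z` or `hy Z`, so the product is
`hx Z ^ i * hy Z ^ j` with `i + j = U.card` (induction on `U`); `un_hh`.
`Dat.act_RS`: `Cor.gal_xx`, `map_pow`, `gal_dvc`.  `Dat.nil'`: copy the proof of `VG.nil`.
-/

open MvPolynomial Finsupp Function

namespace Pool.Agent.Work.MP_10f4af_ag

open MP_ffcd14_ag hiding len vl cyc pl Weil idl_hmg mem_idl idl_prime idl_le_iff lin

universe u

variable {k : Type u} [Field k] [IsAlgClosed k] {P : Amb} {Z : SV k P}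

/-- The coordinate subspaces meet `Z` properly. -/
def CP (Z : SV k P) : Prop := ∀ (U : Finset P.V) (V : Sub k P), (V : Set (P.Pt k)) ⊆ Z.pts →
  (∀ s ∈ U, Van (V : Set (P.Pt k)) (X s)) → sdim V + U.card ≤ Z.dim

theorem sq_dim (h : CP Z) : CP (Z.prod Z) := by
  intro U V hV hU
  have h1 := h (U.map G1_e.toEmbedding).toLeft _
    (((Crd.inl k P P).img_sub (Z := V) Z.closed).2 fun z hz => (mem_prod.1 (hV hz)).1)
    fun s hs => ((Crd.inl k P P).van_img (IsForm.X s)).2 (by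
      rw [rename_X]
      exact hU _ (Finset.mem_map_equiv.1 (Finset.mem_toLeft.1 hs)))
  have h2 := h (U.map G1_e.toEmbedding).toRight _
    (((Crd.inr k P P).img_sub (Z := V) Z.closed).2 fun z hz => (mem_prod.1 (hV hz)).2)
    fun s hs => ((Crd.inr k P P).van_img (IsForm.X s)).2 (by
      rw [rename_X]
      exact hU _ (Finset.mem_map_equiv.1 (Finset.mem_toRight.1 hs)))
  have h3 := bij_sum.sdim_le V
  have h4 := Finset.card_toLeft_add_card_toRight (u := U.map G1_e.toEmbedding)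
  rw [Finset.card_map] at h4
  rw [prod_dim]
  omega

/-- The span of the products of powers of the hyperplane class. -/
noncomputable def RS [Unique P.ι] (Z : SV k P) : Submodule ℚ (Cor (Mod.one Z)) :=
  Submodule.span ℚ {y | ∃ i j, i + j = Z.dim ∧ y = Cor.xx (Mod.one Z) (hh Z ^ i) (hh Z ^ j)}

omit [IsAlgClosed k] in
theorem UND2_fm (U : Finset P.V) : Fm (U.toList.map (X : P.V → MvPolynomial P.V k)) :=
  fun _ hg => by
    obtain ⟨s, -, rfl⟩ := List.mem_map.1 hg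
    exact ⟨_, IsForm.X s⟩

theorem UND2_pl (h : CP Z) (U : Finset P.V) : PL (U.toList.map X) Z.tp :=
  PL_fin U X fun s _ T hT hs => Z.sdim_tp ▸ h s T hT hs

theorem UND2_prod [Unique P.ι] (Z : SV k P) (U : Finset (P.sum P).V) : ∃ i j, i + j = U.card ∧
    ∏ s ∈ U, dvc (Z.prod Z) (single s.1 1) = dvc (Z.prod Z) (single (Sum.inl default) 1) ^ i *
      dvc (Z.prod Z) (single (Sum.inr default) 1) ^ j := by
  induction U using Finset.cons_induction with
  | empty => exact ⟨0, 0, rfl, by simp⟩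
  | cons s U hs ih =>
    obtain ⟨i, j, h1, h2⟩ := ih
    rw [Finset.prod_cons, Finset.card_cons, h2]
    obtain ⟨l | l, t⟩ := s <;> obtain rfl : l = default := Subsingleton.elim _ _
    · exact ⟨i + 1, j, by omega, by rw [pow_succ', mul_assoc]⟩
    · exact ⟨i, j + 1, by omega, by rw [pow_succ', mul_left_comm]⟩

theorem RS_le [Unique P.ι] : RS Z ≤ Cor.DD (Mod.one Z) := by
  refine Submodule.span_mono ?_
  rintro _ ⟨i, j, -, rfl⟩
  exact ⟨_, _, rfl⟩

variable {r : ℕ} {f : Fin r → MvPolynomial P.V k} {a : Fin r → P.ι →₀ ℕ} {k₀ : Type u} [Field k₀]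
  [Algebra (MvPolynomial (Par a) k₀) k] (h : Dat Z k₀ f a)
include h

omit [IsAlgClosed k] in
theorem Dat.fix (σ : k ≃ₐ[MvPolynomial (Par a) k₀] k) (j : Fin r) :
    mp σ.toRingEquiv P (f j) = f j := by
  ext d
  rw [mp, coeff_map]
  by_cases hd : coeff d (f j) = 0
  · rw [hd, map_zero]
  · have := h.co ⟨j, d, h.form j hd⟩
    rw [← this]
    exact σ.commutes _

theorem Dat.act_RS [Unique P.ι] (σ : k ≃ₐ[MvPolynomial (Par a) k₀] k) {x : Cor (Mod.one Z)}
    (hx : x ∈ RS Z) : h.act σ x = x := by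
  refine (Submodule.span_le
    (p := LinearMap.eqLocus (h.act σ).toLinearMap LinearMap.id)).2 ?_ hx
  rintro _ ⟨i, j, -, rfl⟩
  have e : CR.gal ((h.stab σ).mod (Mod.one Z)) (hh Z) = hh Z := gal_dvc (h.stab σ) _
  refine (Cor.gal_xx _ (h.stab σ) _ _).trans ?_
  rw [map_pow, map_pow, e]
  rfl

variable [FaithfulSMul (MvPolynomial (Par a) k₀) k]
  [Algebra.IsAlgebraic (MvPolynomial (Par a) k₀) k] (hc : CP Z)
include hc

theorem Dat.fr' {N : Submodule ℚ (Cyc k (P.sum P))} (hR : Rt (Z.prod Z).pts ≤ N)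
    (hG : ∀ (σ : k ≃ₐ[MvPolynomial (Par a) k₀] k) (T : Sub k (P.sum P)),
      (T : Set ((P.sum P).Pt k)) ⊆ (Z.prod Z).pts → cS (sg σ.toRingEquiv T) - cS T ∈ N)
    (hD : single (idl {z : (P.sum P).Pt k | fst z ∈ Z.pts ∧ fst z = snd z}) 1 ∈ N)
    (hP : ∀ U : Finset (P.sum P).V, U.card = Z.dim →
      cut (U.toList.map X) (cS (Z.prod Z).tp) ∈ N)
    {T : Sub k (P.sum P)} (hT : (T : Set ((P.sum P).Pt k)) ⊆ (Z.prod Z).pts)
    (hd : sdim T = Z.dim) : cS T ∈ N := by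
  let _ : ∀ j, Fintype (Mon (a j)) := fun j => Fintype.ofFinite _
  let Λ : Matrix (Fin r × Bool) (Par a) (MvPolynomial (P.sum P).V k₀) := fun j p =>
    if p.1 = j.1 then rename (F1_pr k P j.2).ε (monomial p.2.1 1) else 0
  have hm : ∀ j p, MvPolynomial.map (bs k (Par a) k₀) (Λ j p) =
      if p.1 = j.1 then rename (F1_pr k P j.2).ε (monomial p.2.1 1) else 0 := by
    intro j p
    simp only [Λ]
    split_ifs
    · rw [map_rename, map_monomial, map_one]
    · exact map_zero _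
  have he : ∀ j, eqn k Λ j = rename (F1_pr k P j.2).ε (f j.1) := by
    intro j
    simp only [eqn, hm, h.co]
    rw [Fintype.sum_sigma, Finset.sum_eq_single j.1]
    · refine Eq.trans ?_ (congrArg _ (form_eq (h.form j.1))).symm
      rw [map_sum]
      refine Finset.sum_congr rfl fun m _ => ?_
      rw [if_pos rfl, map_mul, rename_C]
    · intro i _ hi
      exact Finset.sum_eq_zero fun m _ => by rw [if_neg hi, mul_zero]
    · exact fun e => absurd (Finset.mem_univ _) e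
  have hΛ : ∀ j p, IsForm (MvPolynomial.map (bs k (Par a) k₀) (Λ j p))
      ((a j.1).mapDomain (F1_pr k P j.2).ψ) := fun j p => by
    rw [hm]
    split_ifs with e
    · rw [← e]
      exact (F1_pr k P j.2).form (mon_form p.2)
    · exact isWeightedHomogeneous_zero k _ _
  have hY : ∀ z, z ∈ (Z.prod Z).pts ↔ ∀ j, ev z (eqn k Λ j) = 0 := fun z => by
    simp only [he, Crd.ev_rename, Prod.forall, Bool.forall_bool, forall_and]
    rw [mem_prod, h.pts, h.pts, and_comm]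
    rfl
  have bad : ∀ T : Sub k (P.sum P), (T : Set ((P.sum P).Pt k)) ⊆ (Z.prod Z).pts → sdim T = Z.dim →
      (∀ z ∈ T, ¬ LinearIndependent k fun j p =>
        ev z (MvPolynomial.map (bs k (Par a) k₀) (Λ j p))) → cS T ∈ N := fun T hT hd hb => by
    obtain ⟨D, d1, d2⟩ := exists_dia Z
    have hle : T ≤ D := fun z hz => by
      rw [← SetLike.mem_coe, d1]
      refine ⟨(mem_prod.1 (hT hz)).1, ?_⟩
      by_contra hne
      refine hb z hz (Fintype.linearIndependent_iff.2 fun g hg j => ?_)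
      have key := sep_mon (h.pos j.1) hne (c := g (j.1, true)) (c' := g (j.1, false)) fun m => by
        have e := congrFun hg ⟨j.1, m⟩
        simp only [Finset.sum_apply, Pi.smul_apply, smul_eq_mul, hm, Pi.zero_apply] at e
        rw [Fintype.sum_prod_type, Finset.sum_eq_single j.1, Fintype.sum_bool, if_pos rfl,
          if_pos rfl, Crd.ev_rename, Crd.ev_rename] at e
        · exact e
        · intro i _ hi
          exact Finset.sum_eq_zero fun b _ => by
            rw [if_neg (Ne.symm hi), ev_eq, map_zero, mul_zero]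
        · exact fun e => absurd (Finset.mem_univ _) e
      obtain ⟨j, _ | _⟩ := j
      exacts [key.2, key.1]
    rw [eq_of_sdim_le hle (by rw [d2, hd]), cS, d1]
    exact hD
  refine LK hΛ hY hR (fun σ T hT _ => hG σ T hT) bad (fun U T hT hd hU hmax => ?_) hT hd
  obtain ⟨U, rfl⟩ : ∃ U' : Finset (P.sum P).V, U = U' := ⟨U.toFinite.toFinset, by simp⟩
  have hv : ∀ W : Sub k (P.sum P), (∀ g ∈ U.toList.map X, Van (W : Set ((P.sum P).Pt k)) g) ↔
      ∀ s ∈ U, Van (W : Set ((P.sum P).Pt k)) (X s) := fun W => by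
    simp only [List.forall_mem_map, Finset.mem_toList]
  have hl : (U.toList.map (X : _ → MvPolynomial (P.sum P).V k)).length = U.card := by simp
  have h1 := (Z.prod Z).sdim_tp
  have h2 := prod_dim Z Z
  have h3 := sq_dim hc U T hT hU
  obtain ⟨W, w1, w2, w3, w4⟩ := krull_list (UND2_fm U) (V := (Z.prod Z).tp) hT ((hv T).2 hU)
  rw [hmax W w1 w2 ((hv W).1 w3)] at w4
  by_cases hb : ∃ z ∈ T, LinearIndependent k fun j p =>
      ev z (MvPolynomial.map (bs k (Par a) k₀) (Λ j p))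
  swap
  · exact bad T hT hd fun z hz e => hb ⟨z, hz, e⟩
  refine pos_mem N (cut_mem (UND2_fm U) (Z.prod Z).tp) (fun q => ?_)
    (cut_pos (UND2_fm U) (UND2_pl (sq_dim hc) U) hT ((hv T).2 hU) (by omega)).ne'
    (hP U (by omega)) fun T' ⟨t1, t2, t3⟩ => ?_
  · obtain ⟨n, hn⟩ := cut_nat (U.toList.map X) (Z.prod Z).tp q
    rw [hn]
    exact n.cast_nonneg
  by_cases hb' : ∃ z ∈ T', LinearIndependent k fun j p =>
      ev z (MvPolynomial.map (bs k (Par a) k₀) (Λ j p))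
  · obtain ⟨σ, rfl⟩ := top_conj hΛ hY (U := U) ⟨hT, hU, hmax⟩ ⟨t1, (hv T').1 t3,
      fun W w1 w2 w3 => (eq_of_sdim_le w1 (by have := sq_dim hc U W w2 w3; omega)).symm⟩ hb hb'
    exact .inr (hG σ T hT)
  · exact .inl (bad T' t1 (by omega) fun z hz e => hb' ⟨z, hz, e⟩)

variable [Unique P.ι]

theorem Dat.inv' {t : Cor (Mod.one Z)} (ht : t ∈ Cor.R0 (Mod.one Z)) (hi : ∀ σ, h.act σ t = t) :
    ∃ δ ∈ RS Z, ∃ c : ℚ, t = δ + c • 1 := by
  suffices H : t ∈ RS Z ⊔ Submodule.span ℚ {1} by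
    obtain ⟨δ, hδ, _, hy, rfl⟩ := Submodule.mem_sup.1 H
    obtain ⟨c, rfl⟩ := Submodule.mem_span_singleton.1 hy
    exact ⟨δ, hδ, c, rfl⟩
  refine inv_mem (fun σ => (h.act σ).toLinearMap) h.act_one h.act_mul h.act_fin _
    (fun σ x hx => ?_) hi ?_
  · obtain ⟨δ, hδ, _, hy, rfl⟩ := Submodule.mem_sup.1 hx
    obtain ⟨c, rfl⟩ := Submodule.mem_span_singleton.1 hy
    rwa [AlgHom.toLinearMap_apply, map_add, map_smul, map_one, h.act_RS σ hδ]
  generalize hQ' : RS Z ⊔ Submodule.span ℚ {1} ⊔ Submodule.span ℚ _ = Q'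
  have k0 : RS Z ≤ Q' := hQ' ▸ le_sup_left.trans le_sup_left
  have k1 : 1 ∈ Q' :=
    hQ' ▸ Submodule.mem_sup_left (Submodule.mem_sup_right (Submodule.mem_span_singleton_self _))
  have k2 : ∀ σ m, h.act σ m - m ∈ Q' := fun σ m =>
    hQ' ▸ Submodule.mem_sup_right (Submodule.subset_span ⟨σ, m, rfl⟩)
  obtain ⟨c, hc', e⟩ := (mem_CH _).1 ((Cor.mem_R0' _).1 ht)
  obtain ⟨s, hs, e'⟩ : (Rt (Z.prod Z).pts).mkQ c ∈ Q'.map (Cor.vv (Mod.one Z)) := by
    refine Sp_map _ _ (fun T hT => ?_) hc'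
    refine h.fr' hc (N := (Q'.map (Cor.vv (Mod.one Z))).comap (Rt (Z.prod Z).pts).mkQ)
      (fun c hc => ?_) (fun σ T hT => ?_) ⟨1, k1, Cor.vv_one _⟩ (fun U hU => ?_) hT.1 ?_
    · exact ⟨0, zero_mem _, (map_zero _).trans ((Submodule.Quotient.mk_eq_zero _).2 hc).symm⟩
    · obtain ⟨m, hm⟩ := G2_mk hT
      refine ⟨_, k2 σ m, ?_⟩
      have e : Cor.vv (Mod.one Z) (h.act σ m) =
          tC ((h.stab σ).mod ((Mod.one Z).prod (Mod.one Z))) (Cor.vv (Mod.one Z) m) := rfl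
      rw [map_sub, map_sub, e, hm, ← tw_cS]
      rfl
    · obtain ⟨i, j, h1, h2⟩ := UND2_prod Z U
      have h3 := dvc_fin U (fun s _ => IsForm.X s) (V := (Z.prod Z).tp) Set.Subset.rfl
        (UND2_pl (sq_dim hc) U) (CR.val_one (Z.prod Z))
      rw [mul_one, h2] at h3
      exact ⟨_, k0 (Submodule.subset_span ⟨i, j, h1.trans hU, rfl⟩),
        (congrArg (CR.val (M2 Z).Z) (un_hh Z i j)).trans h3⟩
    · exact Nat.add_right_cancel (hT.2.trans (prod_dim Z Z))
  rwa [← Cor.vv_inj _ (e'.trans e)]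

theorem Dat.nil' (hn : ∀ δ ∈ RS Z, 1 - δ ∉ Cor.NJ (Mod.one Z)) {γ : Cor (Mod.one Z)}
    (hγ : γ ∈ Cor.NJ (Mod.one Z)) : IsNilpotent γ := by
  refine (BI_ring h.act h.act_one h.act_mul (Cor.NJ _) (Cor.DD _)
    (fun x hx y hy => NJ_mul hx hy.1) (fun σ _ => h.act_NJ σ) (fun a b _ => DD_ideal a b)
    (fun t ht hi => ?_) hγ (h.act_fin γ)).elim fun n h3 =>
      ⟨n + 1 + n, by rw [pow_add, pow_succ, DJD h3.2 hγ h3.2]⟩
  obtain ⟨δ, hδ, c, rfl⟩ := h.inv' hc ht.1 hi
  by_cases hc : c = 0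
  · rw [hc, zero_smul, add_zero]
    exact RS_le hδ
  refine absurd ?_ (hn _ (Submodule.smul_mem _ (-c⁻¹) hδ))
  have := Submodule.smul_mem _ c⁻¹ ht
  rwa [smul_add, smul_smul, inv_mul_cancel₀ hc, one_smul, add_comm, ← sub_neg_eq_add,
    ← neg_smul] at this

end Pool.Agent.Work.MP_10f4af_ag
end

-- merged part: Pool.Agent.Work.MP_10f4af_ag.UN.E3
section
/-!
# The degree of the cyclic product when the diagonal is numerically decomposable

Plan.  `dgr_prod`: `T5_extN` with `A = Unit`, `A' = U' = Empty`, `MA' = MU' = Mod.pow X Empty`,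
`Mod.push_dgr`; `CR.one_ne`, `smul_left_injective` or `Mod.exists_dgr`.
`dgr_NJ`: `Mod.push_pull_mul`, `dgr_push`, `Mod.push_gr`, the definition of `Cor.NJ`, `Mod.dim`.
`cyc_congr`: replace the factors one by one: induction on a finite set `s` for
`∏ i, pull (if i ∈ s then γ' i else γ i)`; `Finset.mul_prod_erase`, `dgr_NJ`, `Mod.pull_gr`,
`CR.mul_gr` (a product over a finite set `t` is in `CR.gr _ (t.card * X.dim)`).
`cyc_SS`: `map_sum`, `Finset.prod_univ_sum`, `un_hh` or `Cor.un_xx`, `Mod.pull_pull` (with `it`);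
reindex the second factors by `i ↦ i + 1` (`Equiv.addRight`, `Finset.prod_mul_distrib`), so each
term is `∏ i, pull (it i) (hh X ^ (j i + (d - j (i - 1))))`; by `dgr_prod`, `pow_gr`, `dgr_gr` it
vanishes unless `j i = j (i - 1)` for all `i`, that is unless `j` is constant (`Fin.induction`).
`RS_coef`: induction on the span.  `RS_pair`: `un_hh`, `dgr_xx`, `pull_hx`, `pull_hy`, `dgr_gr`.
`num_res`: `γ - (δ + c • a) = c • (1 - a)` is in `NJ`.  Write `δ + c • a = ∑ j, β j • xx ..` by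
`RS_coef`, pair with `hx X ^ (d - j) * hy X ^ j` (`pow_gr`, `dvc_gr`, `CR.mul_gr`): `RS_pair` gives
`β j * E * E = q * E`.
-/

open MvPolynomial Finsupp Function Function.Embedding

namespace Pool.Agent.Work.MP_10f4af_ag

open MP_ffcd14_ag hiding len vl cyc pl Weil idl_hmg mem_idl idl_prime idl_le_iff lin

universe u

variable {k : Type u} [Field k] [IsAlgClosed k] {P : Amb} {X : SV k P} {n : ℕ}

theorem dgr_prod {N : ℕ} (M : Mod X (Fin N)) (c : Fin N → CR (Mod.one X).Z) :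
    M.dgr (∏ i, (Mod.one X).pull M (it i) (c i)) = ∏ i, (Mod.one X).dgr (c i) := by
  refine G1_dgr M ?_
  rw [T5_extN (Mod.one X) (Mod.pow X Empty) (Mod.e0 Unit) M (Mod.pow X Empty) it
    (fun _ => Embedding.refl Empty) (Mod.e0 _)
    ⟨fun a b e => Prod.ext e rfl, fun t => ⟨(t, ()), rfl⟩⟩ (fun t => t.elim) (fun _ t => t.elim) c]
  simp only [Mod.push_dgr, ← Algebra.algebraMap_eq_smul_one, AlgHom.commutes, map_prod]

variable (M : Mod X (Fin (n + 2)))

theorem dgr_NJ (i : Fin (n + 2)) {δ : Cor (Mod.one X)} (hδ : δ ∈ Cor.NJ (Mod.one X))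
    {w : CR M.Z} (hw : w ∈ CR.gr M.Z ((n + 1) * X.dim)) :
    M.dgr ((M2 X).pull M (ed i) (Cor.un _ δ) * w) = 0 := by
  rw [← dgr_push (M2 X) M (ed i), Mod.push_pull_mul]
  refine hδ.2 _ (Mod.push_gr _ _ _ ?_ hw)
  rw [Mod.prod_dim', M.dim, Nat.card_eq_fintype_card, Fintype.card_fin]
  change _ + (X.dim + X.dim) = X.dim + _
  ring

theorem UNE3_gr {γ : Fin (n + 2) → Cor (Mod.one X)} (h : ∀ i, γ i ∈ Cor.R0 (Mod.one X))
    (s : Finset (Fin (n + 2))) :
    ∏ i ∈ s, (M2 X).pull M (ed i) (Cor.un _ (γ i)) ∈ CR.gr M.Z (s.card * X.dim) := by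
  induction s using Finset.induction_on with
  | empty =>
    rw [Finset.prod_empty, Finset.card_empty, zero_mul]
    exact CR.one_gr
  | insert a s ha ih =>
    rw [Finset.prod_insert ha, Finset.card_insert_of_notMem ha, add_mul, one_mul,
      add_comm (_ * X.dim)]
    exact CR.mul_gr (Mod.pull_gr _ _ _ (h a)) ih

theorem UNE3_upd {γ : Fin (n + 2) → Cor (Mod.one X)} (h : ∀ i, γ i ∈ Cor.R0 (Mod.one X))
    (a : Fin (n + 2)) {δ : Cor (Mod.one X)} (h' : γ a - δ ∈ Cor.NJ (Mod.one X)) :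
    M.dgr (∏ i, (M2 X).pull M (ed i) (Cor.un _ (γ i))) =
      M.dgr (∏ i, (M2 X).pull M (ed i) (Cor.un _ (update γ a δ i))) := by
  have h1 := UNE3_gr M h (Finset.univ.erase a)
  rw [Finset.card_erase_of_mem (Finset.mem_univ a), Finset.card_univ, Fintype.card_fin] at h1
  have h2 := dgr_NJ M a h' h1
  rw [map_sub, map_sub, sub_mul, ← Mod.dgL_apply, map_sub, sub_eq_zero] at h2
  rw [← Finset.mul_prod_erase _ _ (Finset.mem_univ a),
    ← Finset.mul_prod_erase _ _ (Finset.mem_univ a), Function.update_self]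
  refine h2.trans (congrArg M.dgr (congrArg _ (Finset.prod_congr rfl fun i hi => ?_)))
  rw [Function.update_of_ne (Finset.ne_of_mem_erase hi)]

theorem cyc_congr {γ γ' : Fin (n + 2) → Cor (Mod.one X)} (h : ∀ i, γ i ∈ Cor.R0 (Mod.one X))
    (h' : ∀ i, γ i - γ' i ∈ Cor.NJ (Mod.one X)) :
    M.dgr (∏ i, (M2 X).pull M (ed i) (Cor.un _ (γ i))) =
      M.dgr (∏ i, (M2 X).pull M (ed i) (Cor.un _ (γ' i))) := by
  have h0 : ∀ i, γ' i ∈ Cor.R0 (Mod.one X) := fun i => by
    have := sub_mem (h i) (h' i).1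
    rwa [sub_sub_cancel] at this
  have key : ∀ s : Finset (Fin (n + 2)), M.dgr (∏ i, (M2 X).pull M (ed i) (Cor.un _ (γ i))) =
      M.dgr (∏ i, (M2 X).pull M (ed i) (Cor.un _ (s.piecewise γ' γ i))) := fun s => by
    induction s using Finset.induction_on with
    | empty => rw [Finset.piecewise_empty]
    | insert a s ha ih =>
      rw [Finset.piecewise_insert, ih]
      refine UNE3_upd M (fun i => ?_) a ?_
      · by_cases hi : i ∈ s
        · rw [Finset.piecewise_eq_of_mem _ _ _ hi]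
          exact h0 i
        · rw [Finset.piecewise_eq_of_notMem _ _ _ hi]
          exact h i
      · rw [Finset.piecewise_eq_of_notMem _ _ _ ha]
        exact h' a
  rw [key Finset.univ, Finset.piecewise_univ]

variable [Unique P.ι]

variable (X) in
/-- The sum of the products of powers of the hyperplane class. -/
noncomputable def SS : Cor (Mod.one X) :=
  ∑ j : Fin (X.dim + 1), Cor.xx (Mod.one X) (hh X ^ j.val) (hh X ^ (X.dim - j.val))

theorem UNE3_hh (i : ℕ) : hh X ^ i ∈ CR.gr (Mod.one X).Z i := pow_gr (dvc_gr _ _) i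

theorem UNE3_zero {i : ℕ} (h : i ≠ X.dim) : (Mod.one X).dgr (hh X ^ i) = 0 :=
  dgr_gr _ (UNE3_hh i) h

omit [Unique P.ι] in
theorem UNE3_cyc (b a : Fin (n + 2) → CR (Mod.one X).Z) :
    M.dgr (∏ i, (M2 X).pull M (ed i) (Cor.un _ (Cor.xx (Mod.one X) (b i) (a i)))) =
      ∏ i, (Mod.one X).dgr (b i * a (i - 1)) := by
  have e : ∀ i, (M2 X).pull M (ed i) (Cor.un _ (Cor.xx (Mod.one X) (b i) (a i))) =
      (Mod.one X).pull M (it i) (b i) * (Mod.one X).pull M (it (i + 1)) (a i) := fun i => by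
    rw [Cor.un_xx, map_mul,
      (Mod.one X).pull_pull (M2 X) M (f := inl) (g := ed i) (it i) (fun _ => rfl) (b i),
      (Mod.one X).pull_pull (M2 X) M (f := inr) (g := ed i) (it (i + 1)) (fun _ => rfl) (a i)]
  have e' : ∏ i, (Mod.one X).pull M (it (i + 1)) (a i) =
      ∏ i, (Mod.one X).pull M (it i) (a (i - 1)) := by
    rw [← Equiv.prod_comp (Equiv.addRight (1 : Fin (n + 2)))
      fun i => (Mod.one X).pull M (it i) (a (i - 1))]
    exact Finset.prod_congr rfl fun i _ => by rw [Equiv.coe_addRight, add_sub_cancel_right]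
  rw [← dgr_prod M, Finset.prod_congr rfl fun i _ => e i, Finset.prod_mul_distrib, e',
    ← Finset.prod_mul_distrib]
  exact congrArg M.dgr (Finset.prod_congr rfl fun i _ => (map_mul _ _ _).symm)

theorem UNE3_term (p : Fin (n + 2) → Fin (X.dim + 1)) :
    M.dgr (∏ i, (M2 X).pull M (ed i) (Cor.un _
      (Cor.xx (Mod.one X) (hh X ^ (p i).val) (hh X ^ (X.dim - (p i).val))))) =
      ∏ i, (Mod.one X).dgr (hh X ^ ((p i).val + (X.dim - (p (i - 1)).val))) :=
  (UNE3_cyc M (fun i => hh X ^ (p i).val) fun i => hh X ^ (X.dim - (p i).val)).trans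
    (Finset.prod_congr rfl fun i _ => by rw [pow_add])

theorem cyc_SS : M.dgr (∏ i, (M2 X).pull M (ed i) (Cor.un _ (SS X))) =
    (X.dim + 1) * (Mod.one X).dgr (hh X ^ X.dim) ^ (n + 2) := by
  simp only [SS, map_sum]
  rw [Finset.prod_univ_sum, Fintype.piFinset_univ, ← Mod.dgL_apply, map_sum]
  simp only [Mod.dgL_apply, UNE3_term]
  rw [← Fintype.sum_of_injective (fun (j : Fin (X.dim + 1)) (_ : Fin (n + 2)) => j)
    (fun a b e => congrFun e 0) (fun _ => (Mod.one X).dgr (hh X ^ X.dim) ^ (n + 2)) _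
    (fun p hp => ?_) fun j => ?_]
  · rw [Finset.sum_const, Finset.card_univ, Fintype.card_fin, nsmul_eq_mul, Nat.cast_succ]
  · by_contra h0
    refine hp ⟨p 0, funext fun i => ?_⟩
    have h1 : ∀ i, p i = p (i - 1) := fun i => by
      by_contra h2
      refine h0 (Finset.prod_eq_zero (Finset.mem_univ i) (UNE3_zero fun h3 => h2 (Fin.ext ?_)))
      have := (p (i - 1)).2
      omega
    induction i using Fin.induction with
    | zero => rfl
    | succ i ih => rw [h1 i.succ, ← Fin.coeSucc_eq_succ, add_sub_cancel_right, ← ih]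
  · beta_reduce
    rw [Nat.add_sub_cancel' (Nat.lt_succ_iff.1 j.2), Finset.prod_const, Finset.card_univ,
      Fintype.card_fin]

theorem RS_coef {δ : Cor (Mod.one X)} (h : δ ∈ RS X) : ∃ β : Fin (X.dim + 1) → ℚ,
    δ = ∑ j, β j • Cor.xx (Mod.one X) (hh X ^ j.val) (hh X ^ (X.dim - j.val)) := by
  induction h using Submodule.span_induction with
  | mem y h =>
    obtain ⟨i, j, e, rfl⟩ := h
    refine ⟨Pi.single ⟨i, by omega⟩ 1, ?_⟩
    rw [Finset.sum_eq_single ⟨i, by omega⟩ (fun b _ hb => by rw [Pi.single_eq_of_ne hb, zero_smul])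
      fun h => (h (Finset.mem_univ _)).elim, Pi.single_eq_same, one_smul,
      show X.dim - i = j by omega]
  | zero => exact ⟨0, by simp only [Pi.zero_apply, zero_smul, Finset.sum_const_zero]⟩
  | add y z _ _ h h' =>
    obtain ⟨β, rfl⟩ := h
    obtain ⟨β', rfl⟩ := h'
    exact ⟨β + β', by simp only [Pi.add_apply, add_smul, Finset.sum_add_distrib]⟩
  | smul q y _ h =>
    obtain ⟨β, rfl⟩ := h
    exact ⟨q • β, by simp only [Pi.smul_apply, smul_eq_mul, mul_smul, Finset.smul_sum]⟩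

theorem UNE3_xy (i j : ℕ) : (M2 X).dgr (hx X ^ i * hy X ^ j) =
    (Mod.one X).dgr (hh X ^ i) * (Mod.one X).dgr (hh X ^ j) := by
  rw [← pull_hx, ← pull_hy, ← map_pow, ← map_pow, dgr_xx]

theorem RS_pair (β : Fin (X.dim + 1) → ℚ) (j : Fin (X.dim + 1)) :
    (M2 X).dgr (Cor.un _ (∑ j, β j • Cor.xx (Mod.one X) (hh X ^ j.val) (hh X ^ (X.dim - j.val))) *
      (hx X ^ (X.dim - j.val) * hy X ^ j.val)) =
      β j * (Mod.one X).dgr (hh X ^ X.dim) * (Mod.one X).dgr (hh X ^ X.dim) := by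
  have hj := j.2
  rw [map_sum, Finset.sum_mul, ← Mod.dgL_apply, map_sum]
  simp only [map_smul, smul_mul_assoc, un_hh, Mod.dgL_apply, mul_mul_mul_comm (hx X ^ _), ← pow_add,
    UNE3_xy, smul_eq_mul]
  rw [Finset.sum_eq_single j (fun b _ hb => ?_) fun h => (h (Finset.mem_univ _)).elim,
    show j.val + (X.dim - j.val) = X.dim by omega, show X.dim - j.val + j.val = X.dim by omega,
    mul_assoc]
  rw [UNE3_zero fun e => hb (Fin.ext (by omega)), zero_mul, mul_zero]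

theorem num_res {a : Cor (Mod.one X)} (ha : a ∈ RS X) (h1 : 1 - a ∈ Cor.NJ (Mod.one X))
    (hE : (Mod.one X).dgr (hh X ^ X.dim) ≠ 0) {δ : Cor (Mod.one X)} (hδ : δ ∈ RS X) {c q : ℚ}
    (h : ∀ i j, i + j = X.dim → (M2 X).dgr (Cor.un _ (δ + c • 1) * (hx X ^ i * hy X ^ j)) =
      q * (Mod.one X).dgr (hh X ^ X.dim)) :
    δ + c • 1 - (q / (Mod.one X).dgr (hh X ^ X.dim)) • SS X ∈ Cor.NJ (Mod.one X) := by
  obtain ⟨β, hβ⟩ := RS_coef (add_mem hδ (Submodule.smul_mem _ c ha))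
  have e : δ + c • 1 = (δ + c • a) + c • (1 - a) := by
    rw [smul_sub, add_assoc, add_sub_cancel]
  have h2 : ∀ j, β j = q / (Mod.one X).dgr (hh X ^ X.dim) := fun j => by
    have hj := j.2
    have h3 := h (X.dim - j.val) j.val (by omega)
    have h4 : hx X ^ (X.dim - j.val) * hy X ^ j.val ∈ CR.gr (M2 X).Z (Mod.one X).Z.dim := by
      rw [← un_hh]
      exact Cor.xx_mem _ (UNE3_hh _) (UNE3_hh _) (show _ = X.dim by omega)
    rw [e, map_add, add_mul, ← Mod.dgL_apply, map_add, (Submodule.smul_mem _ c h1).2 _ h4, add_zero,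
      Mod.dgL_apply, hβ, RS_pair] at h3
    rw [eq_div_iff hE]
    exact mul_right_cancel₀ hE h3
  have h3 : δ + c • a = (q / (Mod.one X).dgr (hh X ^ X.dim)) • SS X := by
    rw [hβ, SS, Finset.smul_sum]
    exact Finset.sum_congr rfl fun j _ => by rw [h2]
  rw [e, h3, add_sub_cancel_left]
  exact Submodule.smul_mem _ c h1

end Pool.Agent.Work.MP_10f4af_ag
end

-- merged part: Pool.Agent.Work.MP_10f4af_ag.FA.E1
section
/-!
# Very general hypersurfaces of degree at least three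
-/

open MvPolynomial Finsupp Function Function.Embedding

namespace Pool.Agent.Work.MP_10f4af_ag

open MP_ffcd14_ag hiding len vl cyc pl Weil idl_hmg mem_idl idl_prime idl_le_iff lin

universe u v w

variable {k : Type u} [Field k] [IsAlgClosed k] {P : Amb} {X Y : SV k P}
  {f : MvPolynomial P.V k}

theorem HS.cp' [Unique P.ι] {e : ℕ} (h : HS X f e) : CP X := fun U V hV hU => by
  simpa using h.low ∅ U hV (by simp) hU

theorem HS.not_num' [Unique P.ι] {e : ℕ} (h : HS X f e) (he : 3 ≤ e)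
    (hY : Y.pts = Set.univ) (hd : cut [f] (cS Y.tp) = cS X.tp)
    (inv : ∀ t ∈ Cor.R0 (Mod.one X), (∀ (σ : k ≃+* k) (hσ : Stab σ X.pts), mp σ P f = f →
      Cor.gal (Mod.one X) hσ t = t) → ∃ δ ∈ RS X, ∃ c : ℚ, t = δ + c • 1)
    {a : Cor (Mod.one X)} (ha : a ∈ RS X) : 1 - a ∉ Cor.NJ (Mod.one X) := by
  classical
  intro h1
  let _ := Fintype.ofFinite P.V
  let p : Fin (X.dim + 2) ≃ P.V :=
    (Fintype.equivFinOfCardEq (by rw [← Nat.card_eq_fintype_card, h.card])).symm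
  have hYd : Y.dim = X.dim + 1 := by
    have := univ_dim hY
    rw [Nat.card_unique, h.card] at this
    omega
  have he' : (3 : ℚ) ≤ e := by exact_mod_cast he
  have hd0 : (0 : ℚ) ≤ X.dim := Nat.cast_nonneg _
  have hE : (e : ℚ) ≤ (Mod.one X).dgr (hh X ^ X.dim) := by
    rw [h.deg hY hd, ← hYd]
    exact le_mul_of_one_le_right (Nat.cast_nonneg _) (one_le hY)
  have hE0 : 0 < (Mod.one X).dgr (hh X ^ X.dim) := by linarith
  choose γ m hm hγ hi hq using fun i => h.exists_res hY hd (p i)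
  have hR : ∀ i, γ i ∈ Cor.R0 (Mod.one X) := fun i => (hγ i).gr
  have hN : ∀ i, γ i - ((e - m i) / (Mod.one X).dgr (hh X ^ X.dim)) • SS X ∈
      Cor.NJ (Mod.one X) := fun i => by
    obtain ⟨δ, hδ, c, e1⟩ := inv _ (hR i) (hi i)
    rw [e1]
    exact num_res ha h1 hE0.ne' hδ (e1 ▸ hq i)
  have hm' : ∀ i, 0 ≤ e - m i := fun i => by
    have e1 := ((hγ i).pow (single (Sum.inl (default : P.ι)) 1) X.dim)
    have e2 : (M2 X).Z.dim = X.dim + X.dim := prod_dim X X
    have e3 := Eff.dgr (M2 X) (e2 ▸ e1) ∅ (by simp)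
    have e4 := hq i X.dim 0 rfl
    rw [pow_zero, mul_one, mul_comm] at e4
    rw [Finset.card_empty, Nat.cast_zero] at e3
    exact nonneg_of_mul_nonneg_left (e4 ▸ e3) hE0
  let M := Mod.pow X (Fin (X.dim + 2))
  obtain ⟨s, hs, hb⟩ := h.many he hY p M
  have key := cyc_eff M (O := fun i => Out X f (p i)) (I := fun i => Out X f (p i))
    (fun i x => by
      by_cases hx : x ∈ X.pts
      · exact (h.fib hx (p i)).subset fun y hy => ⟨hy.2.1, hy.2.2.1⟩
      · exact Set.finite_empty.subset fun y hy => hx hy.1)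
    hγ (fun V hV => h.poly' (n := X.dim + 1) (by omega) p.injective M hV) s hs
  rw [cyc_congr M hR hN] at key
  simp only [map_smul] at key
  rw [Finset.prod_smul, ← Mod.dgL_apply, map_smul, Mod.dgL_apply, cyc_SS, Finset.prod_div_distrib,
    Finset.prod_const, Finset.card_univ, Fintype.card_fin, smul_eq_mul, mul_left_comm,
    div_mul_cancel₀ _ (pow_ne_zero _ hE0.ne')] at key
  have h3 : ∏ i, (e - m i) ≤ ((e : ℚ) - 1) ^ (X.dim + 2) := by
    have := Finset.prod_le_prod (s := Finset.univ) (fun i _ => hm' i)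
      (g := fun _ => (e : ℚ) - 1) fun i _ => by linarith [hm i]
    rwa [Finset.prod_const, Finset.card_univ, Fintype.card_fin] at this
  nlinarith

variable {a : P.ι →₀ ℕ} (hP : Nat.card P.ι = 1) (hY : Y.pts = Set.univ)
  (h : Sec Y X f a) (hf : AlgebraicIndependent (⊥ : Subfield k) fun m : Mon a => coeff m.1 f)
  (he : ∀ i, 3 ≤ a i)

omit [IsAlgClosed k] in
include hY h hf in
theorem vg_of' : VG X := by
  refine ⟨1, fun j => if j = 0 then Y else X, fun _ => f, fun _ => a, hY, rfl, fun j hj => ?_, ?_⟩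
  · obtain rfl : j = 0 := by omega
    exact h
  · exact hf.comp (fun p : Σ _ : Fin 1, Mon a => p.2) fun p q e =>
      Sigma.ext (Subsingleton.elim _ _) (heq_of_eq e)

include hP hY h hf he

theorem nil_all {γ : Cor (Mod.one X)} (hγ : γ ∈ Cor.NJ (Mod.one X)) : IsNilpotent γ := by
  obtain ⟨h1, ⟨i₀⟩⟩ := Nat.card_eq_one_iff_unique.1 hP
  have : Unique P.ι := uniqueOfSubsingleton i₀
  have H := HS.of hY h hf (by have := he default; omega)
  obtain ⟨k₀, _, _, _, hd⟩ := exists_dat (Z := X) (r := 1) (f := fun _ => f) (a := fun _ => a)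
    (fun _ => h.form) (fun _ => h.pos) (fun x => by simpa using H.pts x)
    (hf.comp (fun p : Σ _ : Fin 1, Mon a => p.2) fun p q e =>
      Sigma.ext (Subsingleton.elim _ _) (heq_of_eq e))
  refine hd.nil' H.cp' (fun δ hδ => H.not_num' (he default) hY ?_ (fun t ht hi => ?_) hδ) hγ
  · exact (gys_single h.form Y.tp).symm.trans h.div
  · exact hd.inv' H.cp' ht fun σ => hi _ _ (hd.fix σ 0)

theorem HNA {γ : Cl (X.prod X)} (hγ : Num X γ) : ∃ n, (comp X γ)^[n] γ = 0 := by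
  obtain ⟨α, -, rfl⟩ := exists_vv (Mod.one X) hγ.1
  obtain ⟨n, hn⟩ := nil_all hP hY h hf he ((num_iff (M := Mod.one X)).1 hγ)
  refine ⟨n, ?_⟩
  have h3 := H2_iter (Mod.one X) α n
  rw [pow_succ, hn, zero_mul, map_zero] at h3
  exact h3

theorem HA {K : Type v} [Field K] [CharZero K] {W : Weil.{u, v, w} k K} (hW : W.Lef) :
    (∀ i m, Indep W X (Fil X i m)) ↔
      ∀ i, 1 < i → 2 * i < X.dim → Set.InjOn (W.cl X) (CH X i) := by
  obtain ⟨h1, ⟨i₀⟩⟩ := Nat.card_eq_one_iff_unique.1 hP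
  have : Unique P.ι := uniqueOfSubsingleton i₀
  have hv := vg_of' hY h hf
  have e := main_iff (M := Mod.one X) (H2_al hW hv) fun p hp hpp h0 =>
    IsIdempotentElem.eq_zero_of_isNilpotent hpp (nil_all hP hY h hf he (hom_NJ hp h0))
  refine e.trans ⟨fun H i hi => H i (by omega), fun H i hi h3 => ?_⟩
  obtain rfl | hi' : i = 1 ∨ 1 < i := by omega
  · refine inj_one (X := X) hW hv (fun e => ?_) (by change 2 * 1 < X.dim at h3; omega)
    have e1 := univ_dim e
    have e2 := univ_dim hY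
    have e3 := h.dim
    omega
  · exact H i hi' h3

end Pool.Agent.Work.MP_10f4af_ag
end
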